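import Mathlib

/-!
An injective realisation of an induced representation in the group algebra.
-/

set_option autoImplicit false
set_option linter.unusedSectionVars false

namespace Pool.Agent.Helper89.Foulkes

open Representation

variable {F : Type*} [Field F] {G' G : Type*} [Group G'] [Group G] (φ : G' →* G) {V : Type*}
  [AddCommGroup V] [Module F V] (σ : Representation F G' V)

theorem mk_rel (g : G') (h : G) (a : V) :
    IndV.mk φ σ (φ g * h) (σ g a) = IndV.mk φ σ h a := by
  have h1 := Coinvariants.mk_self_apply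
    (Representation.tprod ((leftRegular F G).comp φ) σ) g
    (TensorProduct.tmul F (MonoidAlgebra.single h 1) a)
  simpa using h1

/-- The realisation. -/
noncomputable def Theta (ι : V →ₗ[F] MonoidAlgebra F G)
    (hι : ∀ g a, ι (σ g a) = MonoidAlgebra.single (φ g) 1 * ι a) :
    IndV φ σ →ₗ[F] MonoidAlgebra F G :=
  Coinvariants.lift _ (TensorProduct.lift (((LinearMap.mul F (MonoidAlgebra F G)).compl₂ ι) ∘ₗ
    (MonoidAlgebra.mapDomainLinearMap F F (fun x : G => x⁻¹)))) (by
      intro g
      ext h a
      simp [hι, ← mul_assoc, MonoidAlgebra.single_mul_single])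

variable {φ σ}

theorem Theta_mk {ι : V →ₗ[F] MonoidAlgebra F G}
    {hι : ∀ g a, ι (σ g a) = MonoidAlgebra.single (φ g) 1 * ι a} (h : G) (a : V) :
    Theta φ σ ι hι (IndV.mk φ σ h a) = MonoidAlgebra.single h⁻¹ 1 * ι a := by
  simp [Theta]

theorem Theta_ind {ι : V →ₗ[F] MonoidAlgebra F G}
    {hι : ∀ g a, ι (σ g a) = MonoidAlgebra.single (φ g) 1 * ι a} (g : G) (w : IndV φ σ) :
    Theta φ σ ι hι (ind φ σ g w) = MonoidAlgebra.single g 1 * Theta φ σ ι hι w := by
  have h : Theta φ σ ι hι ∘ₗ ind φ σ g =
      (LinearMap.mulLeft F (MonoidAlgebra.single g 1)) ∘ₗ Theta φ σ ι hι := by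
    apply IndV.hom_ext
    intro h
    ext a
    simp only [LinearMap.comp_apply]
    have h1 := ind_mk φ σ g h a
    simp only [LinearMap.comp_apply] at h1
    rw [h1]
    have h2 := Theta_mk (hι := hι) (φ := φ) (σ := σ) (h * g⁻¹) a
    have h3 := Theta_mk (hι := hι) (φ := φ) (σ := σ) h a
    simp only [LinearMap.comp_apply] at h2 h3
    rw [h2, h3, LinearMap.mulLeft_apply, ← mul_assoc, MonoidAlgebra.single_mul_single]
    simp
  exact congrArg (fun f => f w) h

theorem Theta_algebra {ι : V →ₗ[F] MonoidAlgebra F G}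
    {hι : ∀ g a, ι (σ g a) = MonoidAlgebra.single (φ g) 1 * ι a} (x : MonoidAlgebra F G)
    (w : IndV φ σ) :
    Theta φ σ ι hι ((ind φ σ).asAlgebraHom x w) = x * Theta φ σ ι hι w := by
  induction x using MonoidAlgebra.induction_linear with
  | zero => simp
  | add x y hx hy => rw [map_add, LinearMap.add_apply, map_add, hx, hy, add_mul]
  | single g r =>
      rw [asAlgebraHom_single, LinearMap.smul_apply, map_smul, Theta_ind]
      have : (MonoidAlgebra.single g r : MonoidAlgebra F G) = r • MonoidAlgebra.single g 1 := by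
        rw [MonoidAlgebra.smul_single', mul_one]
      rw [this, smul_mul_assoc]

/-- The transversal map. -/
noncomputable def Xi (φ : G' →* G) (σ : Representation F G' V) :
    ((G ⧸ φ.range) →₀ V) →ₗ[F] IndV φ σ :=
  Finsupp.lsum F (fun c => IndV.mk φ σ (c.out)⁻¹)

theorem Xi_surjective : Function.Surjective (Xi φ σ) := by
  rw [← LinearMap.range_eq_top]
  have h : (LinearMap.range (Xi φ σ)).mkQ = 0 := by
    apply IndV.hom_ext
    intro h
    ext a
    rw [LinearMap.comp_apply, LinearMap.zero_comp, LinearMap.zero_apply, Submodule.mkQ_apply,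
      Submodule.Quotient.mk_eq_zero]
    -- `h⁻¹ = c.out * φ y`
    set c : G ⧸ φ.range := QuotientGroup.mk h⁻¹ with hc
    have h1 : (c.out)⁻¹ * h⁻¹ ∈ φ.range := by
      rw [← QuotientGroup.eq, QuotientGroup.out_eq']
    obtain ⟨y, hy⟩ := h1
    refine ⟨Finsupp.single c (σ y a), ?_⟩
    rw [Xi, Finsupp.lsum_single]
    have h2 : (c.out)⁻¹ = φ y * h := by rw [hy]; group
    rw [h2, mk_rel]
  rw [← Submodule.ker_mkQ (LinearMap.range (Xi φ σ)), h, LinearMap.ker_zero]

theorem Theta_injective {ι : V →ₗ[F] MonoidAlgebra F G}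
    {hι : ∀ g a, ι (σ g a) = MonoidAlgebra.single (φ g) 1 * ι a}
    (hinj : Function.Injective ι) (hsupp : ∀ a x, x ∉ φ.range → (ι a).coeff x = 0) :
    Function.Injective (Theta φ σ ι hι) := by
  rw [injective_iff_map_eq_zero]
  intro w hw
  obtain ⟨f, rfl⟩ := Xi_surjective (φ := φ) (σ := σ) w
  have h1 : Theta φ σ ι hι (Xi φ σ f) =
      f.sum (fun c a => MonoidAlgebra.single c.out 1 * ι a) := by
    rw [Xi, Finsupp.lsum_apply, Finsupp.sum, map_sum, Finsupp.sum]
    apply Finset.sum_congr rfl
    intro c _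
    rw [Theta_mk, inv_inv]
  rw [h1] at hw
  have h2 : f = 0 := by
    ext c
    rw [Finsupp.zero_apply]
    apply hinj
    rw [map_zero]
    apply MonoidAlgebra.coeff_injective
    ext x
    by_cases hx : x ∈ φ.range
    · have h3 := congrArg (fun z => z.coeff (c.out * x)) hw
      simp only [Finsupp.sum, MonoidAlgebra.coeff_sum, Finsupp.finsetSum_apply,
        MonoidAlgebra.coeff_single_mul_apply, one_mul] at h3
      rw [Finset.sum_eq_single c] at h3
      · simpa using h3
      · intro c' _ hcc
        apply hsupp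
        intro hmem
        apply hcc
        have h4 : (c'.out)⁻¹ * c.out ∈ φ.range := by
          have := φ.range.mul_mem hmem (φ.range.inv_mem hx)
          have e : c'.out⁻¹ * (c.out * x) * x⁻¹ = c'.out⁻¹ * c.out := by group
          rwa [e] at this
        rw [← QuotientGroup.eq, QuotientGroup.out_eq', QuotientGroup.out_eq'] at h4
        exact h4
      · intro hc
        rw [Finsupp.notMem_support_iff] at hc
        rw [hc, map_zero]
        simp
    · rw [hsupp _ _ hx]; simp
  rw [h2, map_zero]

end Pool.Agent.Helper89.Foulkes
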