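import Pool.Agent.Helper89.Foulkes.Perms
import Pool.Agent.Helper89.Foulkes.Induce

/-!
From the induced module to the group algebra.
-/

set_option autoImplicit false
set_option linter.unusedSectionVars false

namespace Pool.Agent.Helper89.Foulkes

open Representation Equiv Pool.Agent.Helper89.TwistedFoulkes

variable {F : Type*} [Field F] {m k : ℕ}

/-- The permutation representation on the cosets. -/
noncomputable def foulkesRep (F : Type*) [Field F] (m : ℕ) :
    Representation F (Perm (Fin m × Fin 2))
      (MonoidAlgebra F (Perm (Fin m × Fin 2) ⧸ wreath m)) :=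
  Representation.ofMulAction F (Perm (Fin m × Fin 2)) (Perm (Fin m × Fin 2) ⧸ wreath m)

/-- The involution. -/
abbrev sk (m k : ℕ) : Perm ((Fin m × Fin 2) ⊕ Fin k) := sOf (pair m) (Fin k)

theorem sk_sk : sk m k * sk m k = 1 := by
  ext p
  rcases p with x | y
  · have h := congrArg (fun g => g x) (pair_pair (m := m))
    simp only [Perm.mul_apply, Perm.one_apply] at h ⊢
    rw [sOf_inl, sOf_inl, h]
  · simp [Perm.mul_apply]

theorem sumCongr_comm {g : Perm (Fin m × Fin 2)} (hg : g ∈ wreath m) (π : Perm (Fin k)) :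
    Perm.sumCongr g π * sk m k = sk m k * Perm.sumCongr g π :=
  (centr_iff pair_ne _).2 ⟨g, π, (mem_wreath_iff g).1 hg, rfl⟩

theorem Pf_mem {g : Perm (Fin m × Fin 2)} (hg : g ∈ wreath m) (π : Perm (Fin k)) :
    Pf (sk m k) F (Perm.sumCongr g π) = sg F (Perm.sign π) := by
  unfold Pf
  rw [if_pos (sumCongr_comm hg π), eps_sumCongr pair_ne ((mem_wreath_iff g).1 hg)]

theorem Pf_notMem {g : Perm (Fin m × Fin 2)} (hg : g ∉ wreath m) (π : Perm (Fin k)) :
    Pf (sk m k) F (Perm.sumCongr g π) = 0 := by
  unfold Pf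
  rw [if_neg]
  intro h
  obtain ⟨w, π', hw, h2⟩ := (centr_iff pair_ne _).1 h
  apply hg
  have : g = w := by
    apply Equiv.ext
    intro x
    have := congrArg (fun j => j (Sum.inl x)) h2
    simpa using this
  rw [this]
  exact (mem_wreath_iff w).2 hw

theorem sumCongr_mul' (g h : Perm (Fin m × Fin 2)) (π ρ : Perm (Fin k)) :
    Perm.sumCongr (g * h) (π * ρ) = Perm.sumCongr g π * Perm.sumCongr h ρ :=
  (Perm.sumCongr_mul g π h ρ).symm

theorem single_split (g : Perm (Fin m × Fin 2)) (π : Perm (Fin k)) :
    (MonoidAlgebra.single (Perm.sumCongr g π) 1 : MonoidAlgebra F (Perm ((Fin m × Fin 2) ⊕ Fin k)))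
    = MonoidAlgebra.single (Perm.sumCongr g 1) 1 * MonoidAlgebra.single (Perm.sumCongr 1 π) 1 := by
  rw [MonoidAlgebra.single_mul_single, ← sumCongr_mul', mul_one, one_mul, mul_one]

/-- The basic map. -/
noncomputable def iota (F : Type*) [Field F] (m k : ℕ) :
    MonoidAlgebra F (Perm (Fin m × Fin 2) ⧸ wreath m) →ₗ[F]
      MonoidAlgebra F (Perm ((Fin m × Fin 2) ⊕ Fin k)) :=
  (Finsupp.linearCombination F (fun c : Perm (Fin m × Fin 2) ⧸ wreath m =>
    MonoidAlgebra.single (Perm.sumCongr c.out 1) 1 * Pel (sk m k) F)) ∘ₗ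
    (MonoidAlgebra.coeffLinearEquiv F).toLinearMap

theorem iota_single (c : Perm (Fin m × Fin 2) ⧸ wreath m) (r : F) :
    iota F m k (MonoidAlgebra.single c r) =
      r • (MonoidAlgebra.single (Perm.sumCongr c.out 1) 1 * Pel (sk m k) F) := by
  simp [iota]

theorem iota_mk (g : Perm (Fin m × Fin 2)) (r : F) :
    iota F m k (MonoidAlgebra.single (QuotientGroup.mk g) r) =
      r • (MonoidAlgebra.single (Perm.sumCongr g 1) 1 * Pel (sk m k) F) := by
  rw [iota_single]
  obtain ⟨w, hw⟩ := QuotientGroup.mk_out_eq_mul (wreath m) g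
  rw [hw]
  have h1 : Perm.sumCongr (g * w.1) (1 : Perm (Fin k)) =
      Perm.sumCongr g 1 * Perm.sumCongr w.1 1 := by
    rw [← sumCongr_mul', mul_one]
  have h2 : (MonoidAlgebra.single (Perm.sumCongr (g * w.1) 1) 1 :
      MonoidAlgebra F (Perm ((Fin m × Fin 2) ⊕ Fin k))) =
      MonoidAlgebra.single (Perm.sumCongr g 1) 1 * MonoidAlgebra.single (Perm.sumCongr w.1 1) 1 := by
    rw [h1, MonoidAlgebra.single_mul_single, mul_one]
  rw [h2, mul_assoc, single_mul_Pel (sumCongr_comm w.2 1),
    eps_sumCongr pair_ne ((mem_wreath_iff _).1 w.2), Perm.sign_one, sg_one, one_smul]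

theorem iota_act (x : MonoidAlgebra F (Perm (Fin m × Fin 2)))
    (a : MonoidAlgebra F (Perm (Fin m × Fin 2) ⧸ wreath m)) :
    iota F m k ((foulkesRep F m).asAlgebraHom x a) = incl F _ _ x * iota F m k a := by
  induction x using MonoidAlgebra.induction_linear with
  | zero => simp
  | add x y hx hy => rw [map_add, LinearMap.add_apply, map_add, hx, hy, map_add, add_mul]
  | single g r =>
      induction a using MonoidAlgebra.induction_linear with
      | zero => simp
      | add a b ha hb => rw [map_add, map_add, ha, hb, map_add, mul_add]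
      | single c q =>
          obtain ⟨h, rfl⟩ := QuotientGroup.mk_surjective c
          rw [asAlgebraHom_single, LinearMap.smul_apply, foulkesRep, ofMulAction_single, map_smul]
          have h1 : (g • (QuotientGroup.mk h : Perm (Fin m × Fin 2) ⧸ wreath m)) =
              QuotientGroup.mk (g * h) := rfl
          rw [h1, iota_mk, iota_mk, incl_single, mul_smul_comm, smul_comm, ← mul_assoc,
            MonoidAlgebra.single_mul_single, mul_one]
          congr 1
          rw [← sumCongr_mul', mul_one, ← smul_mul_assoc, MonoidAlgebra.smul_single', mul_one]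

theorem iota_sign (π : Perm (Fin k)) (a : MonoidAlgebra F (Perm (Fin m × Fin 2) ⧸ wreath m)) :
    MonoidAlgebra.single (Perm.sumCongr 1 π) 1 * iota F m k a =
      sg F (Perm.sign π) • iota F m k a := by
  induction a using MonoidAlgebra.induction_linear with
  | zero => simp
  | add a b ha hb => rw [map_add, mul_add, ha, hb, smul_add]
  | single c q =>
      rw [iota_single, mul_smul_comm, smul_comm]
      congr 1
      rw [← mul_assoc]
      have h1 : (MonoidAlgebra.single (Perm.sumCongr 1 π) 1 :
          MonoidAlgebra F (Perm ((Fin m × Fin 2) ⊕ Fin k))) *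
          MonoidAlgebra.single (Perm.sumCongr c.out 1) 1 =
          MonoidAlgebra.single (Perm.sumCongr c.out 1) 1 *
          MonoidAlgebra.single (Perm.sumCongr 1 π) 1 := by
        rw [MonoidAlgebra.single_mul_single, MonoidAlgebra.single_mul_single, ← sumCongr_mul',
          ← sumCongr_mul']
        simp
      rw [h1, mul_assoc, single_mul_Pel (sumCongr_comm (wreath m).one_mem π),
        eps_sumCongr pair_ne (by simp), mul_smul_comm]

theorem iota_coeff (a : MonoidAlgebra F (Perm (Fin m × Fin 2) ⧸ wreath m))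
    (g : Perm (Fin m × Fin 2)) :
    (iota F m k a).coeff (Perm.sumCongr g 1) = a.coeff (QuotientGroup.mk g) := by
  induction a using MonoidAlgebra.induction_linear with
  | zero => simp
  | add a b ha hb =>
      rw [map_add, MonoidAlgebra.coeff_add, Finsupp.add_apply, ha, hb, MonoidAlgebra.coeff_add,
        Finsupp.add_apply]
  | single c q =>
      obtain ⟨h, rfl⟩ := QuotientGroup.mk_surjective c
      rw [iota_mk, MonoidAlgebra.coeff_smul_apply, MonoidAlgebra.coeff_single_mul_apply, coeff_Pel,
        one_mul, smul_eq_mul]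
      have h1 : (Perm.sumCongr h (1 : Perm (Fin k)))⁻¹ * Perm.sumCongr g 1 =
          Perm.sumCongr (h⁻¹ * g) 1 := by
        rw [inv_mul_eq_iff_eq_mul, ← sumCongr_mul', mul_inv_cancel_left, mul_one]
      rw [h1, MonoidAlgebra.coeff_single]
      by_cases hgh : h⁻¹ * g ∈ wreath m
      · rw [Pf_mem hgh, Perm.sign_one, sg_one, mul_one, (QuotientGroup.eq).2 hgh,
          Finsupp.single_eq_same]
      · rw [Pf_notMem hgh, mul_zero, Finsupp.single_eq_of_ne]
        intro h2
        exact hgh ((QuotientGroup.eq).1 h2.symm)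

theorem iota_injective : Function.Injective (iota F m k) := by
  intro a b hab
  apply MonoidAlgebra.coeff_injective
  ext c
  obtain ⟨g, rfl⟩ := QuotientGroup.mk_surjective c
  rw [← iota_coeff (k := k), ← iota_coeff (k := k), hab]

theorem iota_supp (a : MonoidAlgebra F (Perm (Fin m × Fin 2) ⧸ wreath m))
    (x : Perm ((Fin m × Fin 2) ⊕ Fin k))
    (hx : x ∉ (Perm.sumCongrHom (Fin m × Fin 2) (Fin k)).range) :
    (iota F m k a).coeff x = 0 := by
  induction a using MonoidAlgebra.induction_linear with
  | zero => simp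
  | add a b ha hb => rw [map_add, MonoidAlgebra.coeff_add, Finsupp.add_apply, ha, hb, add_zero]
  | single c q =>
      rw [iota_single, MonoidAlgebra.coeff_smul_apply, MonoidAlgebra.coeff_single_mul_apply,
        coeff_Pel, one_mul, smul_eq_mul]
      have : Pf (sk m k) F ((Perm.sumCongr c.out 1)⁻¹ * x) = 0 := by
        unfold Pf
        rw [if_neg]
        intro h
        apply hx
        obtain ⟨w, π, -, h2⟩ := (centr_iff pair_ne _).1 h
        refine ⟨(c.out * w, π), ?_⟩
        rw [inv_mul_eq_iff_eq_mul] at h2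
        rw [h2, ← sumCongr_mul', one_mul]
        rfl
      rw [this, mul_zero]

end Pool.Agent.Helper89.Foulkes
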