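import Pool.Agent.Helper89.Foulkes.Count

/-!
Good pairs with the same cycle types are conjugate by a permutation commuting with `s`.
-/

set_option autoImplicit false
set_option linter.unusedSectionVars false

namespace Pool.Agent.Helper89.Foulkes

open Equiv Equiv.Perm

variable {Ω : Type*} [Fintype Ω] [DecidableEq Ω] {s : Perm Ω}

theorem ofSubtype_eq_part (x : Perm Ω) (Q : Ω → Prop) [DecidablePred Q] (hQ : ∀ p, Q (x p) ↔ Q p) :
    ofSubtype (x.subtypePerm hQ) = part x Q hQ := by
  ext p
  by_cases h : Q p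
  · rw [ofSubtype_apply_of_mem _ h, part_apply, if_pos h]; rfl
  · rw [ofSubtype_apply_of_not_mem _ h, part_apply, if_neg h]

theorem extend_commuting (hs : s * s = 1) (PA : Ω → Prop)
    (hA : ∀ p, PA (s p) ↔ PA p) (f : Ω → Ω)
    (hf : ∀ p, PA p → f (s p) = s (f p))
    (hinj : ∀ p q, PA p → PA q → f p = f q → p = q) :
    ∃ j : Perm Ω, j * s = s * j ∧ ∀ p, PA p → j p = f p := by
  classical
  let F : {p // PA p} → Ω := fun p => f p.1
  have hF : Function.Injective F := fun p q h => Subtype.ext (hinj _ _ p.2 q.2 h)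
  let e : {p // PA p} ≃ {p // p ∈ Set.range F} := Equiv.ofInjective F hF
  set τ : Perm Ω := e.extendSubtype with hτ
  have hτA : ∀ p (h : PA p), τ p = f p := by
    intro p h
    rw [hτ, Equiv.extendSubtype_apply_of_mem e p h]
    rfl
  set s1 : Perm Ω := τ⁻¹ * s * τ with hs1
  have hs1s : s1 * s1 = 1 := by
    rw [hs1]
    have : τ⁻¹ * s * τ * (τ⁻¹ * s * τ) = τ⁻¹ * (s * s) * τ := by group
    rw [this, hs]; group
  have hagree : ∀ p, PA p → s1 p = s p := by
    intro p h
    rw [hs1, Perm.mul_apply, Perm.mul_apply, hτA p h, ← hf p h, ← hτA (s p) ((hA p).2 h)]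
    simp
  have hP1 : ∀ p, PA (s1 p) ↔ PA p := by
    have h1 : ∀ p, PA p → PA (s1 p) := by
      intro p h; rw [hagree p h]; exact (hA p).2 h
    intro p
    refine ⟨fun h => ?_, h1 p⟩
    have := h1 _ h
    rwa [ss hs1s] at this
  have hA' : ∀ p, ¬ PA (s p) ↔ ¬ PA p := fun p => not_congr (hA p)
  have hP1' : ∀ p, ¬ PA (s1 p) ↔ ¬ PA p := fun p => not_congr (hP1 p)
  have e1 := part_mul s PA hA hA'
  have e2 := part_mul s1 PA hP1 hP1'
  have e3 : part s PA hA = part s1 PA hP1 := by
    ext p
    rw [part_apply, part_apply]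
    by_cases h : PA p
    · rw [if_pos h, if_pos h, hagree p h]
    · rw [if_neg h, if_neg h]
  have c1 : s1.cycleType = s.cycleType := by
    have : s1 = τ⁻¹ * s * τ⁻¹⁻¹ := by rw [inv_inv]
    rw [this, cycleType_conj]
  have c2 : (part s (fun p => ¬ PA p) hA').cycleType = (part s1 (fun p => ¬ PA p) hP1').cycleType := by
    have h1 := (part_disjoint s PA hA hA').cycleType_mul
    have h2 := (part_disjoint s1 PA hP1 hP1').cycleType_mul
    rw [e1] at h1
    rw [e2, c1, h1, e3] at h2
    exact add_left_cancel h2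
  rw [← ofSubtype_eq_part, ← ofSubtype_eq_part, cycleType_ofSubtype, cycleType_ofSubtype] at c2
  obtain ⟨κ, hκ⟩ := isConj_iff.1 (isConj_iff_cycleType_eq.2 c2)
  refine ⟨τ * ofSubtype κ, ?_, ?_⟩
  · have hcomm : ofSubtype κ * s = s1 * ofSubtype κ := by
      ext p
      rw [Perm.mul_apply, Perm.mul_apply]
      by_cases h : PA p
      · rw [ofSubtype_apply_of_not_mem κ (not_not.2 h),
          ofSubtype_apply_of_not_mem κ (not_not.2 ((hA p).2 h)), hagree p h]
      · rw [ofSubtype_apply_of_mem κ h, ofSubtype_apply_of_mem κ ((hA' p).2 h)]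
        have h3 : κ * s.subtypePerm hA' = s1.subtypePerm hP1' * κ := by
          rw [← hκ]; group
        have h4 := congrArg (fun g : Perm {p // ¬ PA p} => (g ⟨p, h⟩ : Ω)) h3
        simpa [Perm.mul_apply, subtypePerm_apply] using h4
    rw [mul_assoc, hcomm, hs1]
    group
  · intro p h
    rw [Perm.mul_apply, ofSubtype_apply_of_not_mem κ (not_not.2 h), hτA p h]

/-- Conjugating permutation respecting the `s`-fixed points. -/
theorem exists_conj_fix {x x' z z' : Perm Ω} (h : Good s x x') (hz : Good s z z')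
    (hct : x.cycleType = z.cycleType) :
    ∃ τ : Perm Ω, τ * x * τ⁻¹ = z ∧ ∀ a, s a = a → x a ≠ a → s (τ a) = τ a := by
  classical
  obtain ⟨τ, hτ⟩ := isConj_iff.1 (isConj_iff_cycleType_eq.2 hct)
  have hτx : ∀ p, τ (x p) = z (τ p) := by
    intro p; rw [← hτ]; simp [Perm.mul_apply]
  have hτn : ∀ (n : ℤ) p, τ ((x ^ n) p) = (z ^ n) (τ p) := by
    intro n p
    have : z ^ n = τ * x ^ n * τ⁻¹ := by rw [← hτ, conj_zpow]
    rw [this]; simp [Perm.mul_apply]
  -- choose the exponents
  have hch : ∀ C : Perm Ω, ∃ i : ℤ, ∀ a, s a = a → x a ≠ a → z.cycleOf (τ a) = C →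
      s ((z ^ i) (τ a)) = (z ^ i) (τ a) := by
    intro C
    by_cases hC : ∃ a, s a = a ∧ x a ≠ a ∧ z.cycleOf (τ a) = C
    · obtain ⟨a, ha, hxa, haC⟩ := hC
      have hza : z (τ a) ≠ τ a := by
        rw [← hτx]; exact fun h' => hxa (τ.injective h')
      obtain ⟨b, hb, i, hi⟩ := hz.ex (τ a) hza
      refine ⟨i, fun a1 ha1 hxa1 ha1C => ?_⟩
      have hza1 : z (τ a1) ≠ τ a1 := by
        rw [← hτx]; exact fun h' => hxa1 (τ.injective h')
      have hsc : z.SameCycle (τ a) (τ a1) := by
        rw [sameCycle_iff_cycleOf_eq_of_mem_support (mem_support.2 hza) (mem_support.2 hza1),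
          haC, ha1C]
      have hsc2 : x.SameCycle a a1 := by
        obtain ⟨n, hn⟩ := hsc
        refine ⟨n, τ.injective ?_⟩
        rw [hτn, hn]
      have := h.uniq a a1 ha ha1 hsc2
      subst this
      rw [hi, hb]
    · refine ⟨0, fun a1 ha1 hxa1 ha1C => ?_⟩
      exact absurd ⟨a1, ha1, hxa1, ha1C⟩ hC
  choose i hi using hch
  have hcyc : ∀ (n : ℤ) p, z.cycleOf ((z ^ n) p) = z.cycleOf p := by
    intro n p
    exact (sameCycle_zpow_left.2 (SameCycle.refl z p)).cycleOf_eq
  let w : Perm Ω :=
    { toFun := fun p => (z ^ (i (z.cycleOf p))) p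
      invFun := fun p => (z ^ (-(i (z.cycleOf p)))) p
      left_inv := by
        intro p
        simp only [hcyc]
        rw [← Perm.mul_apply, ← zpow_add]; simp
      right_inv := by
        intro p
        simp only [hcyc]
        rw [← Perm.mul_apply, ← zpow_add]; simp }
  have hw : ∀ p, w p = (z ^ (i (z.cycleOf p))) p := fun p => rfl
  have hwz : w * z = z * w := by
    ext p
    rw [Perm.mul_apply, Perm.mul_apply, hw, hw]
    have h1 : z.cycleOf (z p) = z.cycleOf p := by
      have := hcyc 1 p
      simpa using this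
    rw [h1, ← Perm.mul_apply, ← Perm.mul_apply]
    congr 1
    exact ((Commute.refl z).zpow_left _).eq
  refine ⟨w * τ, ?_, ?_⟩
  · have : w * τ * x * (w * τ)⁻¹ = w * (τ * x * τ⁻¹) * w⁻¹ := by group
    rw [this, hτ, hwz]; group
  · intro a ha hxa
    rw [Perm.mul_apply, hw]
    exact hi _ a ha hxa rfl

theorem good_conj (hs : s * s = 1) {x x' z z' : Perm Ω} (h : Good s x x') (hz : Good s z z')
    (h1 : x.cycleType = z.cycleType) (h2 : x'.cycleType = z'.cycleType) :
    ∃ j : Perm Ω, j * s = s * j ∧ j * (x * x') * j⁻¹ = z * z' := by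
  classical
  obtain ⟨τ, hτ, hτfix⟩ := exists_conj_fix h hz h1
  obtain ⟨τ', hτ'⟩ := isConj_iff.1 (isConj_iff_cycleType_eq.2 h2)
  have hτx : ∀ p, τ (x p) = z (τ p) := by
    intro p; rw [← hτ]; simp [Perm.mul_apply]
  have hτx' : ∀ p, τ' (x' p) = z' (τ' p) := by
    intro p; rw [← hτ']; simp [Perm.mul_apply]
  have hτn : ∀ (n : ℤ) p, τ ((x ^ n) p) = (z ^ n) (τ p) := by
    intro n p
    have : z ^ n = τ * x ^ n * τ⁻¹ := by rw [← hτ, conj_zpow]
    rw [this]; simp [Perm.mul_apply]
  have hτm : ∀ p, x p ≠ p ↔ z (τ p) ≠ τ p := by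
    intro p; rw [← hτx]; exact not_congr τ.injective.eq_iff.symm
  have hτm' : ∀ p, x' p ≠ p ↔ z' (τ' p) ≠ τ' p := by
    intro p; rw [← hτx']; exact not_congr τ'.injective.eq_iff.symm
  -- moved points of the product
  have hmov : ∀ {x x' : Perm Ω}, Disjoint x x' → ∀ p, (x * x') p ≠ p ↔ (x p ≠ p ∨ x' p ≠ p) := by
    intro x x' hd p
    constructor
    · intro h3
      by_contra h4
      push Not at h4
      exact h3 (by rw [Perm.mul_apply, h4.2, h4.1])
    · intro h3 h4
      have h5 := disj_fix_mul hd h4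
      rcases h3 with h3 | h3
      · exact h3 h5.1
      · exact h3 h5.2
  have hmx := hmov h.disj
  have hmz := hmov hz.disj
  let f : Ω → Ω := fun p => if x p ≠ p then τ p else τ' p
  have hf1 : ∀ p, x p ≠ p → f p = τ p := fun p hp => if_pos hp
  have hf2 : ∀ p, x' p ≠ p → f p = τ' p := by
    intro p hp
    have : x p = p := (h.disj p).resolve_right hp
    exact if_neg (not_not.2 this)
  have hfm : ∀ p, (x * x') p ≠ p → (z * z') (f p) ≠ f p := by
    intro p hp
    rw [hmz]
    rcases (hmx p).1 hp with h3 | h3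
    · left; rw [hf1 p h3]; exact (hτm p).1 h3
    · right; rw [hf2 p h3]; exact (hτm' p).1 h3
  have hffix : ∀ p, (x * x') p ≠ p → s p = p → s (f p) = f p := by
    intro p hp hsp
    have h3 : x p ≠ p := by
      rcases (hmx p).1 hp with h3 | h3
      · exact h3
      · exact absurd (h.fix' p hsp) h3
    rw [hf1 p h3]
    exact hτfix p hsp h3
  have hffix' : ∀ p, (x * x') p ≠ p → s (f p) = f p → s p = p := by
    intro p hp hsp
    rcases (hmx p).1 hp with h3 | h3
    · rw [hf1 p h3] at hsp
      obtain ⟨a, ha, n, hn⟩ := h.ex p h3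
      have hxa : x a ≠ a := by
        intro h'
        have : x.SameCycle p a := ⟨n, hn⟩
        exact h3 (this.apply_eq_self_iff.2 h')
      have h4 := hτfix a ha hxa
      have h5 : z.SameCycle (τ p) (τ a) := ⟨n, by rw [← hτn, hn]⟩
      have h6 := hz.uniq _ _ hsp h4 h5
      rw [τ.injective h6]; exact ha
    · rw [hf2 p h3] at hsp
      exact absurd (hz.fix' _ hsp) ((hτm' p).1 h3)
  have hfinj : ∀ p q, (x * x') p ≠ p → (x * x') q ≠ q → f p = f q → p = q := by
    intro p q hp hq hpq
    rcases (hmx p).1 hp with h3 | h3 <;> rcases (hmx q).1 hq with h4 | h4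
    · rw [hf1 p h3, hf1 q h4] at hpq; exact τ.injective hpq
    · rw [hf1 p h3, hf2 q h4] at hpq
      have h5 := (hτm p).1 h3
      have h6 := (hτm' q).1 h4
      rw [hpq] at h5
      rcases hz.disj (τ' q) with h7 | h7
      · exact absurd h7 h5
      · exact absurd h7 h6
    · rw [hf2 p h3, hf1 q h4] at hpq
      have h5 := (hτm' p).1 h3
      have h6 := (hτm q).1 h4
      rw [hpq] at h5
      rcases hz.disj (τ q) with h7 | h7
      · exact absurd h7 h6
      · exact absurd h7 h5
    · rw [hf2 p h3, hf2 q h4] at hpq; exact τ'.injective hpq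
  let PA : Ω → Prop := fun p => (x * x') p ≠ p ∨ (x * x') (s p) ≠ s p
  let e : Ω → Ω := fun p => if (x * x') p ≠ p then f p else s (f (s p))
  have he1 : ∀ p, (x * x') p ≠ p → e p = f p := fun p hp => if_pos hp
  have he2 : ∀ p, (x * x') p = p → e p = s (f (s p)) := fun p hp => if_neg (not_not.2 hp)
  obtain ⟨j, hj1, hj2⟩ := extend_commuting hs PA (by
      intro p
      simp only [PA, ss hs]
      exact or_comm) e (by
      intro p hp
      by_cases h3 : (x * x') p = p
      · have h4 : (x * x') (s p) ≠ s p := by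
          rcases hp with h5 | h5
          · exact absurd h3 h5
          · exact h5
        rw [he2 p h3, he1 _ h4, ss hs]
      · by_cases h4 : s p = p
        · rw [h4, he1 p h3, hffix p h3 h4]
        · have h5 := h.trans p h4 h3
          rw [he2 _ h5, ss hs, he1 p h3]) (by
      intro p q hp hq hpq
      have mixed : ∀ p q, (x * x') p ≠ p → (x * x') q = q → PA q → e p = e q → False := by
        intro p q hp hq hPq hpq
        have h4 : (x * x') (s q) ≠ s q := by
          rcases hPq with h5 | h5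
          · exact absurd hq h5
          · exact h5
        rw [he1 p hp, he2 q hq] at hpq
        by_cases h5 : s (f (s q)) = f (s q)
        · rw [h5] at hpq
          have h6 := hffix' _ h4 h5
          rw [ss hs] at h6
          rw [← h6] at h4
          exact h4 hq
        · have h6 := hz.trans _ h5 (hfm _ h4)
          rw [← hpq] at h6
          exact hfm p hp h6
      by_cases h3 : (x * x') p = p <;> by_cases h4 : (x * x') q = q
      · have h5 : (x * x') (s p) ≠ s p := by
          rcases hp with h5 | h5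
          · exact absurd h3 h5
          · exact h5
        have h6 : (x * x') (s q) ≠ s q := by
          rcases hq with h5 | h5
          · exact absurd h4 h5
          · exact h5
        rw [he2 p h3, he2 q h4] at hpq
        exact s.injective (hfinj _ _ h5 h6 (s.injective hpq))
      · exact absurd hpq.symm (fun h' => mixed q p h4 h3 hp h')
      · exact absurd hpq (fun h' => mixed p q h3 h4 hq h')
      · rw [he1 p h3, he1 q h4] at hpq
        exact hfinj _ _ h3 h4 hpq)
  refine ⟨j, hj1, ?_⟩
  have hjf : ∀ p, (x * x') p ≠ p → j p = f p := by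
    intro p hp; rw [hj2 p (Or.inl hp), he1 p hp]
  have key : ∀ p, j ((x * x') p) = (z * z') (j p) := by
    intro p
    by_cases hp : (x * x') p = p
    · rw [hp]
      by_contra h3
      have h3' : (z * z') (j p) ≠ j p := fun h' => h3 h'.symm
      rcases (hmz _).1 h3' with h4 | h4
      · -- `j p = τ q`
        have h5 : x (τ⁻¹ (j p)) ≠ τ⁻¹ (j p) := by
          rw [hτm]; simpa using h4
        have h6 := hjf _ ((hmx _).2 (Or.inl h5))
        rw [hf1 _ h5] at h6
        have h7 : j (τ⁻¹ (j p)) = j p := by rw [h6]; simp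
        have h8 := j.injective h7
        rw [h8] at h5
        exact (hmx p).2 (Or.inl h5) hp
      · have h5 : x' (τ'⁻¹ (j p)) ≠ τ'⁻¹ (j p) := by
          rw [hτm']; simpa using h4
        have h6 := hjf _ ((hmx _).2 (Or.inr h5))
        rw [hf2 _ h5] at h6
        have h7 : j (τ'⁻¹ (j p)) = j p := by rw [h6]; simp
        have h8 := j.injective h7
        rw [h8] at h5
        exact (hmx p).2 (Or.inr h5) hp
    · rw [hjf p hp]
      have hp2 : (x * x') ((x * x') p) ≠ (x * x') p := fun h' => hp ((x * x').injective h')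
      rw [hjf _ hp2]
      rcases (hmx p).1 hp with h3 | h3
      · have h4 : x' p = p := (h.disj p).resolve_left h3
        have h5 : (x * x') p = x p := by rw [Perm.mul_apply, h4]
        have h6 : x (x p) ≠ x p := fun h' => h3 (x.injective h')
        rw [h5, hf1 _ h6, hf1 p h3, hτx, Perm.mul_apply]
        have h7 : z' (τ p) = τ p := (hz.disj _).resolve_left ((hτm p).1 h3)
        rw [h7]
      · have h4 : x (x' p) = x' p := by
          rcases h.disj (x' p) with h5 | h5
          · exact h5
          · exact absurd (x'.injective h5) h3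
        have h5 : (x * x') p = x' p := by rw [Perm.mul_apply, h4]
        have h6 : x' (x' p) ≠ x' p := fun h' => h3 (x'.injective h')
        rw [h5, hf2 _ h6, hf2 p h3, hτx', Perm.mul_apply]
        have h7 : z' (z' (τ' p)) ≠ z' (τ' p) := fun h' => (hτm' p).1 h3 (z'.injective h')
        exact ((hz.disj _).resolve_right h7).symm
  ext p
  have := key (j⁻¹ p)
  simp only [Perm.mul_apply] at this ⊢
  rw [this]
  simp

end Pool.Agent.Helper89.Foulkes
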