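import Mathlib

/-!
Locality of blocks: elements of a commutative algebra generated by elements that are
scalar plus nilpotent.
-/

set_option autoImplicit false
set_option linter.unusedSectionVars false

namespace Pool.Agent.Helper89.Foulkes

open Polynomial

theorem prod_all (p : ℕ) [Fact p.Prime] (F : Type*) [Field F] [CharP F p] :
    ∏ a : ZMod p, (X - C (ZMod.castHom (dvd_refl p) F a)) = (X ^ p - X : F[X]) := by
  have hp : 1 < p := (Fact.out : p.Prime).one_lt
  have h1 : ∏ a : ZMod p, (X - C a) = (X ^ p - X : (ZMod p)[X]) := by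
    have hm : (X ^ p - X : (ZMod p)[X]).Monic := by
      apply monic_X_pow_sub
      rw [degree_X]
      exact_mod_cast hp
    have hr : (X ^ p - X : (ZMod p)[X]).roots = Finset.univ.val := by
      have := FiniteField.roots_X_pow_card_sub_X (ZMod p)
      rwa [ZMod.card] at this
    have hd : (X ^ p - X : (ZMod p)[X]).natDegree = p :=
      FiniteField.X_pow_card_sub_X_natDegree_eq _ hp
    have := prod_multiset_X_sub_C_of_monic_of_roots_card_eq hm (by
      rw [hr, hd]; simp [ZMod.card])
    rw [hr] at this
    exact this
  have h2 := congrArg (Polynomial.map (ZMod.castHom (dvd_refl p) F)) h1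
  rw [Polynomial.map_prod] at h2
  simpa using h2

section Scalar

variable {F A : Type*} [Field F] [Ring A] [Algebra F A]

/-- On a primitive central idempotent, an element `z` with `z ^ p - z` nilpotent is a scalar
plus a nilpotent element. -/
theorem exists_scalar (p : ℕ) [Fact p.Prime] [CharP F p] {B z : A}
    (hBc : ∀ x, B * x = x * B) (hBB : B * B = B) (hB0 : B ≠ 0)
    (hprim : ∀ f : A, (∀ x, f * x = x * f) → f * f = f → f * B = f → f = 0 ∨ f = B)
    (hz : ∀ x, z * x = x * z) (hn : IsNilpotent (z ^ p - z)) :
    ∃ c : F, IsNilpotent (B * (z - algebraMap F A c)) := by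
  classical
  have hp : p.Prime := Fact.out
  have : Nontrivial A := ⟨B, 0, hB0⟩
  have : CharP A p := charP_of_injective_algebraMap (algebraMap F A).injective p
  obtain ⟨n, hn⟩ := hn
  obtain ⟨N, hN⟩ : ∃ N, n ≤ p ^ N := ⟨n, (Nat.lt_pow_self hp.one_lt).le⟩
  have h1 : (z ^ p - z) ^ (p ^ N) = 0 := pow_eq_zero_of_le hN hn
  set y := z ^ (p ^ N) with hy
  have hyp : y ^ p = y := by
    rw [sub_pow_char_pow_of_commute _ _ ((Commute.refl z).pow_left p), sub_eq_zero] at h1
    rw [hy, ← pow_mul, mul_comm, pow_mul, h1]
  have hyc : ∀ x, y * x = x * y := by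
    intro x
    exact ((show Commute z x from hz x).pow_left (p ^ N)).eq
  -- the key claim
  have key : ∃ c : ZMod p, B * (y - algebraMap F A (ZMod.castHom (dvd_refl p) F c)) = 0 := by
    by_contra hcon
    push Not at hcon
    -- for every scalar the power acts as the identity
    have h2 : ∀ c : ZMod p,
        B * (y - algebraMap F A (ZMod.castHom (dvd_refl p) F c)) ^ (p - 1) = B := by
      intro c
      set a := ZMod.castHom (dvd_refl p) F c with ha
      have hap : a ^ p = a := by rw [ha, ← map_pow, ZMod.pow_card]
      set w := y - algebraMap F A a with hw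
      have hwp : w ^ p = w := by
        rw [hw, sub_pow_char_of_commute _ (hyc _), hyp, ← map_pow, hap]
      have hwc : ∀ x, w * x = x * w := by
        intro x
        rw [hw, sub_mul, mul_sub, hyc, Algebra.commutes]
      have hp1 : w ^ (p - 1) * w = w := by
        rw [← pow_succ, Nat.sub_add_cancel hp.one_lt.le, hwp]
      have hpp : w ^ (p - 1) * w ^ (p - 1) = w ^ (p - 1) := by
        have : w ^ (p - 1) = w ^ (p - 2) * w := by
          rw [← pow_succ]; congr 1; have := hp.two_le; omega
        calc w ^ (p - 1) * w ^ (p - 1) = w ^ (p - 1) * (w ^ (p - 2) * w) := by rw [← this]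
          _ = w ^ (p - 2) * (w ^ (p - 1) * w) := by
              rw [← mul_assoc, ← mul_assoc, ← pow_add, ← pow_add, add_comm]
          _ = w ^ (p - 2) * w := by rw [hp1]
          _ = w ^ (p - 1) := this.symm
      set e := B - B * w ^ (p - 1) with he
      have hwpc : ∀ x, w ^ (p - 1) * x = x * w ^ (p - 1) := fun x =>
        ((show Commute w x from hwc x).pow_left (p - 1)).eq
      have e1 : ∀ x, e * x = x * e := by
        intro x
        rw [he, sub_mul, mul_sub, hBc, mul_assoc, hwpc, ← mul_assoc, hBc, mul_assoc]
      have e3 : e * B = e := by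
        rw [he, sub_mul, hBB, mul_assoc, hwpc, ← mul_assoc, hBB]
      have e2 : e * e = e := by
        have : e * w ^ (p - 1) = 0 := by
          rw [he, sub_mul, mul_assoc, hpp, sub_self]
        calc e * e = e * B - e * (B * w ^ (p - 1)) := by rw [← mul_sub, ← he]
          _ = e - (e * B) * w ^ (p - 1) := by rw [e3, ← mul_assoc, e3]
          _ = e := by rw [e3, this, sub_zero]
      rcases hprim e e1 e2 e3 with h | h
      · exact (sub_eq_zero.1 h).symm
      · exfalso
        have h3 : B * w ^ (p - 1) = 0 := by
          have : B - B * w ^ (p - 1) = B - 0 := by rw [← he, h, sub_zero]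
          exact sub_right_injective this
        apply hcon c
        rw [← ha, ← hw, ← hp1, ← mul_assoc, h3, zero_mul]
    have h3 : ∀ T : Finset (ZMod p), ∃ u : A,
        u * (aeval y (∏ c ∈ T, (X - C (ZMod.castHom (dvd_refl p) F c))) * B) = B := by
      intro T
      induction T using Finset.induction_on with
      | empty => exact ⟨1, by simp⟩
      | insert c T hc ih =>
          obtain ⟨u, hu⟩ := ih
          set w := y - algebraMap F A (ZMod.castHom (dvd_refl p) F c) with hw
          refine ⟨u * w ^ (p - 2), ?_⟩
          rw [Finset.prod_insert hc, map_mul]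
          have e1 : aeval y (X - C (ZMod.castHom (dvd_refl p) F c)) = w := by
            rw [map_sub, aeval_X, aeval_C]
          rw [e1]
          set P := aeval y (∏ c ∈ T, (X - C (ZMod.castHom (dvd_refl p) F c))) with hP
          have hwc : ∀ x, w * x = x * w := by
            intro x
            rw [hw, sub_mul, mul_sub, hyc, Algebra.commutes]
          have hpw : w ^ (p - 2) * w = w ^ (p - 1) := by
            rw [← pow_succ]; congr 1; have := hp.two_le; omega
          have hwpc : ∀ x, w ^ (p - 1) * x = x * w ^ (p - 1) := fun x =>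
            ((show Commute w x from hwc x).pow_left (p - 1)).eq
          calc u * w ^ (p - 2) * (w * P * B) = u * (w ^ (p - 2) * w * (P * B)) := by
                simp only [mul_assoc]
            _ = u * (P * (B * w ^ (p - 1))) := by
                rw [hpw, hwpc, mul_assoc]
            _ = B := by rw [h2 c, hu]
    obtain ⟨u, hu⟩ := h3 Finset.univ
    rw [prod_all p F, map_sub, map_pow, aeval_X, hyp, sub_self, zero_mul, mul_zero] at hu
    exact hB0 hu.symm
  obtain ⟨c, hc⟩ := key
  set a := ZMod.castHom (dvd_refl p) F c with ha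
  have hap : a ^ p = a := by rw [ha, ← map_pow, ZMod.pow_card]
  have hapN : a ^ (p ^ N) = a := by
    clear_value a
    clear hy hyp hyc y h1 hN ha hc
    induction N with
    | zero => simp
    | succ N ih => rw [pow_succ, pow_mul, ih, hap]
  refine ⟨a, p ^ N, ?_⟩
  rw [(show Commute B (z - algebraMap F A a) from hBc _).mul_pow,
    sub_pow_char_pow_of_commute _ _ (hz _), ← map_pow, hapN, ← hy]
  have hBp : B ^ (p ^ N) = B := by
    apply IsIdempotentElem.pow_eq hBB
    exact (pow_pos hp.pos _).ne'
  rw [hBp, hc]

/-- Scalar plus nilpotent is inherited by a generated commutative algebra. -/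
theorem adjoin_local {S : Set A} {e : A} (heS : ∀ x ∈ S, Commute e x)
    (hS : ∀ x ∈ S, ∀ y ∈ S, Commute x y)
    (hloc : ∀ x ∈ S, ∃ c : F, IsNilpotent (e * (x - algebraMap F A c)))
    {x : A} (hx : x ∈ Algebra.adjoin F S) :
    ∃ c : F, IsNilpotent (e * (x - algebraMap F A c)) := by
  have hcom : ∀ x ∈ Algebra.adjoin F S, ∀ y ∈ Algebra.adjoin F S, Commute x y := by
    intro x hx y hy
    apply Algebra.commute_of_mem_adjoin_of_forall_mem_commute hy
    intro b hb
    apply Commute.symm
    exact Algebra.commute_of_mem_adjoin_of_forall_mem_commute hx (fun a ha => hS b hb a ha)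
  have hec : ∀ x ∈ Algebra.adjoin F S, Commute e x := fun x hx =>
    Algebra.commute_of_mem_adjoin_of_forall_mem_commute hx heS
  induction hx using Algebra.adjoin_induction with
  | mem x hx => exact hloc x hx
  | algebraMap r => exact ⟨r, by simp⟩
  | add x y hx hy ihx ihy =>
      obtain ⟨c, hc⟩ := ihx
      obtain ⟨d, hd⟩ := ihy
      refine ⟨c + d, ?_⟩
      have e1 : e * (x + y - algebraMap F A (c + d)) =
          e * (x - algebraMap F A c) + e * (y - algebraMap F A d) := by
        rw [map_add, ← mul_add]; congr 1; abel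
      rw [e1]
      apply Commute.isNilpotent_add _ hc hd
      have hxc : x - algebraMap F A c ∈ Algebra.adjoin F S :=
        Subalgebra.sub_mem _ hx (Subalgebra.algebraMap_mem _ _)
      have hyd : y - algebraMap F A d ∈ Algebra.adjoin F S :=
        Subalgebra.sub_mem _ hy (Subalgebra.algebraMap_mem _ _)
      exact (((Commute.refl e).mul_right (hec _ hyd)).mul_left
        ((hec _ hxc).symm.mul_right (hcom _ hxc _ hyd)))
  | mul x y hx hy ihx ihy =>
      obtain ⟨c, hc⟩ := ihx
      obtain ⟨d, hd⟩ := ihy
      refine ⟨c * d, ?_⟩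
      have hxc : x - algebraMap F A c ∈ Algebra.adjoin F S :=
        Subalgebra.sub_mem _ hx (Subalgebra.algebraMap_mem _ _)
      have hyd : y - algebraMap F A d ∈ Algebra.adjoin F S :=
        Subalgebra.sub_mem _ hy (Subalgebra.algebraMap_mem _ _)
      have hcm : algebraMap F A c ∈ Algebra.adjoin F S := Subalgebra.algebraMap_mem _ _
      have e1 : e * (x * y - algebraMap F A (c * d)) =
          e * (x - algebraMap F A c) * y + e * (y - algebraMap F A d) * algebraMap F A c := by
        have : algebraMap F A (c * d) = algebraMap F A d * algebraMap F A c := by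
          rw [← map_mul, mul_comm]
        rw [this, mul_assoc, mul_assoc, ← mul_add]
        congr 1
        have h2 : algebraMap F A c * y = y * algebraMap F A c := Algebra.commutes _ _
        rw [sub_mul, sub_mul, h2]
        abel
      rw [e1]
      have n1 : Commute (e * (x - algebraMap F A c)) y :=
        (hec _ hy).mul_left (hcom _ hxc _ hy)
      have n2 : Commute (e * (y - algebraMap F A d)) (algebraMap F A c) :=
        (Algebra.commutes c _).symm
      apply Commute.isNilpotent_add _ (n1.isNilpotent_mul_right hc) (n2.isNilpotent_mul_right hd)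
      have q1 : Commute (e * (x - algebraMap F A c)) (e * (y - algebraMap F A d)) :=
        (((Commute.refl e).mul_right (hec _ hyd)).mul_left
        ((hec _ hxc).symm.mul_right (hcom _ hxc _ hyd)))
      have q2 : Commute y (e * (y - algebraMap F A d)) :=
        (hec _ hy).symm.mul_right (hcom _ hy _ hyd)
      exact (q1.mul_left q2).mul_right (Algebra.commutes c _).symm

/-- A nilpotent element has no nonzero eigenvalue. -/
theorem nilp_eigen {N w : A} (hN : IsNilpotent N) {a : F} (ha : a ≠ 0)
    (h : N * w = algebraMap F A a * w) : w = 0 := by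
  obtain ⟨n, hn⟩ := hN
  have h1 : ∀ k : ℕ, N ^ k * w = algebraMap F A (a ^ k) * w := by
    intro k
    induction k with
    | zero => simp
    | succ k ih =>
        rw [pow_succ', mul_assoc, ih, ← mul_assoc, ← Algebra.commutes, mul_assoc, h, ← mul_assoc,
          ← map_mul, pow_succ]
  have h2 := h1 n
  rw [hn, zero_mul] at h2
  have h3 : algebraMap F A ((a ^ n)⁻¹) * (algebraMap F A (a ^ n) * w) = w := by
    rw [← mul_assoc, ← map_mul, inv_mul_cancel₀ (pow_ne_zero _ ha), map_one, one_mul]
  rw [← h3, ← h2, mul_zero]

/-- The dichotomy. -/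
theorem dichotomy {e ζ v : A} {c : F} (hc : IsNilpotent (e * (ζ - algebraMap F A c)))
    (he : Commute e ζ) (hev : e * v = v) (hv : ζ * (ζ * v) = ζ * v) :
    ζ * v = 0 ∨ ζ * v = v := by
  by_cases hc0 : c = 0
  · left
    have e1 : e * (ζ * v) = ζ * v := by rw [← mul_assoc, he.eq, mul_assoc, hev]
    apply nilp_eigen hc (one_ne_zero (α := F))
    rw [map_one, one_mul, hc0, map_zero, sub_zero, mul_assoc, hv, e1]
  · right
    rw [← sub_eq_zero]
    apply nilp_eigen hc (neg_ne_zero.2 hc0)
    have e1 : e * (ζ * v - v) = ζ * v - v := by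
      rw [mul_sub, hev, ← mul_assoc, he.eq, mul_assoc, hev]
    have e2 : ζ * (ζ * v - v) = 0 := by rw [mul_sub, hv, sub_self]
    rw [mul_assoc, sub_mul, e2, zero_sub, map_neg, neg_mul, mul_neg, ← mul_assoc,
      ← Algebra.commutes, mul_assoc, e1]

end Scalar

end Pool.Agent.Helper89.Foulkes
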