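import Mathlib

/-!
Class sums of symmetric groups in characteristic `p`: `z ^ p - z` is nilpotent.
-/

set_option autoImplicit false
set_option linter.unusedSectionVars false

namespace Pool.Agent.Helper89.Foulkes

open Matrix Polynomial

section Trace

variable {n K : Type*} [Fintype n] [DecidableEq n] [Field K]

theorem charpoly_pow_char (p : ℕ) [Fact p.Prime] [CharP K p] (M : Matrix n n K) :
    (M ^ p).charpoly = M.charpoly.map (frobenius K p) := by
  have hp : 0 < p := (Fact.out : p.Prime).pos
  have h1 : expand K p (M ^ p).charpoly = M.charpoly ^ p := by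
    cases (isEmpty_or_nonempty n).symm
    · unfold charpoly
      rw [AlgHom.map_det, ← coe_detMonoidHom, ← (detMonoidHom : Matrix n n K[X] →* K[X]).map_pow]
      apply congr_arg det
      refine matPolyEquiv.injective ?_
      rw [map_pow, matPolyEquiv_charmatrix, sub_pow_char_of_commute, ← C_pow]
      · exact (id (matPolyEquiv_eq_X_pow_sub_C p M) :)
      · exact (C M).commute_X
    · simp [charpoly]
  have h2 : expand K p (M.charpoly.map (frobenius K p)) = M.charpoly ^ p := by
    rw [← map_expand, map_frobenius_expand]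
  exact expand_injective hp (h1.trans h2.symm)

theorem trace_pow_char (p : ℕ) [Fact p.Prime] [CharP K p] (M : Matrix n n K) :
    trace (M ^ p) = trace M ^ p := by
  have hp : p ≠ 0 := (Fact.out : p.Prime).ne_zero
  cases isEmpty_or_nonempty n
  · simp [Matrix.trace, hp]
  rw [Matrix.trace_eq_neg_charpoly_coeff, Matrix.trace_eq_neg_charpoly_coeff,
    charpoly_pow_char, coeff_map, frobenius_def, ← frobenius_def, ← frobenius_def, map_neg]

theorem trace_pow_char_pow (p : ℕ) [Fact p.Prime] [CharP K p] (M : Matrix n n K) (N : ℕ) :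
    trace (M ^ (p ^ N)) = trace M ^ (p ^ N) := by
  induction N with
  | zero => simp
  | succ N ih => rw [pow_succ, pow_mul, trace_pow_char, ih, pow_mul]

end Trace

section Wedderburn

variable {K A : Type*} [Field K] [IsAlgClosed K] [Ring A] [Algebra K A] [FiniteDimensional K A]

theorem exists_matrix_hom {w : A} (hn : ¬ IsNilpotent w) :
    ∃ (d : ℕ) (_ : NeZero d) (f : A →ₐ[K] Matrix (Fin d) (Fin d) K),
      Function.Surjective f ∧ f w ≠ 0 := by
  have := IsArtinianRing.of_finite K A
  have hw : w ∉ Ring.jacobson A := by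
    intro h
    apply hn
    obtain ⟨N, hN⟩ := (inferInstance : IsSemiprimaryRing A).isNilpotent
    refine ⟨N, ?_⟩
    have := Ideal.pow_mem_pow h N
    rw [hN] at this
    simpa using this
  have : IsSemisimpleRing (A ⧸ Ring.jacobson A) := inferInstance
  have : FiniteDimensional K (A ⧸ Ring.jacobson A) := inferInstance
  obtain ⟨n, d, hd, ⟨e⟩⟩ :=
    IsSemisimpleRing.exists_algEquiv_pi_matrix_of_isAlgClosed (F := K) (R := A ⧸ Ring.jacobson A)
  set π : A →ₐ[K] A ⧸ Ring.jacobson A := Ideal.Quotient.mkₐ K (Ring.jacobson A) with hπ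
  have h1 : e (π w) ≠ 0 := by
    intro h
    apply hw
    rw [map_eq_zero_iff e e.injective] at h
    exact Ideal.Quotient.eq_zero_iff_mem.1 h
  obtain ⟨i, hi⟩ : ∃ i, e (π w) i ≠ 0 := by
    by_contra hcon
    push Not at hcon
    exact h1 (funext hcon)
  refine ⟨d i, hd i, ((Pi.evalAlgHom K (fun i => Matrix (Fin (d i)) (Fin (d i)) K) i).comp
    e.toAlgHom).comp π, ?_, hi⟩
  intro y
  obtain ⟨x, hx⟩ := Ideal.Quotient.mkₐ_surjective K (Ring.jacobson A) (e.symm (Pi.single i y))
  refine ⟨x, ?_⟩
  simp only [AlgHom.coe_comp, Function.comp_apply, hπ, hx]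
  simp

end Wedderburn

section Perm

open Equiv Equiv.Perm

variable {Ω : Type*} [Fintype Ω] [DecidableEq Ω]

theorem cycleType_pow_coprime (g : Perm Ω) (k : ℕ) (h : k.Coprime (orderOf g)) :
    (g ^ k).cycleType = g.cycleType := by
  revert h
  induction g using cycle_induction_on with
  | base_one => intro _; simp
  | base_cycles σ hσ =>
      intro h
      have h1 : (σ ^ k).IsCycle := hσ.pow_iff.2 h
      rw [h1.cycleType, hσ.cycleType, support_pow_coprime h]
  | induction_disjoint σ τ hd _ ih1 ih2 =>
      intro h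
      rw [hd.orderOf] at h
      have h1 : k.Coprime (orderOf σ) := Nat.Coprime.coprime_dvd_right (Nat.dvd_lcm_left _ _) h
      have h2 : k.Coprime (orderOf τ) := Nat.Coprime.coprime_dvd_right (Nat.dvd_lcm_right _ _) h
      rw [hd.commute.mul_pow, (hd.pow_disjoint_pow k k).cycleType_mul, hd.cycleType_mul,
        ih1 h1, ih2 h2]

/-- A sum of group elements in the group algebra. -/
noncomputable def csum (K : Type*) [Field K] (S : Finset (Perm Ω)) : MonoidAlgebra K (Perm Ω) :=
  ∑ g ∈ S, MonoidAlgebra.single g 1

theorem csum_commute_single {K : Type*} [Field K] {S : Finset (Perm Ω)} {x : Perm Ω}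
    (h : ∀ g, g ∈ S ↔ x * g * x⁻¹ ∈ S) :
    csum K S * MonoidAlgebra.single x 1 = MonoidAlgebra.single x 1 * csum K S := by
  unfold csum
  rw [Finset.sum_mul, Finset.mul_sum]
  symm
  apply Finset.sum_bij (fun g _ => x * g * x⁻¹)
  · intro g hg; exact (h g).1 hg
  · intro a _ b _ hab; simpa using hab
  · intro g hg
    refine ⟨x⁻¹ * g * x, ?_, by group⟩
    rw [h]
    have : x * (x⁻¹ * g * x) * x⁻¹ = g := by group
    rw [this]; exact hg
  · intro g _
    rw [MonoidAlgebra.single_mul_single, MonoidAlgebra.single_mul_single]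
    congr 1
    group

theorem csum_class_commute {K : Type*} [Field K] (α : Multiset ℕ) (x : MonoidAlgebra K (Perm Ω)) :
    csum K (Finset.univ.filter (fun z : Perm Ω => z.cycleType = α)) * x =
      x * csum K (Finset.univ.filter (fun z : Perm Ω => z.cycleType = α)) := by
  induction x using MonoidAlgebra.induction_linear with
  | zero => simp
  | add x y hx hy => rw [mul_add, add_mul, hx, hy]
  | single g r =>
      have h1 : (MonoidAlgebra.single g r : MonoidAlgebra K (Perm Ω)) =
          r • MonoidAlgebra.single g 1 := by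
        rw [MonoidAlgebra.smul_single', mul_one]
      rw [h1, mul_smul_comm, smul_mul_assoc, csum_commute_single]
      intro z
      simp [cycleType_conj]

section Main

variable {K : Type*} [Field K] [IsAlgClosed K] (p : ℕ) [Fact p.Prime] [CharP K p]

theorem trace_single {d : ℕ} (f : MonoidAlgebra K (Perm Ω) →ₐ[K] Matrix (Fin d) (Fin d) K)
    (g : Perm Ω) :
    trace (f (MonoidAlgebra.single g 1)) ^ p = trace (f (MonoidAlgebra.single g 1)) := by
  have hp : p.Prime := Fact.out
  -- traces are class functions
  have hcl : ∀ a b : Perm Ω, a.cycleType = b.cycleType →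
      trace (f (MonoidAlgebra.single a 1)) = trace (f (MonoidAlgebra.single b 1)) := by
    intro a b hab
    obtain ⟨c, hc⟩ := isConj_iff.1 ((isConj_iff_cycleType_eq).2 hab)
    rw [← hc]
    have : (MonoidAlgebra.single (c * a * c⁻¹) 1 : MonoidAlgebra K (Perm Ω)) =
        MonoidAlgebra.single c 1 * MonoidAlgebra.single a 1 * MonoidAlgebra.single c⁻¹ 1 := by
      simp [MonoidAlgebra.single_mul_single]
    rw [this, map_mul, trace_mul_comm, ← map_mul, ← mul_assoc, MonoidAlgebra.single_mul_single,
      MonoidAlgebra.single_mul_single]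
    simp
  have hpow : ∀ (a : Perm Ω) (N : ℕ), trace (f (MonoidAlgebra.single (a ^ (p ^ N)) 1)) =
      trace (f (MonoidAlgebra.single a 1)) ^ (p ^ N) := by
    intro a N
    have : (MonoidAlgebra.single (a ^ (p ^ N)) 1 : MonoidAlgebra K (Perm Ω)) =
        (MonoidAlgebra.single a 1) ^ (p ^ N) := by
      rw [MonoidAlgebra.single_pow, one_pow]
    rw [this, map_pow, trace_pow_char_pow]
  set N := (orderOf g).factorization p with hN
  have h1 : p.Coprime (orderOf (g ^ (p ^ N))) := by
    rw [orderOf_pow' _ (pow_ne_zero _ hp.ne_zero), Nat.gcd_eq_right (Nat.ordProj_dvd _ _)]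
    exact (Nat.coprime_ordCompl hp (orderOf_pos g).ne')
  have h2 : ((g ^ (p ^ N)) ^ p).cycleType = (g ^ (p ^ N)).cycleType :=
    cycleType_pow_coprime _ _ h1
  have h3 := hcl _ _ h2
  rw [← pow_mul, ← pow_succ, hpow, hpow] at h3
  have h4 : (trace (f (MonoidAlgebra.single g 1)) ^ p) ^ (p ^ N) =
      trace (f (MonoidAlgebra.single g 1)) ^ (p ^ N) := by
    rw [← h3, ← pow_mul, ← pow_succ']
  exact iterateFrobenius_inj K p N h4

theorem csum_nilpotent_aux (α : Multiset ℕ) :
    IsNilpotent ((csum K (Finset.univ.filter (fun z : Perm Ω => z.cycleType = α))) ^ p -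
      csum K (Finset.univ.filter (fun z : Perm Ω => z.cycleType = α))) := by
  classical
  set z := csum K (Finset.univ.filter (fun z : Perm Ω => z.cycleType = α)) with hz
  by_contra hcon
  obtain ⟨d, hd, f, hf, hne⟩ := exists_matrix_hom (K := K) hcon
  -- the scalar
  have hsc : f z ∈ Set.center (Matrix (Fin d) (Fin d) K) := by
    rw [Semigroup.mem_center_iff]
    intro y
    obtain ⟨x, rfl⟩ := hf y
    rw [← map_mul, ← map_mul, hz, csum_class_commute]
  rw [Matrix.center_eq_range] at hsc
  obtain ⟨ω, hω⟩ := hsc
  have hω' : f z = ω • (1 : Matrix (Fin d) (Fin d) K) := by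
    rw [← hω, Matrix.scalar_apply, Matrix.smul_one_eq_diagonal]
  have ht : ∀ x, trace (f (z * x)) = ω * trace (f x) := by
    intro x
    rw [map_mul, hω', smul_mul_assoc, one_mul, trace_smul, smul_eq_mul]
  set σ := MonoidAlgebra.mapRingHom (Perm Ω) (frobenius K p) with hσ
  have hσt : ∀ x, trace (f (σ x)) = trace (f x) ^ p := by
    intro x
    induction x using MonoidAlgebra.induction_linear with
    | zero => simp [(Fact.out : p.Prime).ne_zero]
    | add x y hx hy =>
        rw [map_add, map_add, trace_add, hx, hy, map_add, trace_add, add_pow_char]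
    | single g r =>
        have h1 : ∀ r : K, (MonoidAlgebra.single g r : MonoidAlgebra K (Perm Ω)) =
            r • MonoidAlgebra.single g 1 := by
          intro r
          rw [MonoidAlgebra.smul_single', mul_one]
        rw [hσ, MonoidAlgebra.mapRingHom_single, h1, h1 r, map_smul, map_smul, trace_smul,
          trace_smul, smul_eq_mul, smul_eq_mul, mul_pow, trace_single, frobenius_def]
  have hσz : σ z = z := by
    rw [hσ, hz, csum, map_sum]
    apply Finset.sum_congr rfl
    intro g _
    rw [MonoidAlgebra.mapRingHom_single, map_one]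
  obtain ⟨x, hx⟩ := hf (Matrix.single 0 0 1)
  have htx : trace (f x) = 1 := by
    rw [hx, Matrix.trace_single_eq_same]
  have e1 : trace (f (σ (z * x))) = ω ^ p := by
    rw [hσt, ht, htx, mul_one]
  have e2 : trace (f (σ (z * x))) = ω := by
    rw [map_mul, hσz, ht, hσt, htx, one_pow, mul_one]
  apply hne
  rw [map_sub, map_pow, hω', _root_.smul_pow, one_pow, ← e1, e2, sub_self]

end Main

theorem csum_nilpotent {F : Type*} [Field F] (p : ℕ) [Fact p.Prime] [CharP F p]
    (α : Multiset ℕ) :
    IsNilpotent ((csum F (Finset.univ.filter (fun z : Perm Ω => z.cycleType = α))) ^ p -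
      csum F (Finset.univ.filter (fun z : Perm Ω => z.cycleType = α))) := by
  have : CharP (AlgebraicClosure F) p := charP_of_injective_algebraMap
    (algebraMap F (AlgebraicClosure F)).injective p
  have h := csum_nilpotent_aux (K := AlgebraicClosure F) (Ω := Ω) p α
  set σ := MonoidAlgebra.mapRingHom (Perm Ω) (algebraMap F (AlgebraicClosure F)) with hσ
  have hinj : Function.Injective σ := by
    intro x y hxy
    apply MonoidAlgebra.coeff_injective
    ext g
    have := congrArg (fun w => w.coeff g) hxy
    simp only [hσ, MonoidAlgebra.coeff_mapRingHom] at this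
    exact (algebraMap F (AlgebraicClosure F)).injective this
  have hσz : σ (csum F (Finset.univ.filter (fun z : Perm Ω => z.cycleType = α))) =
      csum (AlgebraicClosure F) (Finset.univ.filter (fun z : Perm Ω => z.cycleType = α)) := by
    rw [csum, csum, map_sum]
    apply Finset.sum_congr rfl
    intro g _
    rw [hσ, MonoidAlgebra.mapRingHom_single, map_one]
  rw [← hσz, ← map_pow, ← map_sub] at h
  exact (IsNilpotent.map_iff hinj).1 h

end Perm

end Pool.Agent.Helper89.Foulkes
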