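import Pool.Agent.Helper89.Foulkes.Span
import Pool.Agent.Helper89.Foulkes.Rational
import Pool.Agent.Helper89.Foulkes.Local

/-!
The core statement inside the group algebra.
-/

set_option autoImplicit false
set_option linter.unusedSectionVars false

namespace Pool.Agent.Helper89.Foulkes

open Equiv Equiv.Perm

variable {Ω : Type*} [Fintype Ω] [DecidableEq Ω] {s : Perm Ω} {F : Type*} [Field F]

/-- The signed sum over the centralizer of `s`. -/
noncomputable def Pel (s : Perm Ω) (F : Type*) [Field F] : MonoidAlgebra F (Perm Ω) :=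
  MonoidAlgebra.ofCoeff (Finsupp.equivFunOnFinite.symm (Pf s F))

theorem coeff_Pel (g : Perm Ω) : (Pel s F).coeff g = Pf s F g := by
  simp [Pel]

/-- The generators of the commutative algebra. -/
def gens (s : Perm Ω) (F : Type*) [Field F] : Set (MonoidAlgebra F (Perm Ω)) :=
  Set.range (fun α => csum F (cls α)) ∪ Set.range (fun β => csum F (cls' s β))

theorem coeff_csum_mul (S : Finset (Perm Ω)) (x : MonoidAlgebra F (Perm Ω)) (h : Perm Ω) :
    (csum F S * x).coeff h = ∑ z ∈ S, x.coeff (z⁻¹ * h) := by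
  unfold csum
  rw [Finset.sum_mul, MonoidAlgebra.coeff_sum, Finsupp.finsetSum_apply]
  apply Finset.sum_congr rfl
  intro z _
  rw [MonoidAlgebra.coeff_single_mul_apply, one_mul]

theorem coeff_prod (α β : Multiset ℕ) (h : Perm Ω) :
    (csum F (cls α) * csum F (cls' s β) * Pel s F).coeff h = Tf s F α β h := by
  rw [mul_assoc, coeff_csum_mul]
  unfold Tf
  apply Finset.sum_congr rfl
  intro z _
  rw [coeff_csum_mul]
  apply Finset.sum_congr rfl
  intro z' _
  rw [coeff_Pel, mul_inv_rev, mul_assoc]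

theorem exists_zeta (hs : s * s = 1) (h2 : (2 : F) ≠ 0) {u : MonoidAlgebra F (Perm Ω)}
    (hl : ∀ j, j * s = s * j → MonoidAlgebra.single j 1 * u = sg F (eps s j) • u)
    (hr : ∀ j, j * s = s * j → u * MonoidAlgebra.single j 1 = sg F (eps s j) • u) :
    ∃ ζ ∈ Algebra.adjoin F (gens s F), u = ζ * Pel s F := by
  have hu : (fun g => u.coeff g) ∈ SemiInv s F := by
    constructor
    · intro j g hj
      have h3 := congrArg (fun w => w.coeff (j * g)) (hl j hj)
      simp only [MonoidAlgebra.coeff_single_mul_apply, MonoidAlgebra.coeff_smul_apply, one_mul,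
        inv_mul_cancel_left, smul_eq_mul] at h3
      change u.coeff (j * g) = sg F (eps s j) * u.coeff g
      rw [h3, ← mul_assoc, sg_sq, one_mul]
    · intro j g hj
      have h3 := congrArg (fun w => w.coeff (g * j)) (hr j hj)
      simp only [MonoidAlgebra.coeff_mul_single_apply, MonoidAlgebra.coeff_smul_apply, mul_one,
        mul_inv_cancel_right, smul_eq_mul] at h3
      change u.coeff (g * j) = sg F (eps s j) * u.coeff g
      rw [h3, ← mul_assoc, sg_sq, one_mul]
  have hspan := mem_span hs h2 hu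
  have key : ∀ f ∈ Submodule.span F
      (Set.range (fun p : Multiset ℕ × Multiset ℕ => Tf s F p.1 p.2)),
      ∃ ζ ∈ Algebra.adjoin F (gens s F), ∀ g, f g = (ζ * Pel s F).coeff g := by
    intro f hf
    induction hf using Submodule.span_induction with
    | mem f hf =>
        obtain ⟨⟨α, β⟩, rfl⟩ := hf
        refine ⟨csum F (cls α) * csum F (cls' s β), ?_, fun g => (coeff_prod α β g).symm⟩
        apply Subalgebra.mul_mem
        · exact Algebra.subset_adjoin (Or.inl ⟨α, rfl⟩)
        · exact Algebra.subset_adjoin (Or.inr ⟨β, rfl⟩)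
    | zero => exact ⟨0, Subalgebra.zero_mem _, fun g => by simp⟩
    | add f1 f2 _ _ ih1 ih2 =>
        obtain ⟨z1, hz1, h1⟩ := ih1
        obtain ⟨z2, hz2, h2⟩ := ih2
        refine ⟨z1 + z2, Subalgebra.add_mem _ hz1 hz2, fun g => ?_⟩
        rw [add_mul, MonoidAlgebra.coeff_add, Finsupp.add_apply, Pi.add_apply, h1, h2]
    | smul c f _ ih =>
        obtain ⟨z, hz, h⟩ := ih
        refine ⟨c • z, Subalgebra.smul_mem _ hz c, fun g => ?_⟩
        rw [smul_mul_assoc, MonoidAlgebra.coeff_smul_apply, Pi.smul_apply, h]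
  obtain ⟨ζ, hζ, h⟩ := key _ hspan
  refine ⟨ζ, hζ, ?_⟩
  apply MonoidAlgebra.coeff_injective
  ext g
  exact h g

theorem cls'_conj {β : Multiset ℕ} {x : Perm Ω} (hx : ∀ a, s a = a → x a = a) (g : Perm Ω) :
    g ∈ cls' s β ↔ x * g * x⁻¹ ∈ cls' s β := by
  have hx' : ∀ a, s a = a → x⁻¹ a = a := fun a ha => by
    rw [Perm.inv_eq_iff_eq, hx a ha]
  simp only [cls', Finset.mem_filter, Finset.mem_univ, true_and, cycleType_conj]
  constructor
  · rintro ⟨h1, h2⟩
    refine ⟨fun a ha => ?_, h2⟩
    rw [Perm.mul_apply, Perm.mul_apply, hx' a ha, h1 a ha, hx a ha]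
  · rintro ⟨h1, h2⟩
    refine ⟨fun a ha => ?_, h2⟩
    have h3 := h1 a ha
    rw [Perm.mul_apply, Perm.mul_apply, hx' a ha] at h3
    have h4 : g a = x⁻¹ a := by rw [Perm.eq_inv_iff_eq]; exact h3
    rw [h4, hx' a ha]

theorem csum'_commute (β β' : Multiset ℕ) :
    Commute (csum F (cls' s β)) (csum F (cls' s β')) := by
  have h : csum F (cls' s β') = ∑ g ∈ cls' s β', MonoidAlgebra.single g 1 := rfl
  rw [h]
  apply Commute.sum_right
  intro g hg
  simp only [cls', Finset.mem_filter, Finset.mem_univ, true_and] at hg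
  exact csum_commute_single (cls'_conj hg.1)

theorem csum_commute (α : Multiset ℕ) (x : MonoidAlgebra F (Perm Ω)) :
    Commute (csum F (cls α)) x := csum_class_commute α x

theorem gens_commute : ∀ x ∈ gens s F, ∀ y ∈ gens s F, Commute x y := by
  rintro x (⟨α, rfl⟩ | ⟨β, rfl⟩) y (⟨α', rfl⟩ | ⟨β', rfl⟩)
  · exact csum_commute _ _
  · exact csum_commute _ _
  · exact (csum_commute _ _).symm
  · exact csum'_commute _ _

theorem single_mul_Pel {j : Perm Ω} (hj : j * s = s * j) :
    MonoidAlgebra.single j 1 * Pel s F = sg F (eps s j) • Pel s F := by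
  apply MonoidAlgebra.coeff_injective
  ext g
  rw [MonoidAlgebra.coeff_single_mul_apply, MonoidAlgebra.coeff_smul_apply, coeff_Pel, coeff_Pel,
    Pf_mul_left (comm_inv hj), eps_inv hj, one_mul, smul_eq_mul]

theorem Pel_mul_single {j : Perm Ω} (hj : j * s = s * j) :
    Pel s F * MonoidAlgebra.single j 1 = sg F (eps s j) • Pel s F := by
  apply MonoidAlgebra.coeff_injective
  ext g
  rw [MonoidAlgebra.coeff_mul_single_apply, MonoidAlgebra.coeff_smul_apply, coeff_Pel, coeff_Pel,
    Pf_mul_right (comm_inv hj), eps_inv hj, mul_one, smul_eq_mul]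

theorem core (hs : s * s = 1) (h2 : (2 : F) ≠ 0) {B b : MonoidAlgebra F (Perm Ω)}
    (hBc : ∀ x, B * x = x * B) (hBB : B * B = B) (hbb : b * b = b)
    (hbj : ∀ j, j * s = s * j → b * MonoidAlgebra.single j 1 = MonoidAlgebra.single j 1 * b)
    (hbβ : ∀ β, Commute b (csum F (cls' s β)))
    (hlB : ∀ α, ∃ c : F, IsNilpotent (B * (csum F (cls α) - algebraMap F _ c)))
    (hlb : ∀ β, ∃ c : F, IsNilpotent (b * (csum F (cls' s β) - algebraMap F _ c)))
    {v1 v2 a1 : MonoidAlgebra F (Perm Ω)}
    (hv : v1 + v2 = B * b * Pel s F)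
    (ha1 : v1 = a1 * (B * b * Pel s F))
    (hind : ∀ x y, x * v1 + y * v2 = 0 → x * v1 = 0 ∧ y * v2 = 0) : v1 = 0 ∨ v2 = 0 := by
  set v := B * b * Pel s F with hvdef
  have hBv : B * v = v := by rw [hvdef, ← mul_assoc, ← mul_assoc, hBB]
  have hbv : b * v = v := by
    rw [hvdef, ← mul_assoc, ← mul_assoc, ← hBc b, mul_assoc B b b, hbb]
  have hjv : ∀ j, j * s = s * j → MonoidAlgebra.single j 1 * v = sg F (eps s j) • v := by
    intro j hj
    rw [hvdef, ← mul_assoc, ← mul_assoc, ← hBc, mul_assoc B, ← hbj j hj, mul_assoc, mul_assoc,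
      single_mul_Pel hj, mul_smul_comm, mul_smul_comm, mul_assoc]
  have hvj : ∀ j, j * s = s * j → v * MonoidAlgebra.single j 1 = sg F (eps s j) • v := by
    intro j hj
    rw [hvdef, mul_assoc, Pel_mul_single hj, mul_smul_comm]
  -- elements fixing `v` fix `v1`
  have hfix : ∀ x, x * v = 0 → x * v1 = 0 := by
    intro x hx
    refine (hind x x ?_).1
    rw [← mul_add, hv, hx]
  have hBv1 : B * v1 = v1 := by
    have := hfix (B - 1) (by rw [sub_mul, hBv, one_mul, sub_self])
    rwa [sub_mul, one_mul, sub_eq_zero] at this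
  have hbv1 : b * v1 = v1 := by
    have := hfix (b - 1) (by rw [sub_mul, hbv, one_mul, sub_self])
    rwa [sub_mul, one_mul, sub_eq_zero] at this
  obtain ⟨ζ, hζ, hu⟩ := exists_zeta hs h2 (u := v1) (by
    intro j hj
    have := hfix (MonoidAlgebra.single j 1 - algebraMap F _ (sg F (eps s j))) (by
      rw [sub_mul, hjv j hj, ← Algebra.smul_def, sub_self])
    rwa [sub_mul, sub_eq_zero, ← Algebra.smul_def] at this) (by
    intro j hj
    rw [ha1, mul_assoc, hvj j hj, mul_smul_comm])
  have hBζ : Commute B ζ := hBc ζ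
  have hbζ : Commute b ζ := by
    apply Algebra.commute_of_mem_adjoin_of_forall_mem_commute hζ
    rintro x (⟨α, rfl⟩ | ⟨β, rfl⟩)
    · exact (csum_commute _ _).symm
    · exact hbβ β
  have hζv : ζ * v = v1 := by
    calc ζ * v = B * (b * (ζ * Pel s F)) := by
          rw [hvdef, ← mul_assoc, ← mul_assoc, hBζ.symm.eq, mul_assoc B, hbζ.symm.eq]
          simp only [mul_assoc]
      _ = v1 := by rw [← hu, hbv1, hBv1]
  have hζζ : ζ * v1 = v1 := by
    have h3 : (ζ - 1) * v1 + ζ * v2 = 0 := by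
      have : ζ * v1 + ζ * v2 = v1 := by rw [← mul_add, hv, hζv]
      have h5 : (ζ - 1) * v1 + ζ * v2 = (ζ * v1 + ζ * v2) - v1 := by
        rw [sub_mul, one_mul]; abel
      rw [h5, this, sub_self]
    have h4 := (hind _ _ h3).1
    rwa [sub_mul, one_mul, sub_eq_zero] at h4
  -- locality
  have heS : ∀ x ∈ gens s F, Commute (B * b) x := by
    rintro x hx
    refine Commute.mul_left (hBc x) ?_
    rcases hx with ⟨α, rfl⟩ | ⟨β, rfl⟩
    · exact (csum_commute _ _).symm
    · exact hbβ β
  obtain ⟨c, hc⟩ := adjoin_local (F := F) heS gens_commute (by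
    rintro x (⟨α, rfl⟩ | ⟨β, rfl⟩)
    · obtain ⟨c, hc⟩ := hlB α
      refine ⟨c, ?_⟩
      have : B * b * (csum F (cls α) - algebraMap F _ c) =
          b * (B * (csum F (cls α) - algebraMap F _ c)) := by
        rw [hBc b, mul_assoc]
      simp only
      rw [this]
      apply Commute.isNilpotent_mul_left _ hc
      apply Commute.mul_right
      · exact (hBc b).symm
      · exact ((csum_commute _ _).symm).sub_right (Algebra.commutes _ _).symm
    · obtain ⟨c, hc⟩ := hlb β
      refine ⟨c, ?_⟩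
      simp only
      rw [mul_assoc]
      exact Commute.isNilpotent_mul_left (hBc _) hc) hζ
  have hBbv : B * b * v = v := by rw [mul_assoc, hbv, hBv]
  rcases dichotomy (v := v) hc (hBζ.mul_left hbζ) hBbv (by rw [hζv, hζζ]) with h | h
  · left; rw [← hζv, h]
  · right
    rw [hζv] at h
    rw [← h] at hv
    simpa using hv

end Pool.Agent.Helper89.Foulkes
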