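import Pool.Agent.Helper89.Foulkes.Good

/-!
Uniqueness and counting of the pairs attached to a good pair.
-/

set_option autoImplicit false
set_option linter.unusedSectionVars false

namespace Pool.Agent.Helper89.Foulkes

open Equiv Equiv.Perm

variable {Ω : Type*} [Fintype Ω] [DecidableEq Ω] {s : Perm Ω}

theorem finrank_inv_conj (x τ : Perm Ω) :
    Module.finrank ℚ (inv (τ * x * τ⁻¹)) = Module.finrank ℚ (inv x) := by
  have key : ∀ (x τ : Perm Ω), Module.finrank ℚ (inv (τ * x * τ⁻¹)) ≤ Module.finrank ℚ (inv x) := by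
    intro x τ
    let Φ : (Ω → ℚ) →ₗ[ℚ] (Ω → ℚ) := LinearMap.funLeft ℚ ℚ τ
    have hΦ : Function.Injective Φ := LinearMap.funLeft_injective_of_surjective ℚ ℚ τ τ.surjective
    have hmap : Submodule.map Φ (inv (τ * x * τ⁻¹)) ≤ inv x := by
      rintro _ ⟨f, hf, rfl⟩ p
      have := hf (τ p)
      simpa [Φ, LinearMap.funLeft_apply, Perm.mul_apply] using this
    calc Module.finrank ℚ (inv (τ * x * τ⁻¹))
        = Module.finrank ℚ (Submodule.map Φ (inv (τ * x * τ⁻¹))) :=
          (Submodule.equivMapOfInjective Φ hΦ _).finrank_eq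
      _ ≤ _ := Submodule.finrank_mono hmap
  apply le_antisymm (key x τ)
  have := key (τ * x * τ⁻¹) τ⁻¹
  have e : τ⁻¹ * (τ * x * τ⁻¹) * τ⁻¹⁻¹ = x := by group
  rwa [e] at this

theorem finrank_inv_ct {x z : Perm Ω} (h : x.cycleType = z.cycleType) :
    Module.finrank ℚ (inv x) = Module.finrank ℚ (inv z) := by
  obtain ⟨τ, hτ⟩ := isConj_iff.1 (isConj_iff_cycleType_eq.2 h)
  rw [← hτ, finrank_inv_conj]

theorem card_support_ct {x z : Perm Ω} (h : x.cycleType = z.cycleType) :
    x.support.card = z.support.card := by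
  rw [← sum_cycleType, ← sum_cycleType, h]

/-- Same cycle types and same conjugate involution force goodness. -/
theorem good_of_ct (hs : s * s = 1) {x x' z z' : Perm Ω} (h : Good s x x')
    (hz' : ∀ a, s a = a → z' a = a) (h1 : z.cycleType = x.cycleType)
    (h2 : z'.cycleType = x'.cycleType) (hσ : cj s (x * x') = cj s (z * z')) :
    Good s z z' ∧ (∀ a, s a = a → (z a ≠ a ↔ x a ≠ a)) ∧
        (∀ p, (p ∈ (z * z').support ∨ s p ∈ (z * z').support) ↔
          (p ∈ (x * x').support ∨ s p ∈ (x * x').support)) := by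
  obtain ⟨-, h3⟩ := key2 hs h hz' hσ
  obtain ⟨-, -, h5⟩ := h3 (by rw [finrank_inv_ct h1, finrank_inv_ct h2])
  obtain ⟨-, h7, h8, h9⟩ := h5 (by rw [card_support_ct h1, card_support_ct h2])
  exact ⟨h9 (by rw [h1]), h7, h8⟩

theorem zpow_neg_eq (hs : s * s = 1) {x x' z z' : Perm Ω} (h : Good s x x') (hz : Good s z z')
    (hσ : cj s (x * x') = cj s (z * z'))
    {q a : Ω} (ha : s a = a) (hxa : x a ≠ a) (hza : z a ≠ a)
    (hqx : x.SameCycle a q) (hqz : z.SameCycle a q) :
    x⁻¹ q = z⁻¹ q := by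
  -- one-sided statement
  have key : ∀ {x x' z z' : Perm Ω}, Good s x x' → Good s z z' → cj s (x * x') = cj s (z * z') →
      x a ≠ a → z a ≠ a → x.SameCycle a q → z.SameCycle a q → s (x⁻¹ q) ≠ x⁻¹ q →
      s (z⁻¹ q) ≠ z⁻¹ q := by
    intro x x' z z' h hz hσ hxa hza hqx hqz hx hzf
    -- then `z⁻¹ q = a`, so `q = z a` is fixed by the conjugate involution
    have h1 : z⁻¹ q = a := by
      symm
      apply hz.uniq a _ ha hzf
      have : z.SameCycle a (z (z⁻¹ q)) := by simpa using hqz
      exact sameCycle_apply_right.1 this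
    have h2 : q = z a := by rw [← h1]; simp
    have h3 : (z * z') a = q := by rw [Perm.mul_apply, hz.fix' a ha, h2]
    have h4 : cj s (x * x') q = q := by
      rw [hσ, ← h3, cj_apply, ha]
    -- now look at `q2 = x⁻¹ q`
    set q2 := x⁻¹ q with hq2
    have hq2' : x q2 = q := by simp [hq2]
    have hsc2 : x.SameCycle a q2 := by
      have : x.SameCycle a (x q2) := by rw [hq2']; exact hqx
      exact sameCycle_apply_right.1 this
    have hxq2 : x q2 ≠ q2 := fun h' => hxa (hsc2.apply_eq_self_iff.2 h')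
    have hx'q2 : x' q2 = q2 := (h.disj q2).resolve_left hxq2
    have h5 : (x * x') q2 = q := by rw [Perm.mul_apply, hx'q2, hq2']
    have h6 : (x * x') q2 ≠ q2 := by rw [h5, ← hq2']; exact hxq2
    have h7 := h.cj_apply_s hs hx h6
    rw [h5] at h7
    have h8 : s q2 = q := by
      have := (cj s (x * x')).injective (h7.trans h4.symm)
      exact this
    have h9 := h.trans q2 hx h6
    rw [h8] at h9
    have h10 : x q ≠ q := fun h' => hxa (hqx.apply_eq_self_iff.2 h')
    have h11 : x' q = q := (h.disj q).resolve_left h10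
    rw [Perm.mul_apply, h11] at h9
    exact h10 h9
  have hsx : x.SameCycle a (x⁻¹ q) := by
    have : x.SameCycle a (x (x⁻¹ q)) := by simpa using hqx
    exact sameCycle_apply_right.1 this
  have hsz : z.SameCycle a (z⁻¹ q) := by
    have : z.SameCycle a (z (z⁻¹ q)) := by simpa using hqz
    exact sameCycle_apply_right.1 this
  by_cases hx : s (x⁻¹ q) = x⁻¹ q
  · have hzf : s (z⁻¹ q) = z⁻¹ q := by
      by_contra h'
      exact key hz h hσ.symm hza hxa hqz hqx h' hx
    rw [← h.uniq a _ ha hx hsx, ← hz.uniq a _ ha hzf hsz]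
  · have hzf : s (z⁻¹ q) ≠ z⁻¹ q := key h hz hσ hxa hza hqx hqz hx
    have e1 : ∀ {x x' : Perm Ω}, Good s x x' → x a ≠ a → x.SameCycle a q → s (x⁻¹ q) ≠ x⁻¹ q →
        cj s (x * x') (s (x⁻¹ q)) = q := by
      intro x x' h hxa hqx hx
      have hsx : x.SameCycle a (x⁻¹ q) := by
        have : x.SameCycle a (x (x⁻¹ q)) := by simpa using hqx
        exact sameCycle_apply_right.1 this
      have hxq2 : x (x⁻¹ q) ≠ x⁻¹ q := fun h' => hxa (hsx.apply_eq_self_iff.2 h')
      have hx'q2 : x' (x⁻¹ q) = x⁻¹ q := (h.disj _).resolve_left hxq2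
      have h5 : (x * x') (x⁻¹ q) = q := by rw [Perm.mul_apply, hx'q2]; simp
      have h6 : (x * x') (x⁻¹ q) ≠ x⁻¹ q := by
        rw [Perm.mul_apply, hx'q2]; exact hxq2
      have h7 := h.cj_apply_s hs hx h6
      rw [h5] at h7
      exact h7
    have e2 := e1 h hxa hqx hx
    have e3 := e1 hz hza hqz hzf
    rw [← hσ] at e3
    exact s.injective ((cj s (x * x')).injective (e2.trans e3.symm))

/-- The first member of a good pair is determined. -/
theorem fst_eq (hs : s * s = 1) {x x' z z' : Perm Ω} (h : Good s x x') (hz : Good s z z')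
    (hσ : cj s (x * x') = cj s (z * z')) (hfix : ∀ a, s a = a → (z a ≠ a ↔ x a ≠ a)) :
    z = x := by
  have key : ∀ {x x' z z' : Perm Ω}, Good s x x' → Good s z z' → cj s (x * x') = cj s (z * z') →
      (∀ a, s a = a → (z a ≠ a ↔ x a ≠ a)) → ∀ p, x p ≠ p → z p = x p := by
    intro x x' z z' h hz hσ hfix p hp
    obtain ⟨a, ha, hpa⟩ := h.ex p hp
    have hxa : x a ≠ a := fun h' => hp (hpa.apply_eq_self_iff.2 h')
    have hza : z a ≠ a := (hfix a ha).2 hxa
    have hpow : ∀ n : ℕ, (x⁻¹ ^ n) a = (z⁻¹ ^ n) a := by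
      intro n
      induction n with
      | zero => rfl
      | succ n ih =>
          rw [pow_succ', pow_succ', Perm.mul_apply, Perm.mul_apply, ← ih]
          apply zpow_neg_eq hs h hz hσ ha hxa hza
          · exact ⟨-(n : ℤ), by rw [zpow_neg, zpow_natCast, inv_pow]⟩
          · exact ⟨-(n : ℤ), by rw [ih, zpow_neg, zpow_natCast, inv_pow]⟩
    obtain ⟨n, hn0, -, hn⟩ := (sameCycle_inv.2 hpa.symm).exists_pow_eq (f := x⁻¹)
    -- `p = x^{-n} a` with `n > 0`
    obtain ⟨m, rfl⟩ : ∃ m, n = m + 1 := ⟨n - 1, by omega⟩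
    have h1 : x p = (x⁻¹ ^ m) a := by
      rw [← hn, pow_succ', Perm.mul_apply]; simp
    have h2 : z p = (z⁻¹ ^ m) a := by
      rw [← hn, hpow, pow_succ', Perm.mul_apply]; simp
    rw [h1, h2, hpow]
  ext p
  by_cases hp : x p = p
  · by_cases hp' : z p = p
    · rw [hp, hp']
    · exact (key hz h hσ.symm (fun a ha => (hfix a ha).symm) p hp').symm
  · exact key h hz hσ hfix p hp

/-- The part of `x` on an invariant set of points. -/
def part (x : Perm Ω) (Q : Ω → Prop) [DecidablePred Q] (hQ : ∀ p, Q (x p) ↔ Q p) : Perm Ω where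
  toFun p := if Q p then x p else p
  invFun p := if Q p then x⁻¹ p else p
  left_inv p := by
    by_cases h : Q p
    · simp [h, (hQ p).2 h]
    · simp [h]
  right_inv p := by
    by_cases h : Q p
    · have : Q ((Equiv.symm x) p) := by rw [← hQ]; simpa using h
      simp [h, this]
    · simp [h]

theorem part_apply (x : Perm Ω) (Q : Ω → Prop) [DecidablePred Q] (hQ : ∀ p, Q (x p) ↔ Q p)
    (p : Ω) : part x Q hQ p = if Q p then x p else p := rfl

theorem part_inv_apply (x : Perm Ω) (Q : Ω → Prop) [DecidablePred Q] (hQ : ∀ p, Q (x p) ↔ Q p)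
    (p : Ω) : (part x Q hQ)⁻¹ p = if Q p then x⁻¹ p else p := rfl

theorem part_disjoint (x : Perm Ω) (Q : Ω → Prop) [DecidablePred Q] (hQ : ∀ p, Q (x p) ↔ Q p)
    (hQ' : ∀ p, ¬ Q (x p) ↔ ¬ Q p) :
    Disjoint (part x Q hQ) (part x (fun p => ¬ Q p) hQ') := by
  intro p
  by_cases h : Q p
  · right; simp [part_apply, h]
  · left; simp [part_apply, h]

theorem part_mul (x : Perm Ω) (Q : Ω → Prop) [DecidablePred Q] (hQ : ∀ p, Q (x p) ↔ Q p)
    (hQ' : ∀ p, ¬ Q (x p) ↔ ¬ Q p) :
    part x Q hQ * part x (fun p => ¬ Q p) hQ' = x := by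
  ext p
  by_cases h : Q p
  · simp [part_apply, h]
  · simp [part_apply, h, (hQ' p).2 h]

/-- The cycle predicate attached to a set of cycles. -/
def cq (x : Perm Ω) (A : Finset (Perm Ω)) (p : Ω) : Prop := x.cycleOf p ∈ A

instance (x : Perm Ω) (A : Finset (Perm Ω)) : DecidablePred (cq x A) :=
  fun p => by unfold cq; infer_instance

theorem cq_apply (x : Perm Ω) (A : Finset (Perm Ω)) (p : Ω) : cq x A (x p) ↔ cq x A p := by
  unfold cq
  rw [(sameCycle_apply_left.2 (SameCycle.refl x p)).cycleOf_eq]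

/-- Flip part of the second member. -/
def flip (s x : Perm Ω) (A : Finset (Perm Ω)) : Perm Ω :=
  part x (cq x A) (cq_apply x A) *
    (s * (part x (fun p => ¬ cq x A p) (fun p => not_congr (cq_apply x A p)))⁻¹ * s⁻¹)

theorem s_inv (hs : s * s = 1) : s⁻¹ = s := by
  rw [inv_eq_iff_mul_eq_one]; exact hs

section
variable {x x' : Perm Ω}

theorem Good.snd_trans (h : Good s x x') {p : Ω} (hp : x' p ≠ p) :
    s p ≠ p ∧ x p = p ∧ x (s p) = s p ∧ x' (s p) = s p ∧ x (x' p) = x' p := by
  have h1 : s p ≠ p := fun h' => hp (h.fix' p h')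
  have h2 : x p = p := (h.disj p).resolve_right hp
  have h3 : x (x' p) = x' p := by
    rcases h.disj (x' p) with h4 | h4
    · exact h4
    · exact absurd (x'.injective h4) hp
  have h4 : (x * x') p ≠ p := by rw [Perm.mul_apply, h3]; exact hp
  have h5 := h.trans p h1 h4
  have h6 := disj_fix_mul h.disj h5
  exact ⟨h1, h2, h6.1, h6.2, h3⟩

/-- The conjugate involution on the support of the second member. -/
theorem Good.snd_cj (hs : s * s = 1) (h : Good s x x') {p : Ω} (hp : x' p ≠ p) :
    cj s (x * x') (s p) = x' p := by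
  obtain ⟨h1, h2, h3, h4, h5⟩ := h.snd_trans hp
  have h6 : (x * x') p ≠ p := by rw [Perm.mul_apply, h5]; exact hp
  rw [h.cj_apply_s hs h1 h6, Perm.mul_apply, h5]

theorem Good.snd_cj' (hs : s * s = 1) (h : Good s x x') {p : Ω} (hp : x' p ≠ p) :
    cj s (x * x') p = s (x'⁻¹ p) := by
  set q := x'⁻¹ p with hq
  have hqp : x' q = p := by simp [hq]
  have hq' : x' q ≠ q := by
    intro h'
    rw [hqp] at h'
    exact hp (by rw [h', hqp, h'])
  obtain ⟨h1, h2, h3, h4, h5⟩ := h.snd_trans hq'
  have h6 : (x * x') q = p := by rw [Perm.mul_apply, h5, hqp]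
  have h7 : (x * x') (s q) = s q := by rw [Perm.mul_apply, h4, h3]
  rw [← h6, cj_apply, h7]

/-- Evaluation of a flip on points moved by `x'`. -/
theorem Good.flip_apply_of_moved (hs : s * s = 1) (h : Good s x x') (A : Finset (Perm Ω)) {p : Ω}
    (hp : x' p ≠ p) : flip s x' A p = if cq x' A p then x' p else p := by
  obtain ⟨h1, h2, h3, h4, h5⟩ := h.snd_trans hp
  have e1 : (s * (part x' (fun p => ¬ cq x' A p) (fun p => not_congr (cq_apply x' A p)))⁻¹ * s⁻¹) p
      = p := by
    rw [s_inv hs, Perm.mul_apply, Perm.mul_apply, part_inv_apply]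
    have h6 : x'⁻¹ (s p) = s p := by rw [Perm.inv_eq_iff_eq, h4]
    rw [h6, ite_self, ss hs]
  rw [flip, Perm.mul_apply, e1, part_apply]

/-- Evaluation of a flip on partners of points moved by `x'`. -/
theorem Good.flip_apply_of_partner (hs : s * s = 1) (h : Good s x x') (A : Finset (Perm Ω)) {p : Ω}
    (hp : x' p ≠ p) : flip s x' A (s p) = if cq x' A p then s p else s (x'⁻¹ p) := by
  obtain ⟨h1, h2, h3, h4, h5⟩ := h.snd_trans hp
  have hq' : x' (x'⁻¹ p) ≠ x'⁻¹ p := by
    intro h'
    have : x'⁻¹ p = p := by simpa using h'.symm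
    exact hp (by rw [← this] at *; simpa using this.symm)
  obtain ⟨g1, g2, g3, g4, g5⟩ := h.snd_trans hq'
  rw [flip, Perm.mul_apply, s_inv hs, Perm.mul_apply, Perm.mul_apply, ss hs, part_inv_apply,
    part_apply]
  by_cases hA : cq x' A p
  · simp only [hA, not_true, if_false, h4, ite_self, if_true]
  · simp only [hA, not_false_iff, if_true, g4, ite_self, if_false]

theorem Good.flip_apply_of_else (hs : s * s = 1) (A : Finset (Perm Ω)) {p : Ω}
    (hp : x' p = p) (hsp : x' (s p) = s p) : flip s x' A p = p := by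
  rw [flip, Perm.mul_apply, s_inv hs, Perm.mul_apply, Perm.mul_apply, part_inv_apply,
    part_apply]
  have h6 : x'⁻¹ (s p) = s p := by rw [Perm.inv_eq_iff_eq, hsp]
  simp only [h6, ite_self, ss hs, hp]

theorem cycleType_flip (hs : s * s = 1) (h : Good s x x') (A : Finset (Perm Ω)) :
    (flip s x' A).cycleType = x'.cycleType := by
  have hQ := cq_apply x' A
  have hQ' : ∀ p, ¬ cq x' A (x' p) ↔ ¬ cq x' A p := fun p => not_congr (cq_apply x' A p)
  have hd := part_disjoint x' (cq x' A) hQ hQ'
  have hm := part_mul x' (cq x' A) hQ hQ'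
  have hd2 : Disjoint (part x' (cq x' A) hQ) (s * (part x' (fun p => ¬ cq x' A p) hQ')⁻¹ * s⁻¹) := by
    intro p
    by_cases hp : x' p = p
    · left; simp [part_apply, hp]
    · right
      obtain ⟨h1, h2, h3, h4, h5⟩ := h.snd_trans hp
      rw [s_inv hs, Perm.mul_apply, Perm.mul_apply, part_inv_apply]
      have h6 : x'⁻¹ (s p) = s p := by rw [Perm.inv_eq_iff_eq, h4]
      rw [h6, ite_self, ss hs]
  conv_rhs => rw [← hm]
  rw [hd.cycleType_mul]
  unfold flip
  rw [hd2.cycleType_mul, cycleType_conj, cycleType_inv]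

theorem cj_flip (hs : s * s = 1) (h : Good s x x') (A : Finset (Perm Ω)) :
    cj s (x * flip s x' A) = cj s (x * x') := by
  have hQ := cq_apply x' A
  have hQ' : ∀ p, ¬ cq x' A (x' p) ↔ ¬ cq x' A p := fun p => not_congr (cq_apply x' A p)
  have hm := part_mul x' (cq x' A) hQ hQ'
  set u := part x' (cq x' A) hQ with hu
  set v := part x' (fun p => ¬ cq x' A p) hQ' with hv
  have hw : Commute (s * v * s⁻¹) v := by
    apply Disjoint.commute
    intro p
    by_cases hp : x' p = p
    · right; simp [hv, part_apply, hp]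
    · left
      obtain ⟨h1, h2, h3, h4, h5⟩ := h.snd_trans hp
      rw [s_inv hs, Perm.mul_apply, Perm.mul_apply, hv, part_apply, h4, ite_self, ss hs]
  have hfl : flip s x' A = u * (s * v⁻¹ * s⁻¹) := rfl
  have e1 : cj s (x * flip s x' A) = x * (u * ((s * v⁻¹ * s⁻¹) * s * (s * v⁻¹ * s⁻¹)⁻¹) * u⁻¹) * x⁻¹ := by
    rw [hfl, cj]; group
  have e2 : cj s (x * x') = x * (u * (v * s * v⁻¹) * u⁻¹) * x⁻¹ := by
    rw [← hm, cj]; group
  rw [e1, e2]
  congr 3
  congr 1
  -- `(s v⁻¹ s) s (s v s) = v s v⁻¹`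
  have hw2 : (s * v * s⁻¹)⁻¹ * v = v * (s * v * s⁻¹)⁻¹ := (hw.inv_left).eq
  have hsi := s_inv hs
  have hss : ∀ r : Perm Ω, s * (s * r) = r := fun r => by rw [← mul_assoc, hs, one_mul]
  have e3 : s * v⁻¹ * s⁻¹ * s * (s * v⁻¹ * s⁻¹)⁻¹ = (s * v * s⁻¹)⁻¹ * v * s⁻¹ * (s * s) := by
    simp only [mul_inv_rev, inv_inv, hsi, mul_assoc, hss, hs, mul_one]
  have e4 : v * s * v⁻¹ = v * (s * v * s⁻¹)⁻¹ * s⁻¹ * (s * s) := by
    group
  rw [e3, e4, hw2]

/-- The set of second members attached to a good pair. -/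
def sndSet (s x x' : Perm Ω) : Finset (Perm Ω) :=
  Finset.univ.filter (fun z' => (∀ a, s a = a → z' a = a) ∧ z'.cycleType = x'.cycleType ∧
    cj s (x * z') = cj s (x * x'))

theorem card_sndSet (hs : s * s = 1) (h : Good s x x') :
    (sndSet s x x').card = 2 ^ x'.cycleType.card := by
  rw [card_ct, ← Finset.card_powerset]
  symm
  apply Finset.card_bij (fun A _ => flip s x' A)
  · intro A hA
    simp only [sndSet, Finset.mem_filter, Finset.mem_univ, true_and]
    refine ⟨?_, cycleType_flip hs h A, cj_flip hs h A⟩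
    intro a ha
    have h1 := h.fix' a ha
    exact Good.flip_apply_of_else hs A h1 (by rw [ha]; exact h1)
  · intro A hA B hB hAB
    rw [Finset.mem_powerset] at hA hB
    have key : ∀ {A B : Finset (Perm Ω)}, A ⊆ x'.cycleFactorsFinset → flip s x' A = flip s x' B →
        A ⊆ B := by
      intro A B hA hAB C hC
      have hC' := hA hC
      obtain ⟨p, hp⟩ := (mem_cycleFactorsFinset_iff.1 hC').1.nonempty_support
      have hpx : x' p ≠ p := mem_support.1 (mem_cycleFactorsFinset_support_le hC' hp)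
      have hCp : C = x'.cycleOf p := cycle_is_cycleOf hp hC'
      have h1 := h.flip_apply_of_moved hs A hpx
      have h2 := h.flip_apply_of_moved hs B hpx
      have hcA : cq x' A p := by unfold cq; rw [← hCp]; exact hC
      rw [if_pos hcA, hAB] at h1
      rw [h1] at h2
      by_cases hcB : cq x' B p
      · unfold cq at hcB; rw [← hCp] at hcB; exact hcB
      · rw [if_neg hcB] at h2; exact absurd h2 hpx
    exact Finset.Subset.antisymm (key hA hAB) (key hB hAB.symm)
  · intro z' hz'
    simp only [sndSet, Finset.mem_filter, Finset.mem_univ, true_and] at hz'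
    obtain ⟨hz1, hz2, hz3⟩ := hz'
    obtain ⟨hz, -, hpair⟩ := good_of_ct hs h hz1 rfl hz2 hz3.symm
    -- on common moved points the two agree
    have hagree : ∀ p, x' p ≠ p → z' p ≠ p → z' p = x' p := by
      intro p hp hp'
      rw [← h.snd_cj hs hp, ← hz.snd_cj hs hp', hz3]
    have hstep : ∀ p, x' p ≠ p → z' p ≠ p → z' (x' p) ≠ x' p := by
      intro p hp hp'
      rw [← hagree p hp hp']
      exact fun h' => hp' (z'.injective h')
    have hcyc : ∀ p, x' p ≠ p → z' p ≠ p → ∀ q ∈ (x'.cycleOf p).support, z' q ≠ q := by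
      intro p hp hp' q hq
      rw [mem_support_cycleOf_iff' hp] at hq
      obtain ⟨n, -, -, hn⟩ := hq.exists_pow_eq (f := x')
      have hind : ∀ n : ℕ, x' ((x' ^ n) p) ≠ (x' ^ n) p ∧ z' ((x' ^ n) p) ≠ (x' ^ n) p := by
        intro n
        induction n with
        | zero => exact ⟨hp, hp'⟩
        | succ n ih =>
            rw [pow_succ', Perm.mul_apply]
            exact ⟨fun h' => ih.1 (x'.injective h'), hstep _ ih.1 ih.2⟩
      rw [← hn]
      exact (hind n).2
    refine ⟨x'.cycleFactorsFinset.filter (fun C => C.support ⊆ z'.support),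
      Finset.mem_powerset.2 (Finset.filter_subset _ _), ?_⟩
    set A := x'.cycleFactorsFinset.filter (fun C => C.support ⊆ z'.support) with hA
    have hcq : ∀ p, x' p ≠ p → (cq x' A p ↔ z' p ≠ p) := by
      intro p hp
      simp only [cq, hA, Finset.mem_filter, cycleOf_mem_cycleFactorsFinset_iff, mem_support]
      constructor
      · rintro ⟨-, h2⟩
        exact mem_support.1 (h2 (by rw [mem_support_cycleOf_iff' hp]))
      · intro h2
        exact ⟨hp, fun q hq => mem_support.2 (hcyc p hp h2 q hq)⟩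
    -- the exactly-one property
    have hone : ∀ p, x' p ≠ p → (z' p = p ↔ z' (s p) ≠ s p) := by
      intro p hp
      obtain ⟨h1, h2, h3, h4, h5⟩ := h.snd_trans hp
      constructor
      · intro hzp
        have h6 : (x * x') p ≠ p := by rw [Perm.mul_apply, h5]; exact hp
        have h7 := (hpair p).2 (Or.inl (mem_support.2 h6))
        rcases h7 with h7 | h7
        · exfalso
          rw [mem_support, Perm.mul_apply, hzp] at h7
          exact h7 h2
        · rw [mem_support, Perm.mul_apply] at h7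
          intro h8
          rw [h8] at h7
          exact h7 h3
      · intro h6
        by_contra h7
        exact h6 (hz.snd_trans h7).2.2.2.1
    ext p
    by_cases hp : x' p = p
    · by_cases hsp : x' (s p) = s p
      · -- outside
        rw [Good.flip_apply_of_else hs A hp hsp]
        by_contra h1
        have h1' : z' p ≠ p := fun h' => h1 h'.symm
        obtain ⟨g1, g2, g3, g4, g5⟩ := hz.snd_trans h1'
        have h6 : (x * z') p ≠ p := by rw [Perm.mul_apply, g5]; exact h1'
        have h7 := (hpair p).1 (Or.inl (mem_support.2 h6))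
        rcases h7 with h7 | h7
        · rw [mem_support, Perm.mul_apply, hp] at h7
          exact h7 g2
        · rw [mem_support, Perm.mul_apply, hsp] at h7
          exact h7 g3
      · -- partner of a moved point
        have e1 := h.flip_apply_of_partner hs A hsp
        rw [ss hs] at e1
        rw [e1]
        by_cases hzsp : z' (s p) = s p
        · have hncq : ¬ cq x' A (s p) := by rw [hcq _ hsp]; exact fun h' => h' hzsp
          rw [if_neg hncq]
          have h1 : z' p ≠ p := by
            have := (hone (s p) hsp).1 hzsp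
            rwa [ss hs] at this
          have h2 := hz.snd_cj hs h1
          rw [← h2, hz3]
          exact (h.snd_cj' hs hsp).symm
        · rw [if_pos ((hcq _ hsp).2 hzsp)]
          by_contra h1
          have h1' : z' (s (s p)) ≠ s (s p) := by rw [ss hs]; exact fun h' => h1 h'.symm
          exact hzsp ((hone (s p) hsp).2 h1')
    · rw [h.flip_apply_of_moved hs A hp]
      by_cases hzp : z' p = p
      · rw [if_neg (fun h' => (hcq p hp).1 h' hzp), hzp]
      · rw [if_pos ((hcq p hp).2 hzp), hagree p hp hzp]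

end

end Pool.Agent.Helper89.Foulkes
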