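import Mathlib

/-!
Definitions for the twisted Foulkes modules.
-/

set_option autoImplicit false

namespace Pool.Agent.Helper89.TwistedFoulkes

open Equiv

universe u v w

/-- The wreath product `S_2 ≀ S_m` inside the symmetric group on the `2m` points
`Fin m × Fin 2`: the permutations that permute the `m` pairs `{(i,0), (i,1)}` among
themselves. -/
def wreath (m : ℕ) : Subgroup (Perm (Fin m × Fin 2)) where
  carrier := {g | ∀ x y, (g x).1 = (g y).1 ↔ x.1 = y.1}
  mul_mem' := by
    intro g h hg hh x y
    rw [Perm.mul_apply, Perm.mul_apply, hg, hh]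
  one_mem' := by
    intro x y
    rfl
  inv_mem' := by
    intro g hg x y
    rw [← hg (g⁻¹ x) (g⁻¹ y)]
    simp

section General

variable {F : Type u} {G : Type v} {V : Type w} [Field F] [Group G] [AddCommGroup V] [Module F V]

/-- A block idempotent of the group algebra `F G`: a primitive idempotent of its centre. -/
structure IsBlockIdempotent (e : MonoidAlgebra F G) : Prop where
  central : ∀ x, e * x = x * e
  idem : e * e = e
  ne_zero : e ≠ 0
  primitive : ∀ f : MonoidAlgebra F G, (∀ x, f * x = x * f) → f * f = f → f * e = f →
    f = 0 ∨ f = e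

/-- The subrepresentation `e V` of a representation `V`, for a central element `e`. -/
noncomputable def component (ρ : Representation F G V) (e : MonoidAlgebra F G)
    (he : ∀ x, e * x = x * e) : Subrepresentation ρ where
  toSubmodule := LinearMap.range (ρ.asAlgebraHom e)
  apply_mem_toSubmodule := by
    rintro g v ⟨w, rfl⟩
    refine ⟨ρ g w, ?_⟩
    have h := he (MonoidAlgebra.single g 1)
    have h2 := congrArg (fun x => ρ.asAlgebraHom x w) h
    simpa using h2

/-- The action of `G × S_k` on `V ⊠ sgn`: the space is `V` and `(g, π)` acts as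
`sgn(π) g`. -/
noncomputable def signAction (ρ : Representation F G V) (k : ℕ) :
    Representation F (G × Perm (Fin k)) V where
  toFun x := ((Perm.sign x.2 : ℤ) : F) • ρ x.1
  map_one' := by simp
  map_mul' x y := by
    ext v
    simp only [Prod.snd_mul, Units.val_mul, Int.cast_mul, Prod.fst_mul, map_mul,
      LinearMap.smul_apply, Module.End.mul_apply, map_smul, mul_smul]
    exact smul_comm _ _ _

/-- A representation is decomposable if it is the direct sum of two nonzero
subrepresentations. -/
def IsDecomposable (ρ : Representation F G V) : Prop :=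
  ∃ U₁ U₂ : Subrepresentation ρ, IsCompl U₁ U₂ ∧ U₁ ≠ ⊥ ∧ U₂ ≠ ⊥

/-- The block component `e A` of a module `A`, for a block idempotent `e`. -/
noncomputable def blockComponent (A : Rep.{w} F G) (e : MonoidAlgebra F G)
    (he : IsBlockIdempotent e) : Rep.{w} F G :=
  Rep.of (component A.ρ e he.central).toRepresentation

/-- The outer tensor product `A ⊠ sgn`. -/
noncomputable def outerSign (A : Rep.{w} F G) (k : ℕ) : Rep.{w} F (G × Perm (Fin k)) :=
  Rep.of (signAction A.ρ k)

/-- A module is decomposable if it is the direct sum of two nonzero submodules. -/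
def Decomposable (A : Rep.{w} F G) : Prop := IsDecomposable A.ρ

end General

/-- The Foulkes module `H^{(2^m)}`: the permutation module of `S_{2m}` on the cosets of
`S_2 ≀ S_m`. -/
noncomputable def foulkes (F : Type u) [Field F] (m : ℕ) : Rep.{u} F (Perm (Fin m × Fin 2)) :=
  Rep.of (Representation.ofMulAction F (Perm (Fin m × Fin 2)) (Perm (Fin m × Fin 2) ⧸ wreath m))

end Pool.Agent.Helper89.TwistedFoulkes
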