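import Pool.Agent.Helper89.Foulkes.Count

/-!
Existence of good pairs.
-/

set_option autoImplicit false
set_option linter.unusedSectionVars false

namespace Pool.Agent.Helper89.Foulkes

open Equiv Equiv.Perm

variable {Ω : Type*} [Fintype Ω] [DecidableEq Ω] {s : Perm Ω}

/-- The period of a point. -/
noncomputable def per (r : Perm Ω) (a : Ω) : ℕ := Function.minimalPeriod (r • ·) a

theorem zpow_apply_eq_iff (r : Perm Ω) (a : Ω) (n : ℤ) : (r ^ n) a = a ↔ (per r a : ℤ) ∣ n := by
  have := MulAction.zpow_smul_eq_iff_minimalPeriod_dvd (a := r) (b := a) (n := n)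
  simpa [Perm.smul_def, per] using this

theorem per_pos (r : Perm Ω) (a : Ω) : 0 < per r a := by
  have h1 : (r ^ ((orderOf r : ℕ) : ℤ)) a = a := by
    rw [zpow_natCast, pow_orderOf_eq_one, Perm.one_apply]
  rw [zpow_apply_eq_iff] at h1
  have h2 : 0 < orderOf r := orderOf_pos r
  rcases Nat.eq_zero_or_pos (per r a) with h3 | h3
  · rw [h3] at h1
    have := zero_dvd_iff.1 h1
    omega
  · exact h3

section dihedral

variable {σ : Perm Ω}

theorem s_zpow (hs : s * s = 1) (hσ : σ * σ = 1) (n : ℤ) (p : Ω) :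
    s (((σ * s) ^ n) p) = ((σ * s) ^ (-n)) (s p) := by
  have h1 : s * (σ * s) * s⁻¹ = (σ * s)⁻¹ := by
    have hs' : s⁻¹ = s := s_inv hs
    have hσ' : σ⁻¹ = σ := s_inv hσ
    rw [mul_inv_rev, hs', hσ', mul_assoc, mul_assoc, hs, mul_one]
  have h2 : s * (σ * s) ^ n * s⁻¹ = (σ * s) ^ (-n) := by
    rw [← conj_zpow, h1, inv_zpow']
  have h3 : s * (σ * s) ^ n = (σ * s) ^ (-n) * s := by rw [← h2]; group
  rw [← Perm.mul_apply, h3, Perm.mul_apply]

theorem sigma_zpow (hs : s * s = 1) (hσ : σ * σ = 1) (n : ℤ) (p : Ω) :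
    σ (((σ * s) ^ n) p) = ((σ * s) ^ (1 - n)) (s p) := by
  have h2 : ∀ q, σ q = (σ * s) (s q) := fun q => by rw [Perm.mul_apply, ss hs]
  rw [h2, s_zpow hs hσ, ← Perm.mul_apply, ← zpow_one_add]
  congr 2

end dihedral

theorem zz (r : Perm Ω) (m k : ℤ) (p : Ω) : (r ^ m) ((r ^ k) p) = (r ^ (m + k)) p := by
  rw [← Perm.mul_apply, ← zpow_add]

/-- `g` is killed: there is a sign contradiction for the double coset of `g`. -/
def Killed (s g : Perm Ω) : Prop :=
  ∃ j : Perm Ω, j * s = s * j ∧ (g⁻¹ * j * g) * s = s * (g⁻¹ * j * g) ∧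
    (∃ a b, s a = a ∧ s b = b ∧ a ≠ b ∧ j a = b ∧ j b = a ∧
      ∀ c, s c = c → c ≠ a → c ≠ b → j c = c) ∧
    (∀ c, s c = c → (g⁻¹ * j * g) c = c)

theorem killed_of (hs : s * s = 1) (g : Perm Ω) {a b : Ω} (ha : s a = a) (hb : s b = b)
    (hab : a ≠ b) (hsc : (cj s g * s).SameCycle a b) : Killed s g := by
  classical
  set σ := cj s g with hσdef
  have hσ : σ * σ = 1 := by
    rw [hσdef, cj]
    have : g * s * g⁻¹ * (g * s * g⁻¹) = g * (s * s) * g⁻¹ := by group
    rw [this, hs]; group
  set r := σ * s with hr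
  obtain ⟨n, hn⟩ := hsc
  have hnn : (r ^ (n + n)) a = a := by
    have h1 := s_zpow hs hσ n a
    rw [← hr, hn, hb, ha] at h1
    rw [zpow_add, Perm.mul_apply, hn, h1, ← Perm.mul_apply, ← zpow_add]
    simp
  have hQ : ∀ p, r.SameCycle a ((r ^ n) p) ↔ r.SameCycle a p := fun p => sameCycle_zpow_right
  let j := part (r ^ n) (fun p => r.SameCycle a p) hQ
  have hj1 : ∀ p, r.SameCycle a p → j p = (r ^ n) p := fun p hp => if_pos hp
  have hj2 : ∀ p, ¬ r.SameCycle a p → j p = p := fun p hp => if_neg hp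
  have hs_sc : ∀ p, r.SameCycle a p → r.SameCycle a (s p) := by
    rintro p ⟨k, hk⟩
    refine ⟨-k, ?_⟩
    rw [← hk, s_zpow hs hσ, ha]
  have hσ_sc : ∀ p, r.SameCycle a p → r.SameCycle a (σ p) := by
    rintro p ⟨k, hk⟩
    refine ⟨1 - k, ?_⟩
    rw [← hk, sigma_zpow hs hσ, ha]
  have hjs : ∀ p, j (s p) = s (j p) := by
    intro p
    by_cases hp : r.SameCycle a p
    · rw [hj1 _ (hs_sc p hp), hj1 p hp]
      obtain ⟨k, hk⟩ := hp
      rw [← hk, s_zpow hs hσ, ha, zz r n k, s_zpow hs hσ, ha]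
      rw [← hr, zz r n (-k)]
      have e1 : (r ^ (n + -k)) a = (r ^ (-(n + k))) ((r ^ (n + n)) a) := by
        rw [← Perm.mul_apply, ← zpow_add]; congr 2; ring
      rw [e1, hnn]
    · have hp' : ¬ r.SameCycle a (s p) := by
        intro h'
        have := hs_sc _ h'
        rw [ss hs] at this
        exact hp this
      rw [hj2 _ hp', hj2 p hp]
  have hjσ : ∀ p, j (σ p) = σ (j p) := by
    intro p
    by_cases hp : r.SameCycle a p
    · rw [hj1 _ (hσ_sc p hp), hj1 p hp]
      obtain ⟨k, hk⟩ := hp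
      rw [← hk, sigma_zpow hs hσ, ha, zz r n k, sigma_zpow hs hσ, ha]
      rw [← hr, zz r n (1 - k)]
      have e1 : (r ^ (n + (1 - k))) a = (r ^ (1 - (n + k))) ((r ^ (n + n)) a) := by
        rw [← Perm.mul_apply, ← zpow_add]; congr 2; ring
      rw [e1, hnn]
    · have hp' : ¬ r.SameCycle a (σ p) := by
        intro h'
        have := hσ_sc _ h'
        rw [ss hσ] at this
        exact hp this
      rw [hj2 _ hp', hj2 p hp]
  have hjs' : j * s = s * j := by ext p; exact hjs p
  have hjσ' : j * σ = σ * j := by ext p; exact hjσ p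
  have hN := zpow_apply_eq_iff r a
  set N := per r a with hNdef
  have hN2 : (N : ℤ) ∣ n + n := (hN _).1 hnn
  have hN1 : ¬ (N : ℤ) ∣ n := fun h' => hab (by rw [← hn, (hN _).2 h'])
  refine ⟨j, hjs', ?_, ⟨a, b, ha, hb, hab, ?_, ?_, ?_⟩, ?_⟩
  · have : g⁻¹ * j * g * s = g⁻¹ * (j * σ) * g := by rw [hσdef, cj]; group
    rw [this, hjσ', hσdef, cj]; group
  · rw [hj1 a (SameCycle.refl _ _), hn]
  · rw [hj1 b ⟨n, hn⟩, ← hn, ← Perm.mul_apply, ← zpow_add, hnn]
  · intro c hc hca hcb
    by_cases hp : r.SameCycle a c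
    · exfalso
      obtain ⟨k, hk⟩ := hp
      have hkk : (r ^ (k + k)) a = a := by
        have h1 := s_zpow hs hσ k a
        rw [← hr, hk, hc, ha] at h1
        rw [zpow_add, Perm.mul_apply, hk, h1, ← Perm.mul_apply, ← zpow_add]
        simp
      have hK2 := (hN _).1 hkk
      have hK1 : ¬ (N : ℤ) ∣ k := fun h' => hca (by rw [← hk, (hN _).2 h'])
      have hnk : (N : ℤ) ∣ n + k := by
        obtain ⟨u, hu⟩ := hN2
        obtain ⟨v, hv⟩ := hK2
        have hu' : u % 2 = 1 := by
          by_contra h'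
          have : u % 2 = 0 := by omega
          obtain ⟨w, hw⟩ : ∃ w, u = 2 * w := ⟨u / 2, by omega⟩
          exact hN1 ⟨w, by rw [hw] at hu; linarith⟩
        have hv' : v % 2 = 1 := by
          by_contra h'
          have : v % 2 = 0 := by omega
          obtain ⟨w, hw⟩ : ∃ w, v = 2 * w := ⟨v / 2, by omega⟩
          exact hK1 ⟨w, by rw [hw] at hv; linarith⟩
        obtain ⟨w, hw⟩ : ∃ w, u + v = 2 * w := ⟨(u + v) / 2, by omega⟩
        refine ⟨w, ?_⟩
        have : (n + n) + (k + k) = N * (u + v) := by rw [hu, hv]; ring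
        rw [hw] at this
        linarith
      apply hcb
      have h1 := (hN _).2 hnk
      have h2 : (r ^ k) a = (r ^ (-n)) ((r ^ (n + k)) a) := by
        rw [← Perm.mul_apply, ← zpow_add]; congr 2; ring
      have h3 : (r ^ (-n)) a = (r ^ n) a := by
        conv_lhs => rw [← hnn]
        rw [← Perm.mul_apply, ← zpow_add]; congr 2; ring
      rw [← hk, h2, h1, h3, hn]
    · exact hj2 c hp
  · intro c hc
    have hd : σ (g c) = g c := by rw [hσdef, cj_apply, hc]
    have h1 : j (g c) = g c := by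
      by_cases hp : r.SameCycle a (g c)
      · exfalso
        obtain ⟨k, hk⟩ := hp
        rw [← hk, sigma_zpow hs hσ, ha] at hd
        have h2 : (r ^ (2 * k - 1)) a = a := by
          have : (r ^ (2 * k - 1)) a = (r ^ (-(1 - k))) ((r ^ k) a) := by
            rw [← Perm.mul_apply, ← zpow_add]; congr 2; ring
          rw [this, ← hr] at *
          rw [← hd, ← Perm.mul_apply, ← zpow_add]; simp
        have h3 := (hN _).1 h2
        -- `N` is even
        obtain ⟨u, hu⟩ := hN2
        have hu' : u % 2 = 1 := by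
          by_contra h'
          obtain ⟨w, hw⟩ : ∃ w, u = 2 * w := ⟨u / 2, by omega⟩
          exact hN1 ⟨w, by rw [hw] at hu; linarith⟩
        have hNe : (N : ℤ) % 2 = 0 := by
          by_contra h'
          have h'' : (N : ℤ) % 2 = 1 := by omega
          have h4 : ((N : ℤ) * u) % 2 = 1 := by rw [Int.mul_emod, h'', hu']; rfl
          omega
        have h5 : (2 : ℤ) ∣ 2 * k - 1 := (Int.dvd_of_emod_eq_zero hNe).trans h3
        omega
      · exact hj2 _ hp
    rw [Perm.mul_apply, Perm.mul_apply, h1]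
    simp

theorem sameCycle_of_step {r x : Perm Ω} (hx : ∀ p, r.SameCycle p (x p)) {p q : Ω}
    (h : x.SameCycle p q) : r.SameCycle p q := by
  obtain ⟨n, -, -, hn⟩ := h.exists_pow_eq (f := x)
  rw [← hn]
  clear hn
  induction n with
  | zero => exact SameCycle.refl _ _
  | succ n ih =>
      rw [pow_succ', Perm.mul_apply]
      exact ih.trans (hx _)

section caseB

variable {σ : Perm Ω}

/-- Setting of the second case: two commuting-type involutions with the uniqueness property. -/
structure CB (s σ : Perm Ω) : Prop where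
  hs : s * s = 1
  hσ : σ * σ = 1
  uniq : ∀ a b, s a = a → s b = b → (σ * s).SameCycle a b → a = b
  card : (Finset.univ.filter (fun a => s a = a)).card =
    (Finset.univ.filter (fun a => σ a = a)).card

namespace CB

theorem s_apply (H : CB s σ) {a : Ω} (ha : s a = a) (n : ℤ) :
    s (((σ * s) ^ n) a) = ((σ * s) ^ (-n)) a := by
  rw [s_zpow H.hs H.hσ, ha]

theorem sigma_apply (H : CB s σ) {a : Ω} (ha : s a = a) (n : ℤ) :
    σ (((σ * s) ^ n) a) = ((σ * s) ^ (1 - n)) a := by
  rw [sigma_zpow H.hs H.hσ, ha]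

theorem per_odd (H : CB s σ) {a : Ω} (ha : s a = a) : per (σ * s) a % 2 = 1 := by
  by_contra h
  have h0 := per_pos (σ * s) a
  set N := per (σ * s) a with hN
  obtain ⟨M, hM⟩ : ∃ M, N = 2 * M := ⟨N / 2, by omega⟩
  have h1 : s (((σ * s) ^ (M : ℤ)) a) = ((σ * s) ^ (M : ℤ)) a := by
    rw [H.s_apply ha]
    have h2 : ((σ * s) ^ (2 * (M : ℤ))) a = a := by
      rw [zpow_apply_eq_iff, ← hN, hM]; simp
    conv_lhs => rw [← h2]
    rw [zz]; congr 2; ring
  have h3 := H.uniq _ _ ha h1 ⟨(M : ℤ), rfl⟩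
  have h4 := (zpow_apply_eq_iff (σ * s) a (M : ℤ)).1 h3.symm
  rw [← hN, hM] at h4
  have h5 := Int.le_of_dvd (by omega) h4
  push_cast at h5
  omega

/-- The far end of the component of an `s`-fixed point. -/
noncomputable def far (s σ : Perm Ω) (a : Ω) : Ω :=
  ((σ * s) ^ (-((per (σ * s) a / 2 : ℕ) : ℤ))) a

theorem far_fixed (H : CB s σ) {a : Ω} (ha : s a = a) : σ (far s σ a) = far s σ a := by
  have h := H.per_odd ha
  unfold far
  rw [H.sigma_apply ha]
  set N := per (σ * s) a with hN
  have h2 : ((σ * s) ^ (N : ℤ)) a = a := by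
    rw [zpow_apply_eq_iff]
  conv_rhs => rw [← h2]
  rw [zz]; congr 2
  omega

theorem far_sameCycle (a : Ω) : (σ * s).SameCycle a (far s σ a) := ⟨_, rfl⟩

theorem sigma_fixed_sameCycle (H : CB s σ) {c : Ω} (hc : σ c = c) :
    ∃ a, s a = a ∧ (σ * s).SameCycle a c := by
  obtain ⟨a, ha, hac⟩ := Finset.surj_on_of_inj_on_of_card_le
    (s := Finset.univ.filter (fun a => s a = a))
    (t := Finset.univ.filter (fun a => σ a = a)) (fun a _ => far s σ a) (by
      intro a ha
      simp only [Finset.mem_filter, Finset.mem_univ, true_and] at ha ⊢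
      exact H.far_fixed ha) (by
      intro a b ha hb hab
      simp only [Finset.mem_filter, Finset.mem_univ, true_and] at ha hb
      apply H.uniq a b ha hb
      exact (far_sameCycle a).trans (by rw [hab]; exact (far_sameCycle b).symm)) (by
      rw [H.card]) c (by simpa using hc)
  simp only [Finset.mem_filter, Finset.mem_univ, true_and] at ha
  exact ⟨a, ha, by rw [hac]; exact far_sameCycle a⟩

theorem s_sameCycle (H : CB s σ) {p q : Ω} (h : (σ * s).SameCycle p q) :
    (σ * s).SameCycle (s p) (s q) := by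
  obtain ⟨n, rfl⟩ := h
  exact ⟨-n, by rw [s_zpow H.hs H.hσ]⟩

/-- A point on a component without `s`-fixed point is not in the cycle of its partner. -/
theorem not_sameCycle_s (H : CB s σ) {p : Ω} (hp : ¬ ∃ a, s a = a ∧ (σ * s).SameCycle a p) :
    ¬ (σ * s).SameCycle p (s p) := by
  rintro ⟨n, hn⟩
  rcases Int.even_or_odd n with ⟨k, hk⟩ | ⟨k, hk⟩
  · -- `s`-fixed point
    apply hp
    refine ⟨((σ * s) ^ k) p, ?_, SameCycle.symm ⟨k, rfl⟩⟩
    rw [s_zpow H.hs H.hσ, ← hn, hk, zz]; congr 2; ring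
  · -- `σ`-fixed point
    have h1 : σ (((σ * s) ^ (k + 1)) p) = ((σ * s) ^ (k + 1)) p := by
      rw [sigma_zpow H.hs H.hσ, ← hn, hk, zz]; congr 2; ring
    obtain ⟨a, ha, hac⟩ := H.sigma_fixed_sameCycle h1
    exact hp ⟨a, ha, hac.trans (SameCycle.symm ⟨k + 1, rfl⟩)⟩

/-- The pairing relation on points. -/
theorem rel_equiv (H : CB s σ) :
    Equivalence (fun p q => (σ * s).SameCycle p q ∨ (σ * s).SameCycle p (s q)) where
  refl p := Or.inl (SameCycle.refl _ _)
  symm := by
    rintro p q (h | h)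
    · exact Or.inl h.symm
    · right
      have := H.s_sameCycle h.symm
      rwa [ss H.hs] at this
  trans := by
    rintro p q r (h | h) (h' | h')
    · exact Or.inl (h.trans h')
    · exact Or.inr (h.trans h')
    · exact Or.inr (h.trans (H.s_sameCycle h'))
    · left
      have := H.s_sameCycle h'
      rw [ss H.hs] at this
      exact h.trans this

/-- A representative of each component. -/
noncomputable def rep (H : CB s σ) (p : Ω) : Ω :=
  Quotient.out (s := ⟨_, H.rel_equiv⟩) (Quotient.mk ⟨_, H.rel_equiv⟩ p)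

theorem rep_rel (H : CB s σ) (p : Ω) :
    (σ * s).SameCycle (H.rep p) p ∨ (σ * s).SameCycle (H.rep p) (s p) :=
  Quotient.exact (Quotient.out_eq (s := ⟨_, H.rel_equiv⟩) (Quotient.mk ⟨_, H.rel_equiv⟩ p))

theorem rep_eq (H : CB s σ) {p q : Ω}
    (h : (σ * s).SameCycle p q ∨ (σ * s).SameCycle p (s q)) : H.rep p = H.rep q := by
  unfold rep
  congr 1
  exact Quotient.sound (s := ⟨_, H.rel_equiv⟩) h

/-- The cycle meets an `s`-fixed point. -/
def OnPath (s σ : Perm Ω) (p : Ω) : Prop := ∃ a, s a = a ∧ (σ * s).SameCycle a p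

/-- The moved set. -/
def S (H : CB s σ) (p : Ω) : Prop :=
  (∃ a, s a = a ∧ ∃ i : ℕ, i ≤ per (σ * s) a / 2 ∧ ((σ * s) ^ (i : ℤ)) p = a) ∨
    (¬ OnPath s σ p ∧ (σ * s).SameCycle (H.rep p) p)

theorem S_fixed (H : CB s σ) {a : Ω} (ha : s a = a) : H.S a :=
  Or.inl ⟨a, ha, 0, Nat.zero_le _, by simp⟩

theorem onPath_of (H : CB s σ) {p a : Ω} (ha : s a = a) (n : ℤ) (h : ((σ * s) ^ n) p = a) :
    OnPath s σ p := ⟨a, ha, SameCycle.symm ⟨n, h⟩⟩

theorem S_path_iff (H : CB s σ) {p a : Ω} (ha : s a = a) {i : ℕ} (hi : i < per (σ * s) a)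
    (h : ((σ * s) ^ (i : ℤ)) p = a) : H.S p ↔ i ≤ per (σ * s) a / 2 := by
  constructor
  · rintro (⟨a', ha', i', hi', h'⟩ | ⟨h1, -⟩)
    · have haa : a = a' := by
        apply H.uniq a a' ha ha'
        exact (SameCycle.symm ⟨(i : ℤ), h⟩).trans ⟨(i' : ℤ), h'⟩
      subst haa
      have e1 : p = ((σ * s) ^ (-(i : ℤ))) a := by rw [← h, zz]; simp
      rw [e1, zz] at h'
      have h2 := (zpow_apply_eq_iff _ _ _).1 h'
      have h3 : i' < per (σ * s) a := by
        have := per_pos (σ * s) a
        omega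
      have h4 : (i' : ℤ) + -(i : ℤ) = 0 := by
        apply Int.eq_zero_of_abs_lt_dvd h2
        rw [abs_lt]
        omega
      omega
    · exact absurd (H.onPath_of ha _ h) h1
  · intro h1
    exact Or.inl ⟨a, ha, i, h1, h⟩

theorem exists_index (H : CB s σ) {p a : Ω} (h : (σ * s).SameCycle a p) :
    ∃ i : ℕ, i < per (σ * s) a ∧ ((σ * s) ^ (i : ℤ)) p = a := by
  obtain ⟨n, hn⟩ := h.symm
  have hpos := per_pos (σ * s) a
  refine ⟨(n % (per (σ * s) a : ℤ)).toNat, ?_, ?_⟩
  · have h1 := Int.emod_nonneg n (show (per (σ * s) a : ℤ) ≠ 0 by omega)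
    have h2 := Int.emod_lt_of_pos n (show (0 : ℤ) < per (σ * s) a by omega)
    omega
  · have h1 := Int.emod_nonneg n (show (per (σ * s) a : ℤ) ≠ 0 by omega)
    rw [Int.toNat_of_nonneg h1]
    have e1 : p = ((σ * s) ^ (-n)) a := by rw [← hn, zz]; simp
    rw [e1, zz, zpow_apply_eq_iff]
    refine ⟨-(n / (per (σ * s) a : ℤ)), ?_⟩
    have := Int.mul_ediv_add_emod n (per (σ * s) a : ℤ)
    linarith

theorem S_compl (H : CB s σ) {p : Ω} (hp : s p ≠ p) : H.S (s p) ↔ ¬ H.S p := by
  by_cases hP : OnPath s σ p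
  · obtain ⟨a, ha, hac⟩ := hP
    obtain ⟨i, hi, h⟩ := H.exists_index hac
    have hi0 : i ≠ 0 := by
      rintro rfl
      simp only [Nat.cast_zero, zpow_zero, Perm.one_apply] at h
      rw [h] at hp
      exact hp ha
    have hodd := H.per_odd ha
    have h' : ((σ * s) ^ ((per (σ * s) a - i : ℕ) : ℤ)) (s p) = a := by
      have e1 : p = ((σ * s) ^ (-(i : ℤ))) a := by rw [← h, zz]; simp
      rw [e1, H.s_apply ha, zz, zpow_apply_eq_iff]
      refine ⟨1, ?_⟩
      omega
    rw [H.S_path_iff ha hi h, H.S_path_iff ha (by omega) h']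
    omega
  · have hP' : ¬ OnPath s σ (s p) := by
      rintro ⟨a, ha, hac⟩
      apply hP
      refine ⟨a, ha, ?_⟩
      have := H.s_sameCycle hac
      rwa [ss H.hs, ha] at this
    have e1 : ∀ q, ¬ OnPath s σ q → (H.S q ↔ (σ * s).SameCycle (H.rep q) q) := by
      intro q hq
      constructor
      · rintro (⟨a, ha, i, -, h⟩ | ⟨-, h⟩)
        · exact absurd (H.onPath_of ha _ h) hq
        · exact h
      · intro h; exact Or.inr ⟨hq, h⟩
    rw [e1 _ hP', e1 _ hP]
    have hrep : H.rep (s p) = H.rep p := H.rep_eq (Or.inr (SameCycle.refl _ _))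
    rw [hrep]
    constructor
    · intro h1 h2
      exact H.not_sameCycle_s hP (h2.symm.trans h1)
    · intro h1
      exact (H.rep_rel p).resolve_left h1

theorem S_step (H : CB s σ) {p : Ω} (hp : s p ≠ p) (hS : H.S p) : H.S ((σ * s) p) := by
  rcases hS with ⟨a, ha, i, hi, h⟩ | ⟨h1, h2⟩
  · have hi0 : i ≠ 0 := by
      rintro rfl
      simp only [Nat.cast_zero, zpow_zero, Perm.one_apply] at h
      rw [h] at hp
      exact hp ha
    left
    refine ⟨a, ha, i - 1, by omega, ?_⟩
    have : (σ * s) p = ((σ * s) ^ (1 : ℤ)) p := by rw [zpow_one]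
    rw [this, zz, ← h]
    congr 2
    omega
  · right
    constructor
    · rintro ⟨a, ha, hac⟩
      exact h1 ⟨a, ha, sameCycle_apply_right.1 hac⟩
    · have hrep : H.rep ((σ * s) p) = H.rep p :=
        H.rep_eq (Or.inl (sameCycle_apply_left.2 (SameCycle.refl _ _)))
      rw [hrep]
      exact sameCycle_apply_right.2 h2

theorem S_far (H : CB s σ) {a : Ω} (ha : s a = a) : H.S (far s σ a) := by
  left
  refine ⟨a, ha, per (σ * s) a / 2, le_rfl, ?_⟩
  unfold far
  rw [zz]; simp

open Classical in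
/-- The underlying function of the good permutation. -/
noncomputable def yfun (H : CB s σ) (p : Ω) : Ω :=
  if H.S p then (if s p = p then far s σ p else (σ * s) p) else p

theorem yfun_not (H : CB s σ) {p : Ω} (h : ¬ H.S p) : H.yfun p = p := by
  simp [yfun, h]

theorem yfun_fix (H : CB s σ) {p : Ω} (h : s p = p) : H.yfun p = far s σ p := by
  simp [yfun, H.S_fixed h, h]

theorem yfun_move (H : CB s σ) {p : Ω} (h : H.S p) (hp : s p ≠ p) :
    H.yfun p = (σ * s) p := by
  simp [yfun, h, hp]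

theorem S_yfun (H : CB s σ) {p : Ω} (h : H.S p) : H.S (H.yfun p) := by
  by_cases hp : s p = p
  · rw [H.yfun_fix hp]; exact H.S_far hp
  · rw [H.yfun_move h hp]; exact H.S_step hp h

theorem yfun_mixed (H : CB s σ) {p q : Ω} (hp : s p = p) (hq : s q ≠ q) (hSq : H.S q) :
    H.yfun p ≠ H.yfun q := by
  intro h
  rw [H.yfun_fix hp, H.yfun_move hSq hq] at h
  have h1 := H.far_fixed hp
  rw [h, Perm.mul_apply] at h1
  have h2 : σ (s q) = s q := σ.injective h1
  rw [ss H.hσ] at h1
  have h3 : far s σ p = s q := by rw [h, Perm.mul_apply, h2]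
  have h4 := H.S_far hp
  rw [h3, H.S_compl hq] at h4
  exact h4 hSq

theorem yfun_inj (H : CB s σ) : Function.Injective H.yfun := by
  intro p q h
  by_cases hSp : H.S p <;> by_cases hSq : H.S q
  · by_cases hp : s p = p <;> by_cases hq : s q = q
    · rw [H.yfun_fix hp, H.yfun_fix hq] at h
      apply H.uniq p q hp hq
      exact (far_sameCycle p).trans (by rw [h]; exact (far_sameCycle q).symm)
    · exact absurd h (H.yfun_mixed hp hq hSq)
    · exact absurd h.symm (H.yfun_mixed hq hp hSp)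
    · rw [H.yfun_move hSp hp, H.yfun_move hSq hq] at h
      exact (σ * s).injective h
  · have := H.S_yfun hSp
    rw [h, H.yfun_not hSq] at this
    exact absurd this hSq
  · have := H.S_yfun hSq
    rw [← h, H.yfun_not hSp] at this
    exact absurd this hSp
  · rw [H.yfun_not hSp, H.yfun_not hSq] at h
    exact h

/-- The good permutation. -/
noncomputable def y (H : CB s σ) : Perm Ω :=
  Equiv.ofBijective H.yfun (Finite.injective_iff_bijective.1 H.yfun_inj)

theorem y_apply (H : CB s σ) (p : Ω) : H.y p = H.yfun p := rfl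

theorem y_step (H : CB s σ) (p : Ω) : (σ * s).SameCycle p (H.y p) := by
  rw [y_apply]
  by_cases hS : H.S p
  · by_cases hp : s p = p
    · rw [H.yfun_fix hp]; exact far_sameCycle p
    · rw [H.yfun_move hS hp]; exact sameCycle_apply_right.2 (SameCycle.refl _ _)
  · rw [H.yfun_not hS]

theorem y_s (H : CB s σ) (p : Ω) : H.y (s p) = σ (H.y p) := by
  simp only [y_apply]
  by_cases hp : s p = p
  · rw [hp, H.yfun_fix hp, H.far_fixed hp]
  · by_cases hS : H.S p
    · have h1 : ¬ H.S (s p) := by rw [H.S_compl hp]; exact not_not.2 hS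
      rw [H.yfun_not h1, H.yfun_move hS hp, Perm.mul_apply, ss H.hσ]
    · have h1 : H.S (s p) := by rw [H.S_compl hp]; exact hS
      have h2 : s (s p) ≠ s p := fun h' => hp (s.injective h')
      rw [H.yfun_not hS, H.yfun_move h1 h2, Perm.mul_apply, ss H.hs]

theorem onPath_y (H : CB s σ) (p : Ω) : OnPath s σ (H.y p) ↔ OnPath s σ p := by
  constructor
  · rintro ⟨a, ha, h⟩; exact ⟨a, ha, h.trans (H.y_step p).symm⟩
  · rintro ⟨a, ha, h⟩; exact ⟨a, ha, h.trans (H.y_step p)⟩

open Classical in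
theorem good (H : CB s σ) : ∃ x x' : Perm Ω, Good s x x' ∧ cj s (x * x') = σ := by
  have hQ := H.onPath_y
  have hQ' : ∀ p, ¬ OnPath s σ (H.y p) ↔ ¬ OnPath s σ p := fun p => not_congr (hQ p)
  have hmul := part_mul H.y (OnPath s σ) hQ hQ'
  refine ⟨part H.y (OnPath s σ) hQ, part H.y (fun p => ¬ OnPath s σ p) hQ', ?_, ?_⟩
  · refine ⟨part_disjoint _ _ _ _, ?_, ?_, ?_, ?_⟩
    · intro p hp hy
      rw [hmul] at hy ⊢
      rw [y_apply] at hy ⊢
      have hS : H.S p := by
        by_contra h'
        exact hy (H.yfun_not h')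
      exact H.yfun_not (by rw [H.S_compl hp]; exact not_not.2 hS)
    · intro a ha
      rw [part_apply, if_neg]
      exact not_not.2 ⟨a, ha, SameCycle.refl _ _⟩
    · intro p hp
      rw [part_apply] at hp
      have hP : OnPath s σ p := by
        by_contra h'
        rw [if_neg h'] at hp
        exact hp rfl
      rw [if_pos hP, y_apply] at hp
      have hS : H.S p := by
        by_contra h'
        exact hp (H.yfun_not h')
      rcases hS with ⟨a, ha, i, hi, h⟩ | ⟨h1, -⟩
      · refine ⟨a, ha, ?_⟩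
        clear hp hP
        induction i generalizing p with
        | zero =>
            simp only [Nat.cast_zero, zpow_zero, Perm.one_apply] at h
            rw [h]
        | succ i ih =>
            by_cases hsp : s p = p
            · have : a = p := H.uniq a p ha hsp (SameCycle.symm ⟨_, h⟩)
              rw [this]
            · have hSp : H.S p := Or.inl ⟨a, ha, i + 1, hi, h⟩
              have hP : OnPath s σ p := H.onPath_of ha _ h
              have e1 : part H.y (OnPath s σ) hQ p = (σ * s) p := by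
                rw [part_apply, if_pos hP, y_apply, H.yfun_move hSp hsp]
              have h2 : ((σ * s) ^ (i : ℤ)) ((σ * s) p) = a := by
                rw [← h]
                have : (σ * s) p = ((σ * s) ^ (1 : ℤ)) p := by rw [zpow_one]
                rw [this, zz]
                congr 2
              have h3 := ih (p := (σ * s) p) (by omega) h2
              rw [← e1] at h3
              exact sameCycle_apply_left.1 h3
      · exact absurd hP h1
    · intro a b ha hb hab
      apply H.uniq a b ha hb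
      apply sameCycle_of_step _ hab
      intro p
      rw [part_apply]
      by_cases hP : OnPath s σ p
      · rw [if_pos hP]; exact H.y_step p
      · rw [if_neg hP]
  · rw [hmul]
    ext p
    have := H.y_s (H.y⁻¹ p)
    rw [cj, Perm.mul_apply, Perm.mul_apply, this]
    simp

end CB

end caseB

/-- Every permutation is killed or equivalent to a good pair. -/
theorem killed_or_good (hs : s * s = 1) (g : Perm Ω) :
    Killed s g ∨ ∃ x x' : Perm Ω, Good s x x' ∧ cj s (x * x') = cj s g := by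
  by_cases h : ∃ a b, s a = a ∧ s b = b ∧ a ≠ b ∧ (cj s g * s).SameCycle a b
  · obtain ⟨a, b, ha, hb, hab, hsc⟩ := h
    exact Or.inl (killed_of hs g ha hb hab hsc)
  · right
    have hσ : cj s g * cj s g = 1 := by
      rw [cj]
      have : g * s * g⁻¹ * (g * s * g⁻¹) = g * (s * s) * g⁻¹ := by group
      rw [this, hs]; group
    have H : CB s (cj s g) := by
      refine ⟨hs, hσ, ?_, ?_⟩
      · intro a b ha hb hsc
        by_contra hab
        exact h ⟨a, b, ha, hb, hab, hsc⟩
      · apply Finset.card_bij (fun a _ => g a)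
        · intro a ha
          simp only [Finset.mem_filter, Finset.mem_univ, true_and] at ha ⊢
          rw [cj_apply, ha]
        · intro a _ b _ hab
          exact g.injective hab
        · intro b hb
          simp only [Finset.mem_filter, Finset.mem_univ, true_and] at hb
          refine ⟨g⁻¹ b, ?_, by simp⟩
          simp only [Finset.mem_filter, Finset.mem_univ, true_and]
          rw [Perm.eq_inv_iff_eq]
          exact hb
    exact H.good

end Pool.Agent.Helper89.Foulkes
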