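import Pool.Agent.Helper89.Foulkes.Bridge

/-!
The block components are not decomposable.
-/

set_option autoImplicit false
set_option linter.unusedSectionVars false

namespace Pool.Agent.Helper89.Foulkes

open Representation Equiv Pool.Agent.Helper89.TwistedFoulkes

section Sub

variable {F G V : Type*} [Field F] [Group G] [AddCommGroup V] [Module F V]
  {ρ : Representation F G V}

theorem sub_algebra_mem (U : Subrepresentation ρ) (x : MonoidAlgebra F G) {v : V} (hv : v ∈ U) :
    ρ.asAlgebraHom x v ∈ U := by
  induction x using MonoidAlgebra.induction_linear with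
  | zero => rw [map_zero, LinearMap.zero_apply]; exact U.toSubmodule.zero_mem
  | add x y hx hy => rw [map_add, LinearMap.add_apply]; exact U.toSubmodule.add_mem hx hy
  | single g r =>
      rw [asAlgebraHom_single, LinearMap.smul_apply]
      exact U.toSubmodule.smul_mem r (U.apply_mem_toSubmodule g hv)

theorem coe_algebra (U : Subrepresentation ρ) (x : MonoidAlgebra F G) (w : U.toSubmodule) :
    ((U.toRepresentation.asAlgebraHom x w : U.toSubmodule) : V) = ρ.asAlgebraHom x w := by
  induction x using MonoidAlgebra.induction_linear with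
  | zero => simp
  | add x y hx hy => rw [map_add, LinearMap.add_apply, Submodule.coe_add, hx, hy, map_add,
      LinearMap.add_apply]
  | single g r =>
      rw [asAlgebraHom_single, LinearMap.smul_apply, Submodule.coe_smul, asAlgebraHom_single,
        LinearMap.smul_apply]
      rfl

end Sub

variable {F : Type*} [Field F] {m k : ℕ}

theorem hiota {b : MonoidAlgebra F (Perm (Fin m × Fin 2))} (hb : IsBlockIdempotent b)
    (g : Perm (Fin m × Fin 2) × Perm (Fin k))
    (a : (component (foulkesRep F m) b hb.central).toSubmodule) :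
    ((iota F m k) ∘ₗ (component (foulkesRep F m) b hb.central).toSubmodule.subtype)
      (signAction (component (foulkesRep F m) b hb.central).toRepresentation k g a) =
    MonoidAlgebra.single (Perm.sumCongrHom (Fin m × Fin 2) (Fin k) g) 1 *
    ((iota F m k) ∘ₗ (component (foulkesRep F m) b hb.central).toSubmodule.subtype) a := by
  obtain ⟨g, π⟩ := g
  have h1 : ((signAction (component (foulkesRep F m) b hb.central).toRepresentation k (g, π) a :
      (component (foulkesRep F m) b hb.central).toSubmodule) :
      MonoidAlgebra F (Perm (Fin m × Fin 2) ⧸ wreath m)) =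
      sg F (Perm.sign π) • (foulkesRep F m).asAlgebraHom (MonoidAlgebra.single g 1) a.1 := by
    rw [asAlgebraHom_single, one_smul]
    rfl
  rw [LinearMap.comp_apply, LinearMap.comp_apply, Submodule.subtype_apply,
    Submodule.subtype_apply, h1, map_smul, iota_act, incl_single]
  have h2 : Perm.sumCongrHom (Fin m × Fin 2) (Fin k) (g, π) = Perm.sumCongr g π := rfl
  rw [h2, single_split g π, mul_assoc, iota_sign, mul_smul_comm]

theorem foulkes_gen (y : MonoidAlgebra F (Perm (Fin m × Fin 2) ⧸ wreath m)) :
    ∃ x : MonoidAlgebra F (Perm (Fin m × Fin 2)),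
      y = (foulkesRep F m).asAlgebraHom x (MonoidAlgebra.single (QuotientGroup.mk 1) 1) := by
  induction y using MonoidAlgebra.induction_linear with
  | zero => exact ⟨0, by simp⟩
  | add y z hy hz =>
      obtain ⟨x1, h1⟩ := hy
      obtain ⟨x2, h2⟩ := hz
      exact ⟨x1 + x2, by rw [map_add, LinearMap.add_apply, ← h1, ← h2]⟩
  | single c r =>
      obtain ⟨g, rfl⟩ := QuotientGroup.mk_surjective c
      refine ⟨MonoidAlgebra.single g r, ?_⟩
      rw [asAlgebraHom_single, LinearMap.smul_apply, foulkesRep, ofMulAction_single]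
      have h1 : (g • (QuotientGroup.mk 1 : Perm (Fin m × Fin 2) ⧸ wreath m)) =
          QuotientGroup.mk (g * 1) := rfl
      rw [h1, mul_one, MonoidAlgebra.smul_single', mul_one]

/-- The generator of `b H`. -/
noncomputable def a0 {b : MonoidAlgebra F (Perm (Fin m × Fin 2))} (hb : IsBlockIdempotent b) :
    (component (foulkesRep F m) b hb.central).toSubmodule :=
  ⟨(foulkesRep F m).asAlgebraHom b (MonoidAlgebra.single (QuotientGroup.mk 1) 1), ⟨_, rfl⟩⟩

theorem block_gen {b : MonoidAlgebra F (Perm (Fin m × Fin 2))} (hb : IsBlockIdempotent b)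
    (a : (component (foulkesRep F m) b hb.central).toSubmodule) :
    ∃ x : MonoidAlgebra F (Perm (Fin m × Fin 2)),
      a = (component (foulkesRep F m) b hb.central).toRepresentation.asAlgebraHom x (a0 hb) := by
  obtain ⟨a, y, hy⟩ := a
  obtain ⟨x, hx⟩ := foulkes_gen y
  refine ⟨x, ?_⟩
  apply Subtype.ext
  rw [coe_algebra]
  simp only [a0]
  rw [← hy, hx, ← Module.End.mul_apply, ← Module.End.mul_apply, ← map_mul, ← map_mul, hb.central]

theorem mk_algebra_gen {V : Type*} [AddCommGroup V] [Module F V]
    (ρ : Representation F (Perm (Fin m × Fin 2)) V)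
    (h : Perm ((Fin m × Fin 2) ⊕ Fin k)) (x : MonoidAlgebra F (Perm (Fin m × Fin 2))) (a : V) :
    IndV.mk (Perm.sumCongrHom (Fin m × Fin 2) (Fin k)) (signAction ρ k) h (ρ.asAlgebraHom x a) =
    (Representation.ind (Perm.sumCongrHom (Fin m × Fin 2) (Fin k)) (signAction ρ k)).asAlgebraHom
      (MonoidAlgebra.single h⁻¹ 1 * incl F _ _ x)
      (IndV.mk (Perm.sumCongrHom (Fin m × Fin 2) (Fin k)) (signAction ρ k) 1 a) := by
  induction x using MonoidAlgebra.induction_linear with
  | zero => rw [map_zero, LinearMap.zero_apply, map_zero, map_zero, mul_zero, map_zero,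
      LinearMap.zero_apply]
  | add x y hx hy => rw [map_add, LinearMap.add_apply, map_add, hx, hy, map_add, mul_add, map_add,
      LinearMap.add_apply]
  | single g r =>
      rw [asAlgebraHom_single, LinearMap.smul_apply, map_smul, incl_single,
        MonoidAlgebra.single_mul_single, one_mul, asAlgebraHom_single, LinearMap.smul_apply]
      congr 1
      rw [ind_mk, one_mul]
      have h1 : ρ g a = signAction ρ k (g, 1) a := by
        change ρ g a = (((Perm.sign (1 : Perm (Fin k)) : ℤ) : F) • ρ g) a
        rw [Perm.sign_one]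
        simp
      rw [h1]
      have h2 := mk_rel (Perm.sumCongrHom (Fin m × Fin 2) (Fin k))
        (signAction ρ k) (g, 1) ((h⁻¹ * Perm.sumCongr g 1)⁻¹) a
      rw [← h2]
      congr 2
      have h3 : Perm.sumCongrHom (Fin m × Fin 2) (Fin k) (g, 1) = Perm.sumCongr g 1 := rfl
      rw [h3]
      group

theorem ind_gen {b : MonoidAlgebra F (Perm (Fin m × Fin 2))} (hb : IsBlockIdempotent b)
    (w : IndV (Perm.sumCongrHom (Fin m × Fin 2) (Fin k))
      (signAction (component (foulkesRep F m) b hb.central).toRepresentation k)) :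
    ∃ x, (Representation.ind (Perm.sumCongrHom (Fin m × Fin 2) (Fin k))
      (signAction (component (foulkesRep F m) b hb.central).toRepresentation k)).asAlgebraHom x
      (IndV.mk (Perm.sumCongrHom (Fin m × Fin 2) (Fin k))
      (signAction (component (foulkesRep F m) b hb.central).toRepresentation k) 1 (a0 hb)) = w := by
  set R := (Representation.ind (Perm.sumCongrHom (Fin m × Fin 2) (Fin k))
      (signAction (component (foulkesRep F m) b hb.central).toRepresentation k)) with hR
  set v0 := (IndV.mk (Perm.sumCongrHom (Fin m × Fin 2) (Fin k))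
      (signAction (component (foulkesRep F m) b hb.central).toRepresentation k) 1 (a0 hb)) with hv0
  set L : MonoidAlgebra F (Perm ((Fin m × Fin 2) ⊕ Fin k)) →ₗ[F] IndV
      (Perm.sumCongrHom (Fin m × Fin 2) (Fin k))
      (signAction (component (foulkesRep F m) b hb.central).toRepresentation k) :=
    (LinearMap.applyₗ v0) ∘ₗ R.asAlgebraHom.toLinearMap with hL
  have hLa : ∀ x, L x = R.asAlgebraHom x v0 := fun x => rfl
  have h : (LinearMap.range L).mkQ = 0 := by
    apply IndV.hom_ext
    intro h
    ext a
    rw [LinearMap.comp_apply, LinearMap.zero_comp, LinearMap.zero_apply, Submodule.mkQ_apply,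
      Submodule.Quotient.mk_eq_zero]
    obtain ⟨x, hx⟩ := block_gen hb a
    refine ⟨MonoidAlgebra.single h⁻¹ 1 * incl F _ _ x, ?_⟩
    rw [hLa, hx, mk_algebra_gen]
  have htop : LinearMap.range L = ⊤ := by
    rw [← Submodule.ker_mkQ (LinearMap.range L), h, LinearMap.ker_zero]
  have : w ∈ LinearMap.range L := by rw [htop]; trivial
  obtain ⟨x, hx⟩ := this
  exact ⟨x, hx⟩

/-- The main statement. -/
theorem not_decomposable (p : ℕ) (hp : p.Prime) (hp2 : p ≠ 2) [CharP F p]
    {b : MonoidAlgebra F (Perm (Fin m × Fin 2))} (hb : IsBlockIdempotent b)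
    {B : MonoidAlgebra F (Perm ((Fin m × Fin 2) ⊕ Fin k))} (hB : IsBlockIdempotent B) :
    ¬ IsDecomposable (component (Representation.ind (Perm.sumCongrHom (Fin m × Fin 2) (Fin k))
      (signAction (component (foulkesRep F m) b hb.central).toRepresentation k)) B hB.central).toRepresentation := by
  have : Fact p.Prime := ⟨hp⟩
  have h2 : (2 : F) ≠ 0 := by
    intro h
    have h3 : ((2 : ℕ) : F) = 0 := by exact_mod_cast h
    rw [CharP.cast_eq_zero_iff F p] at h3
    have := (Nat.prime_dvd_prime_iff_eq hp Nat.prime_two).1 h3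
    exact hp2 this
  set φ := Perm.sumCongrHom (Fin m × Fin 2) (Fin k) with hφ
  set Vb := component (foulkesRep F m) b hb.central with hVb
  set σ := signAction Vb.toRepresentation k with hσ
  set R := Representation.ind φ σ with hR
  set W := component R B hB.central with hW
  set ι := (iota F m k) ∘ₗ Vb.toSubmodule.subtype with hι
  have hιg : ∀ g a, ι (σ g a) = MonoidAlgebra.single (φ g) 1 * ι a := hiota hb
  set Θ := Theta φ σ ι hιg with hΘ
  have hΘinj : Function.Injective Θ := by
    apply Theta_injective
    · intro x y hxy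
      apply Subtype.ext
      exact iota_injective hxy
    · intro a x hx
      exact iota_supp a.1 x hx
  have hΘa : ∀ x w, Θ (R.asAlgebraHom x w) = x * Θ w := fun x w => Theta_algebra x w
  set v0 := IndV.mk φ σ 1 (a0 hb) with hv0
  have hΘv0 : Θ v0 = incl F _ _ b * Pel (sk m k) F := by
    rw [hv0, hΘ, Theta_mk, inv_one]
    have h1 : (MonoidAlgebra.single (1 : Perm ((Fin m × Fin 2) ⊕ Fin k)) (1 : F)) = 1 := rfl
    rw [h1, one_mul, hι, LinearMap.comp_apply, Submodule.subtype_apply]
    simp only [a0]
    rw [iota_act, iota_mk, one_smul]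
    have h3 : (Perm.sumCongr 1 1 : Perm ((Fin m × Fin 2) ⊕ Fin k)) = 1 := Perm.sumCongr_one
    rw [h3, h1, one_mul]
  have hgen : ∀ w, ∃ x, R.asAlgebraHom x v0 = w := ind_gen hb
  set v := R.asAlgebraHom B v0 with hv
  have hΘv : Θ v = B * incl F _ _ b * Pel (sk m k) F := by
    rw [hv, hΘa, hΘv0, mul_assoc]
  have hvW : v ∈ W.toSubmodule := ⟨v0, rfl⟩
  have hgenW : ∀ w ∈ W.toSubmodule, ∃ x, R.asAlgebraHom x v = w := by
    rintro w ⟨w', rfl⟩
    obtain ⟨x, rfl⟩ := hgen w'
    refine ⟨x, ?_⟩
    rw [hv, ← Module.End.mul_apply, ← Module.End.mul_apply, ← map_mul, ← map_mul, hB.central]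
  rintro ⟨U₁, U₂, hU, hU1, hU2⟩
  -- decompose the generator
  set vW : W.toSubmodule := ⟨v, hvW⟩ with hvWdef
  have hsup : vW ∈ (U₁ ⊔ U₂).toSubmodule := by
    rw [hU.sup_eq_top]
    trivial
  rw [Subrepresentation.toSubmodule_sup, Submodule.mem_sup] at hsup
  obtain ⟨u1, hu1, u2, hu2, hu⟩ := hsup
  have hu' : (u1 : IndV φ σ) + u2 = v := congrArg Subtype.val hu
  have hdisj : ∀ u ∈ U₁, u ∈ U₂ → u = 0 := by
    intro u h1 h2
    have h3 : u ∈ U₁ ⊓ U₂ := ⟨h1, h2⟩
    rw [hU.inf_eq_bot] at h3
    exact h3
  obtain ⟨x1, hx1⟩ := hgenW u1.1 u1.2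
  have hcore := core (s := sk m k) sk_sk h2 (B := B) (b := incl F _ _ b)
    (v1 := Θ u1) (v2 := Θ u2) (a1 := x1) hB.central hB.idem
    (by rw [← map_mul, hb.idem])
    (incl_comm pair_ne hb.central)
    (by
      intro β
      rw [← incl_csum pair_ne]
      have h3 : Commute b (csum F (cls β)) := hb.central _
      exact h3.map (incl F _ _))
    (by
      intro α
      exact exists_scalar p hB.central hB.idem hB.ne_zero hB.primitive
        (csum_class_commute α) (csum_nilpotent p α))
    (by
      intro β
      obtain ⟨c, hc⟩ := exists_scalar (F := F) p hb.central hb.idem hb.ne_zero hb.primitive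
        (csum_class_commute β) (csum_nilpotent p β)
      refine ⟨c, ?_⟩
      rw [← incl_csum pair_ne]
      have h3 := hc.map (incl F (Fin m × Fin 2) (Fin k))
      rwa [map_mul, map_sub, AlgHom.commutes] at h3)
    (by rw [← map_add, hu', hΘv])
    (by rw [← hΘv, ← hΘa, hx1])
    (by
      intro x y hxy
      rw [← hΘa, ← hΘa, ← map_add] at hxy
      have h3 : R.asAlgebraHom x u1 + R.asAlgebraHom y u2 = 0 := hΘinj (by rw [hxy, map_zero])
      have h4 : W.toRepresentation.asAlgebraHom x u1 +
          W.toRepresentation.asAlgebraHom y u2 = 0 := by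
        apply Subtype.ext
        rw [Submodule.coe_add, coe_algebra, coe_algebra, h3]
        rfl
      have h5 : W.toRepresentation.asAlgebraHom x u1 = 0 := by
        apply hdisj _ (sub_algebra_mem U₁ x hu1)
        have h6 : W.toRepresentation.asAlgebraHom x u1 =
            - W.toRepresentation.asAlgebraHom y u2 := eq_neg_of_add_eq_zero_left h4
        rw [h6]
        exact U₂.toSubmodule.neg_mem (sub_algebra_mem U₂ y hu2)
      have h6 : W.toRepresentation.asAlgebraHom y u2 = 0 := by
        rw [h5, zero_add] at h4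
        exact h4
      have h7 := congrArg Subtype.val h5
      have h8 := congrArg Subtype.val h6
      rw [coe_algebra] at h7 h8
      rw [← hΘa, ← hΘa]
      constructor
      · rw [h7]; exact map_zero _
      · rw [h8]; exact map_zero _)
  have hmem : ∀ U : Subrepresentation W.toRepresentation, vW ∈ U → U = ⊤ := by
    intro U hvU
    rw [eq_top_iff]
    intro w _
    obtain ⟨x, hx⟩ := hgenW w.1 w.2
    have h3 : w = W.toRepresentation.asAlgebraHom x vW := by
      apply Subtype.ext
      rw [coe_algebra, hx]
    rw [h3]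
    exact sub_algebra_mem U x hvU
  rcases hcore with h | h
  · have h3 : (u1 : IndV φ σ) = 0 := hΘinj (by rw [h, map_zero])
    have h4 : u1 = 0 := Subtype.ext h3
    rw [h4, zero_add] at hu
    have h5 := hmem U₂ (by rw [← hu]; exact hu2)
    apply hU1
    have h6 := hU.inf_eq_bot
    rwa [h5, inf_top_eq] at h6
  · have h3 : (u2 : IndV φ σ) = 0 := hΘinj (by rw [h, map_zero])
    have h4 : u2 = 0 := Subtype.ext h3
    rw [h4, add_zero] at hu
    have h5 := hmem U₁ (by rw [← hu]; exact hu1)
    apply hU2
    have h6 := hU.inf_eq_bot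
    rwa [h5, top_inf_eq] at h6

end Pool.Agent.Helper89.Foulkes
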