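import Mathlib

/-!
Combinatorics of pairs of permutations relative to a fixed involution `s`.
-/

set_option autoImplicit false
set_option linter.unusedSectionVars false

namespace Pool.Agent.Helper89.Foulkes

open Equiv Equiv.Perm

variable {Ω : Type*} [Fintype Ω] [DecidableEq Ω]

/-- Functions constant along `z`. -/
def inv (z : Perm Ω) : Submodule ℚ (Ω → ℚ) where
  carrier := {f | ∀ p, f (z p) = f p}
  add_mem' := by
    intro a b ha hb p
    simp only [Set.mem_ofPred_eq] at ha hb
    simp [ha p, hb p]
  zero_mem' := by intro p; rfl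
  smul_mem' := by
    intro c a ha p
    simp only [Set.mem_ofPred_eq] at ha
    simp [ha p]

theorem mem_inv {z : Perm Ω} {f : Ω → ℚ} : f ∈ inv z ↔ ∀ p, f (z p) = f p := Iff.rfl

theorem inv_symm {z : Perm Ω} {f : Ω → ℚ} (h : f ∈ inv z) (p : Ω) : f (z⁻¹ p) = f p := by
  have := h (z⁻¹ p)
  simpa using this.symm

theorem inv_zpow {z : Perm Ω} {f : Ω → ℚ} (h : f ∈ inv z) (n : ℤ) (p : Ω) :
    f ((z ^ n) p) = f p := by
  induction n with
  | zero => simp
  | succ n ih =>
      rw [zpow_add, zpow_one, zpow_natCast] at *
      have : (z ^ n * z) p = z ((z ^ n) p) := by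
        rw [← pow_succ, pow_succ', Perm.mul_apply]
      rw [this, h]
      exact ih
  | pred n ih =>
      have : (z ^ (-(n : ℤ) - 1)) p = z⁻¹ ((z ^ (-(n : ℤ))) p) := by
        rw [← Perm.mul_apply, ← zpow_neg_one, ← zpow_add]
        congr 2
        ring
      rw [this, inv_symm h]
      exact ih

/-- The good pairs. -/
structure Good (s x x' : Perm Ω) : Prop where
  disj : Disjoint x x'
  trans : ∀ p, s p ≠ p → (x * x') p ≠ p → (x * x') (s p) = s p
  fix' : ∀ a, s a = a → x' a = a
  ex : ∀ p, x p ≠ p → ∃ a, s a = a ∧ x.SameCycle p a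
  uniq : ∀ a b, s a = a → s b = b → x.SameCycle a b → a = b

theorem disj_fix_mul {x x' : Perm Ω} (h : Disjoint x x') {p : Ω} (hp : (x * x') p = p) :
    x p = p ∧ x' p = p := by
  rcases h p with h1 | h1
  · refine ⟨h1, ?_⟩
    simp only [Perm.mul_apply] at hp
    by_contra h2
    have h3 : x (x' p) = x' p := by
      rcases h (x' p) with h4 | h4
      · exact h4
      · exact absurd (x'.injective h4) h2
    exact h2 (by rw [← h3]; exact hp)
  · refine ⟨?_, h1⟩
    simpa [Perm.mul_apply, h1] using hp

theorem inv_inf_of_disjoint {x x' : Perm Ω} (h : Disjoint x x') :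
    inv (x * x') = inv x ⊓ inv x' := by
  ext f
  simp only [Submodule.mem_inf, mem_inv]
  constructor
  · intro hf
    constructor
    · intro p
      rcases h p with h1 | h1
      · rw [h1]
      · have := hf p
        simpa [Perm.mul_apply, h1] using this
    · intro p
      rcases h p with h1 | h1
      · have h2 := hf p
        by_cases h5 : x' p = p
        · rw [h5]
        · have h3 : x (x' p) = x' p := by
            rcases h (x' p) with h4 | h4
            · exact h4
            · exact absurd (x'.injective h4) h5
          simpa [Perm.mul_apply, h3] using h2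
      · rw [h1]
  · rintro ⟨h1, h2⟩ p
    rw [Perm.mul_apply, h1, h2]

theorem inv_sup_of_disjoint {x x' : Perm Ω} (h : Disjoint x x') :
    inv x ⊔ inv x' = ⊤ := by
  rw [eq_top_iff]
  intro f _
  rw [Submodule.mem_sup]
  refine ⟨fun p => if x p = p then f p else 0, ?_, fun p => if x p = p then 0 else f p, ?_, ?_⟩
  · intro p
    by_cases hp : x p = p
    · simp [hp]
    · have : x (x p) ≠ x p := fun h' => hp (x.injective h')
      simp [hp, this]
  · intro p
    by_cases hp : x' p = p
    · simp [hp]
    · have h1 : x p = p := (h p).resolve_right hp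
      have h2 : x (x' p) = x' p := by
        rcases h (x' p) with h4 | h4
        · exact h4
        · exact absurd (x'.injective h4) hp
      simp [h1, h2]
  · ext p
    by_cases hp : x p = p <;> simp [hp]

theorem finrank_disjoint {x x' : Perm Ω} (h : Disjoint x x') :
    Module.finrank ℚ (inv (x * x')) + Fintype.card Ω
      = Module.finrank ℚ (inv x) + Module.finrank ℚ (inv x') := by
  have := Submodule.finrank_sup_add_finrank_inf_eq (inv x) (inv x')
  rw [inv_sup_of_disjoint h, ← inv_inf_of_disjoint h, finrank_top, Module.finrank_fintype_fun_eq_card] at this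
  omega

variable {s : Perm Ω}

theorem ss (hs : s * s = 1) (p : Ω) : s (s p) = p := by
  rw [← Perm.mul_apply, hs, Perm.one_apply]

theorem Good.inv_sup (hs : s * s = 1) {x x' : Perm Ω} (h : Good s x x') :
    inv s ⊔ inv (x * x') = ⊤ := by
  set y := x * x' with hy
  rw [eq_top_iff]
  intro f _
  rw [Submodule.mem_sup]
  -- the s-invariant part agrees with f on the support of y
  let f1 : Ω → ℚ := fun p => if y p ≠ p then f p else if y (s p) ≠ s p then f (s p) else 0
  have hf1 : f1 ∈ inv s := by
    intro p
    simp only [f1, ss hs]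
    by_cases hsp : s p = p
    · simp only [hsp]
    · by_cases h1 : y p = p
      · by_cases h2 : y (s p) = s p
        · simp [h1, h2]
        · simp [h1, h2]
      · have h2 : y (s p) = s p := h.trans p hsp h1
        simp [h1, h2]
  refine ⟨f1, hf1, f - f1, ?_, by simp⟩
  intro p
  by_cases hp : y p = p
  · rw [hp]
  · have hp' : y (y p) ≠ y p := fun h' => hp (y.injective h')
    simp [f1, hp, hp']

theorem Good.finrank_eq (hs : s * s = 1) {x x' : Perm Ω} (h : Good s x x') :
    Module.finrank ℚ (inv s ⊓ inv (x * x') : Submodule ℚ (Ω → ℚ)) + 2 * Fintype.card Ω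
      = Module.finrank ℚ (inv s) + Module.finrank ℚ (inv x) + Module.finrank ℚ (inv x') := by
  have h1 := Submodule.finrank_sup_add_finrank_inf_eq (inv s) (inv (x * x'))
  rw [h.inv_sup hs, finrank_top, Module.finrank_fintype_fun_eq_card] at h1
  have h2 := finrank_disjoint h.disj
  omega

theorem finrank_ge (z z' : Perm Ω) :
    Module.finrank ℚ (inv s) + Module.finrank ℚ (inv z) + Module.finrank ℚ (inv z') ≤
    Module.finrank ℚ (inv s ⊓ (inv z ⊓ inv z') : Submodule ℚ (Ω → ℚ)) + 2 * Fintype.card Ω := by
  have h1 := Submodule.finrank_sup_add_finrank_inf_eq (inv s) (inv z ⊓ inv z')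
  have h2 := Submodule.finrank_sup_add_finrank_inf_eq (inv z) (inv z')
  have h3 := Submodule.finrank_le (inv s ⊔ (inv z ⊓ inv z'))
  have h4 := Submodule.finrank_le (inv z ⊔ inv z')
  rw [Module.finrank_fintype_fun_eq_card] at h3 h4
  omega

/-- conjugate of `s` by `g`. -/
def cj (s g : Perm Ω) : Perm Ω := g * s * g⁻¹

theorem cj_apply (g : Perm Ω) (p : Ω) : cj s g (g p) = g (s p) := by
  simp [cj, Perm.mul_apply]

theorem Good.cj_apply_s (hs : s * s = 1) {x x' : Perm Ω} (h : Good s x x') {p : Ω}
    (hp : s p ≠ p) (hy : (x * x') p ≠ p) : cj s (x * x') (s p) = (x * x') p := by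
  have h1 : (x * x') (s p) = s p := h.trans p hp hy
  have h2 := cj_apply (s := s) (x * x') (s p)
  rw [h1, ss hs] at h2
  exact h2

/-- For a good pair, functions invariant under `s` and the conjugate involution are
invariant under both members of the pair. -/
theorem Good.inv_eq (hs : s * s = 1) {x x' : Perm Ω} (h : Good s x x') :
    inv s ⊓ inv (cj s (x * x')) = inv s ⊓ inv (x * x') := by
  apply le_antisymm
  · rintro f ⟨hf1, hf2⟩
    refine ⟨hf1, ?_⟩
    have key : ∀ p, s p ≠ p → f ((x * x') p) = f p := by
      intro p hp
      by_cases hy : (x * x') p = p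
      · rw [hy]
      · rw [← h.cj_apply_s hs hp hy, hf2, hf1]
    intro p
    by_cases hp : s p ≠ p
    · exact key p hp
    · push Not at hp
      have hxp : x' p = p := h.fix' p hp
      have e1 : (x * x') p = x p := by rw [Perm.mul_apply, hxp]
      rw [e1]
      by_cases hx : x p = p
      · rw [hx]
      -- walk along the cycle of `p`
      have hsc : x.SameCycle (x p) p := (Equiv.Perm.sameCycle_apply_left.2 (Equiv.Perm.SameCycle.refl x p))
      obtain ⟨n, -, -, hn⟩ := hsc.exists_pow_eq x
      have hex : ∃ n : ℕ, (x ^ n) (x p) = p := ⟨n, hn⟩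
      have hmin : ∀ m, m < Nat.find hex → ¬ ((x ^ m) (x p) = p) :=
        fun m hm => Nat.find_min hex hm
      have hspec := Nat.find_spec hex
      set N := Nat.find hex
      have walk : ∀ j, j ≤ N → f ((x ^ j) (x p)) = f (x p) := by
        intro j
        induction j with
        | zero => intro _; simp
        | succ j ih =>
            intro hj
            have hne : (x ^ j) (x p) ≠ p := hmin j (by omega)
            have hsc2 : x.SameCycle p ((x ^ j) (x p)) := by
              refine ⟨(j : ℤ) + 1, ?_⟩
              rw [zpow_add, zpow_one, Perm.mul_apply, zpow_natCast]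
            have hns : s ((x ^ j) (x p)) ≠ (x ^ j) (x p) := by
              intro hs'
              exact hne (h.uniq _ _ hp hs' hsc2).symm
            have hx2 : x ((x ^ j) (x p)) ≠ (x ^ j) (x p) := by
              intro h'
              have h3 : x.SameCycle ((x ^ j) (x p)) p := hsc2.symm
              exact hx ((h3.apply_eq_self_iff).1 h')
            have hx3 : x' ((x ^ j) (x p)) = (x ^ j) (x p) := (h.disj _).resolve_left hx2
            have h4 := key _ hns
            rw [Perm.mul_apply, hx3] at h4
            rw [pow_succ', Perm.mul_apply, h4]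
            exact ih (by omega)
      have h5 := walk N le_rfl
      rw [hspec] at h5
      exact h5.symm
  · rintro f ⟨hf1, hf2⟩
    refine ⟨hf1, ?_⟩
    intro p
    have h1 : f (cj s (x * x') p) = f ((x * x') (s ((x * x')⁻¹ p))) := rfl
    rw [h1, hf2, hf1, inv_symm hf2]

theorem inv_le_cj (z z' : Perm Ω) :
    inv s ⊓ (inv z ⊓ inv z') ≤ inv s ⊓ inv (cj s (z * z')) := by
  rintro f ⟨hf1, hf2, hf3⟩
  refine ⟨hf1, ?_⟩
  intro p
  have h1 : cj s (z * z') p = z (z' (s (z'⁻¹ (z⁻¹ p)))) := by
    simp [cj, Perm.mul_apply, mul_inv_rev]
  rw [h1, hf2, hf3, hf1, inv_symm hf3, inv_symm hf2]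

theorem not_mem_support_iff' {z : Perm Ω} {p : Ω} : z p = p ↔ p ∉ z.support := by
  simp

theorem card_ct (z : Perm Ω) : z.cycleType.card = z.cycleFactorsFinset.card := by
  rw [cycleType_def]
  simp

/-- In a good pair the cycles of the first member correspond to moved `s`-fixed points. -/
theorem Good.card_cycleType {x x' : Perm Ω} (h : Good s x x') :
    (Finset.univ.filter (fun a => s a = a ∧ x a ≠ a)).card = x.cycleType.card := by
  rw [card_ct]
  apply Finset.card_bij (fun a _ => x.cycleOf a)
  · intro a ha
    simp only [Finset.mem_filter, Finset.mem_univ, true_and] at ha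
    rw [cycleOf_mem_cycleFactorsFinset_iff, mem_support]
    exact ha.2
  · intro a ha b hb hab
    simp only [Finset.mem_filter, Finset.mem_univ, true_and] at ha hb
    apply h.uniq a b ha.1 hb.1
    rw [sameCycle_iff_cycleOf_eq_of_mem_support (mem_support.2 ha.2) (mem_support.2 hb.2)]
    exact hab
  · intro c hc
    obtain ⟨p, hp⟩ : ∃ p, p ∈ c.support := by
      have hcyc := (mem_cycleFactorsFinset_iff.1 hc).1
      exact hcyc.nonempty_support
    have hcp : c = x.cycleOf p := cycle_is_cycleOf hp hc
    have hxp : x p ≠ p := by
      have := mem_cycleFactorsFinset_support_le hc hp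
      exact mem_support.1 this
    obtain ⟨a, ha, hsa⟩ := h.ex p hxp
    refine ⟨a, ?_, ?_⟩
    · simp only [Finset.mem_filter, Finset.mem_univ, true_and]
      refine ⟨ha, ?_⟩
      intro h'
      exact hxp ((hsa.apply_eq_self_iff).2 h')
    · rw [hcp]; exact (hsa.cycleOf_eq).symm

/-- The indicator function of a set of points. -/
def ind (A : Finset Ω) : Ω → ℚ := fun p => if p ∈ A then 1 else 0

theorem ind_mem_inv {A : Finset Ω} {z : Perm Ω} (h : ∀ p, z p ∈ A ↔ p ∈ A) : ind A ∈ inv z := by
  intro p
  simp [ind, h p]

/-- The support data comparison. -/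
theorem support_step (hs : s * s = 1) {t t' z z' : Perm Ω} (h : Good s t t')
    (hW : inv s ⊓ (inv z ⊓ inv z') = inv s ⊓ inv (t * t')) :
    ∃ φ : Ω → Ω, (∀ p ∈ (t * t').support, φ p ∈ z.support ∪ z'.support ∧ (φ p = p ∨ φ p = s p)) ∧
      Set.InjOn φ (t * t').support := by
  set y := t * t' with hy
  refine ⟨fun p => if p ∈ z.support ∪ z'.support then p else s p, ?_, ?_⟩
  · intro p hp
    by_cases hpU : p ∈ z.support ∪ z'.support
    · refine ⟨?_, Or.inl ?_⟩
      · simp only [hpU, if_true]
      · simp only [hpU, if_true]
    · simp only [hpU, if_false]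
      refine ⟨?_, Or.inr trivial⟩
      by_contra hspU
      simp only [Finset.mem_union, mem_support, not_or, not_not] at hpU hspU
      have hf : ind {p, s p} ∈ inv s ⊓ (inv z ⊓ inv z') := by
        refine ⟨ind_mem_inv ?_, ind_mem_inv ?_, ind_mem_inv ?_⟩
        · intro q
          simp only [Finset.mem_insert, Finset.mem_singleton]
          constructor
          · rintro (h1 | h1)
            · right; rw [← h1, ss hs]
            · left; exact s.injective h1
          · rintro (h1 | h1)
            · right; rw [h1]
            · left; rw [h1, ss hs]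
        · intro q
          simp only [Finset.mem_insert, Finset.mem_singleton]
          constructor
          · rintro (h1 | h1)
            · left; exact z.injective (h1.trans hpU.1.symm)
            · right; exact z.injective (h1.trans hspU.1.symm)
          · rintro (h1 | h1)
            · left; rw [h1]; exact hpU.1
            · right; rw [h1]; exact hspU.1
        · intro q
          simp only [Finset.mem_insert, Finset.mem_singleton]
          constructor
          · rintro (h1 | h1)
            · left; exact z'.injective (h1.trans hpU.2.symm)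
            · right; exact z'.injective (h1.trans hspU.2.symm)
          · rintro (h1 | h1)
            · left; rw [h1]; exact hpU.2
            · right; rw [h1]; exact hspU.2
      rw [hW] at hf
      have h1 := hf.2 p
      have hyp : y p ≠ p := mem_support.1 hp
      simp only [ind, Finset.mem_insert, Finset.mem_singleton, true_or, if_true] at h1
      have h2 : y p = p ∨ y p = s p := by
        by_contra h3
        rw [if_neg h3] at h1
        norm_num at h1
      have h3 : y p = s p := h2.resolve_left hyp
      have hsp : s p ≠ p := fun h4 => hyp (by rw [h3, h4])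
      have h4 := h.trans p hsp hyp
      exact hsp (y.injective (h4.trans h3.symm))
  · intro p hp q hq hpq
    have hyp : y p ≠ p := mem_support.1 hp
    have hyq : y q ≠ q := mem_support.1 hq
    have h1 : q = p ∨ q = s p := by
      by_cases h1 : p ∈ z.support ∪ z'.support <;> by_cases h2 : q ∈ z.support ∪ z'.support <;>
        simp only [h1, h2, if_true, if_false] at hpq
      · left; exact hpq.symm
      · right; rw [hpq, ss hs]
      · right; exact hpq.symm
      · left; exact (s.injective hpq).symm
    rcases h1 with h1 | h1
    · exact h1.symm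
    · by_contra hne
      have hsp : s p ≠ p := fun h' => hne (by rw [h1, h'])
      exact hyq (by rw [h1]; exact h.trans p hsp hyp)

/-- The main comparison theorem. -/
theorem key2 (hs : s * s = 1) {t t' z z' : Perm Ω} (h : Good s t t')
    (hz' : ∀ a, s a = a → z' a = a) (hσ : cj s (t * t') = cj s (z * z')) :
    Module.finrank ℚ (inv z) + Module.finrank ℚ (inv z') ≤
      Module.finrank ℚ (inv t) + Module.finrank ℚ (inv t') ∧
    (Module.finrank ℚ (inv z) + Module.finrank ℚ (inv z') =
      Module.finrank ℚ (inv t) + Module.finrank ℚ (inv t') →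
      t.support.card + t'.support.card ≤ z.support.card + z'.support.card ∧
      inv s ⊓ (inv z ⊓ inv z') = inv s ⊓ inv (t * t') ∧
      (t.support.card + t'.support.card = z.support.card + z'.support.card →
        t.cycleType.card ≤ z.cycleType.card ∧
        (∀ a, s a = a → (z a ≠ a ↔ t a ≠ a)) ∧
        (∀ p, (p ∈ (z * z').support ∨ s p ∈ (z * z').support) ↔
          (p ∈ (t * t').support ∨ s p ∈ (t * t').support)) ∧
        (t.cycleType.card = z.cycleType.card → Good s z z'))) := by
  have hle : inv s ⊓ (inv z ⊓ inv z') ≤ inv s ⊓ inv (t * t') := by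
    rw [← h.inv_eq hs, hσ]
    exact inv_le_cj z z'
  have hrank := Submodule.finrank_mono hle
  have h1 := h.finrank_eq hs
  have h2 := finrank_ge (s := s) z z'
  refine ⟨by omega, fun heq => ?_⟩
  have hW : inv s ⊓ (inv z ⊓ inv z') = inv s ⊓ inv (t * t') := by
    apply Submodule.eq_of_le_of_finrank_eq hle
    omega
  obtain ⟨φ, hφ1, hφ2⟩ := support_step hs h hW
  have hcard : (t * t').support.card = t.support.card + t'.support.card :=
    h.disj.card_support_mul
  have hle1 : (t * t').support.card ≤ (z.support ∪ z'.support).card :=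
    Finset.card_le_card_of_injOn φ (fun p hp => (hφ1 p hp).1) hφ2
  have hle2 : (z.support ∪ z'.support).card ≤ z.support.card + z'.support.card :=
    Finset.card_union_le _ _
  refine ⟨by omega, hW, fun heq2 => ?_⟩
  have hU1 : (z.support ∪ z'.support).card = z.support.card + z'.support.card := by omega
  have hdisjS : _root_.Disjoint z.support z'.support := Finset.card_union_eq_card_add_card.1 hU1
  have hdisj : Disjoint z z' := disjoint_iff_disjoint_support.2 hdisjS
  have hsupp : (z * z').support = z.support ∪ z'.support := hdisj.support_mul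
  have hsurj : ∀ q ∈ z.support ∪ z'.support, ∃ p ∈ (t * t').support, φ p = q := by
    have := Finset.surj_on_of_inj_on_of_card_le (s := (t * t').support)
      (t := z.support ∪ z'.support) (fun p _ => φ p) (fun p hp => (hφ1 p hp).1)
      (fun p q hp hq hpq => hφ2 hp hq hpq) (by omega)
    intro q hq
    obtain ⟨p, hp, hpq⟩ := this q hq
    exact ⟨p, hp, hpq.symm⟩
  -- transversality of the new support
  have htrans : ∀ q, s q ≠ q → q ∈ z.support ∪ z'.support → s q ∉ z.support ∪ z'.support := by
    intro q hsq hq hsq'
    obtain ⟨p, hp, hpq⟩ := hsurj q hq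
    obtain ⟨p', hp', hpq'⟩ := hsurj (s q) hsq'
    have e1 : p = q ∨ p = s q := by
      rcases (hφ1 p hp).2 with h3 | h3
      · left; rw [← hpq, h3]
      · right; rw [← hpq, h3, ss hs]
    have e2 : p' = s q ∨ p' = q := by
      rcases (hφ1 p' hp').2 with h3 | h3
      · left; rw [← hpq', h3]
      · right
        exact s.injective (h3.symm.trans hpq')
    have hpp : p ≠ p' := by
      intro h'
      rw [h'] at hpq
      exact hsq (by rw [← hpq', hpq])
    have hyp : (t * t') p ≠ p := mem_support.1 hp
    have hyp' : (t * t') p' ≠ p' := mem_support.1 hp'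
    have h5 : p' = s p ∧ s p ≠ p := by
      rcases e1 with e1 | e1 <;> rcases e2 with e2 | e2
      · subst e1; exact ⟨e2, hsq⟩
      · exact absurd (e1.trans e2.symm) hpp
      · exact absurd (e1.trans e2.symm) hpp
      · rw [e1, ss hs]
        exact ⟨e2, fun h' => hsq h'.symm⟩
    exact hyp' (by rw [h5.1]; exact h.trans p h5.2 hyp)
  have hpair : ∀ p, (p ∈ (z * z').support ∨ s p ∈ (z * z').support) ↔
          (p ∈ (t * t').support ∨ s p ∈ (t * t').support) := by
    intro p
    rw [hsupp]
    constructor
    · intro h3
      have h4 : ∀ q, q ∈ z.support ∪ z'.support →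
          (q ∈ (t * t').support ∨ s q ∈ (t * t').support) := by
        intro q hq
        obtain ⟨r, hr, hrq⟩ := hsurj q hq
        rcases (hφ1 r hr).2 with h5 | h5
        · left; rw [← hrq, h5]; exact hr
        · right; rw [← hrq, h5, ss hs]; exact hr
      rcases h3 with h3 | h3
      · exact h4 p h3
      · have := h4 (s p) h3
        rw [ss hs] at this
        exact this.symm
    · intro h3
      have h4 : ∀ q, q ∈ (t * t').support →
          (q ∈ z.support ∪ z'.support ∨ s q ∈ z.support ∪ z'.support) := by
        intro q hq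
        rcases (hφ1 q hq).2 with h5 | h5
        · left; rw [← h5]; exact (hφ1 q hq).1
        · right; rw [← h5]; exact (hφ1 q hq).1
      rcases h3 with h3 | h3
      · exact h4 p h3
      · have := h4 (s p) h3
        rw [ss hs] at this
        exact this.symm
  have hfix : ∀ a, s a = a → (z a ≠ a ↔ t a ≠ a) := by
    intro a ha
    have h3 := hpair a
    rw [ha, or_self, or_self, hsupp, Finset.mem_union, mem_support, mem_support, mem_support,
      Perm.mul_apply, hz' a ha, h.fix' a ha] at h3
    simpa using h3
  -- distinct `s`-fixed points are not in the same cycle of `z`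
  have huniq : ∀ a b, s a = a → s b = b → z.SameCycle a b → a = b := by
    intro a b ha hb hab
    by_contra hne
    -- the class of `a` under the good pair
    let A : Finset Ω := Finset.univ.filter (fun q => t.SameCycle a q ∨ t.SameCycle a (s q))
    have hAs : ∀ p, s p ∈ A ↔ p ∈ A := by
      intro p
      simp only [A, Finset.mem_filter, Finset.mem_univ, true_and, ss hs]
      exact or_comm
    have hmoved : ∀ q, t.SameCycle a q → q ≠ a → s q ≠ q ∧ t q ≠ q := by
      intro q hq hqa
      refine ⟨fun h' => hqa (h.uniq a q ha h' hq).symm, fun h' => ?_⟩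
      have h3 : t a = a := hq.apply_eq_self_iff.2 h'
      obtain ⟨n, hn⟩ := hq
      rw [zpow_apply_eq_self_of_apply_eq_self h3] at hn
      exact hqa hn.symm
    have hAt1 : ∀ p, p ∈ A → (t * t') p ∈ A := by
      intro p hp
      simp only [A, Finset.mem_filter, Finset.mem_univ, true_and] at hp ⊢
      by_cases hp1 : t.SameCycle a p
      · left
        by_cases hpa : p = a
        · subst hpa
          rw [Perm.mul_apply, h.fix' p ha]
          exact sameCycle_apply_right.2 hp1
        · have h4 := hmoved p hp1 hpa
          have h5 : t' p = p := (h.disj p).resolve_left h4.2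
          rw [Perm.mul_apply, h5]
          exact sameCycle_apply_right.2 hp1
      · have hp2 : t.SameCycle a (s p) := hp.resolve_left hp1
        have hspa : s p ≠ a := by
          intro h'
          have : p = a := by rw [← ss hs p, h', ha]
          exact hp1 (by rw [this])
        have h4 := hmoved (s p) hp2 hspa
        have h5 : t' (s p) = s p := (h.disj (s p)).resolve_left h4.2
        have h6 : (t * t') (s p) ≠ s p := by rw [Perm.mul_apply, h5]; exact h4.2
        have h7 := h.trans (s p) h4.1 h6
        rw [ss hs] at h7
        right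
        rw [h7]
        exact hp2
    have hAt : ∀ p, (t * t') p ∈ A ↔ p ∈ A := by
      intro p
      refine ⟨fun hp => ?_, hAt1 p⟩
      have h4 : A.image (t * t') = A := by
        apply Finset.eq_of_subset_of_card_le
        · intro q hq
          obtain ⟨r, hr, rfl⟩ := Finset.mem_image.1 hq
          exact hAt1 r hr
        · rw [Finset.card_image_of_injective _ (t * t').injective]
      rw [← h4] at hp
      obtain ⟨r, hr, hrp⟩ := Finset.mem_image.1 hp
      rw [← (t * t').injective hrp]
      exact hr
    have hf : ind A ∈ inv s ⊓ (inv z ⊓ inv z') := by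
      rw [hW]
      exact ⟨ind_mem_inv hAs, ind_mem_inv hAt⟩
    obtain ⟨i, hi⟩ := hab
    have h3 := inv_zpow hf.2.1 i a
    rw [hi] at h3
    have haA : a ∈ A := by
      simp only [A, Finset.mem_filter, Finset.mem_univ, true_and]
      exact Or.inl (SameCycle.refl _ _)
    have hbA : b ∈ A := by
      by_contra h4
      simp [ind, haA, h4] at h3
    simp only [A, Finset.mem_filter, Finset.mem_univ, true_and, hb, or_self] at hbA
    exact hne (h.uniq a b ha hb hbA)
  have hcy : t.cycleType.card =
      (Finset.univ.filter (fun a => s a = a ∧ z a ≠ a)).card := by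
    rw [← h.card_cycleType]
    congr 1
    ext a
    simp only [Finset.mem_filter, Finset.mem_univ, true_and]
    constructor
    · rintro ⟨h3, h4⟩; exact ⟨h3, (hfix a h3).2 h4⟩
    · rintro ⟨h3, h4⟩; exact ⟨h3, (hfix a h3).1 h4⟩
  have hinj : Set.InjOn (fun a => z.cycleOf a)
      (Finset.univ.filter (fun a => s a = a ∧ z a ≠ a) : Finset Ω) := by
    intro a ha b hb hab
    simp only [Finset.coe_filter, Finset.mem_univ, true_and, Set.mem_ofPred_eq] at ha hb
    apply huniq a b ha.1 hb.1
    rw [sameCycle_iff_cycleOf_eq_of_mem_support (mem_support.2 ha.2) (mem_support.2 hb.2)]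
    exact hab
  have hmaps : ∀ a ∈ Finset.univ.filter (fun a => s a = a ∧ z a ≠ a),
      z.cycleOf a ∈ z.cycleFactorsFinset := by
    intro a ha
    simp only [Finset.mem_filter, Finset.mem_univ, true_and] at ha
    rw [cycleOf_mem_cycleFactorsFinset_iff, mem_support]
    exact ha.2
  refine ⟨?_, hfix, hpair, fun heq3 => ?_⟩
  · rw [hcy, card_ct]
    exact Finset.card_le_card_of_injOn _ hmaps hinj
  · refine ⟨hdisj, ?_, hz', ?_, huniq⟩
    · intro p hsp hp
      have h3 : p ∈ z.support ∪ z'.support := by rw [← hsupp]; exact mem_support.2 hp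
      have h4 := htrans p hsp h3
      rw [← hsupp] at h4
      exact Perm.notMem_support.1 h4
    · intro p hp
      have hc : z.cycleOf p ∈ z.cycleFactorsFinset := by
        rw [cycleOf_mem_cycleFactorsFinset_iff, mem_support]; exact hp
      obtain ⟨a, ha, hac⟩ := Finset.surj_on_of_inj_on_of_card_le
        (s := Finset.univ.filter (fun a => s a = a ∧ z a ≠ a))
        (t := z.cycleFactorsFinset) (fun a _ => z.cycleOf a) hmaps
        (fun a b ha hb hab => hinj ha hb hab) (by rw [← card_ct, ← hcy, heq3]) _ hc
      simp only [Finset.mem_filter, Finset.mem_univ, true_and] at ha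
      refine ⟨a, ha.1, ?_⟩
      rw [sameCycle_iff_cycleOf_eq_of_mem_support (mem_support.2 hp) (mem_support.2 ha.2)]
      exact hac

end Pool.Agent.Helper89.Foulkes
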