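import Pool.Agent.Helper89.Foulkes.Defs
import Pool.Agent.Helper89.Foulkes.Core

/-!
The centralizer of the pairing involution.
-/

set_option autoImplicit false
set_option linter.unusedSectionVars false

namespace Pool.Agent.Helper89.Foulkes

open Equiv Equiv.Perm

section Gen

variable {X Y : Type*} [Fintype X] [DecidableEq X] [Fintype Y] [DecidableEq Y] {t : Perm X}

/-- The involution on the disjoint union. -/
def sOf (t : Perm X) (Y : Type*) : Perm (X ⊕ Y) := Perm.sumCongr t 1

@[simp] theorem sOf_inl (x : X) : sOf t Y (Sum.inl x) = Sum.inl (t x) := rfl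
@[simp] theorem sOf_inr (y : Y) : sOf t Y (Sum.inr y) = Sum.inr y := rfl

theorem sOf_fix_iff (ht : ∀ x, t x ≠ x) (p : X ⊕ Y) :
    sOf t Y p = p ↔ ∃ y, p = Sum.inr y := by
  rcases p with x | y
  · constructor
    · intro h
      exact absurd (Sum.inl_injective h) (ht x)
    · rintro ⟨y, hy⟩
      exact absurd hy (by simp)
  · simp

theorem exists_sumCongr {j : Perm (X ⊕ Y)} (h : ∀ x, ∃ x', j (Sum.inl x) = Sum.inl x') :
    ∃ w π, j = Perm.sumCongr w π := by
  have h1 : j ∈ (Perm.sumCongrHom X Y).range := by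
    apply mem_sumCongrHom_range_of_perm_mapsTo_inl
    rintro _ ⟨x, rfl⟩
    obtain ⟨x', hx'⟩ := h x
    exact ⟨x', hx'.symm⟩
  obtain ⟨⟨w, π⟩, hw⟩ := h1
  exact ⟨w, π, hw.symm⟩

theorem centr_iff (ht : ∀ x, t x ≠ x) (j : Perm (X ⊕ Y)) :
    j * sOf t Y = sOf t Y * j ↔ ∃ w π, w * t = t * w ∧ j = Perm.sumCongr w π := by
  constructor
  · intro h
    obtain ⟨w, π, rfl⟩ := exists_sumCongr (j := j) (by
      intro x
      rcases hj : j (Sum.inl x) with x' | y
      · exact ⟨x', rfl⟩
      · exfalso
        have h1 : sOf t Y (j (Sum.inl x)) = j (Sum.inl x) := by rw [hj]; rfl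
        rw [fix_iff h] at h1
        exact ht x (Sum.inl_injective h1))
    refine ⟨w, π, ?_, rfl⟩
    ext x
    have := congrArg (fun g => g (Sum.inl x)) h
    simpa [Perm.mul_apply] using this
  · rintro ⟨w, π, hw, rfl⟩
    ext p
    rcases p with x | y
    · have := congrArg (fun g => g x) hw
      simpa [Perm.mul_apply] using this
    · simp [Perm.mul_apply]

theorem eps_sumCongr (ht : ∀ x, t x ≠ x) {w : Perm X} (hw : w * t = t * w) (π : Perm Y) :
    eps (sOf t Y) (Perm.sumCongr w π) = sign π := by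
  have hj : Perm.sumCongr w π * sOf t Y = sOf t Y * Perm.sumCongr w π :=
    (centr_iff ht _).2 ⟨w, π, hw, rfl⟩
  rw [eps_eq hj]
  symm
  apply sign_eq_sign_of_equiv _ _ (Equiv.ofBijective
    (fun y : Y => (⟨Sum.inr y, rfl⟩ : {p // sOf t Y p = p})) ?_)
  · intro y
    rfl
  · constructor
    · intro a b hab
      exact Sum.inr_injective (congrArg Subtype.val hab)
    · rintro ⟨p, hp⟩
      obtain ⟨y, rfl⟩ := (sOf_fix_iff ht p).1 hp
      exact ⟨y, rfl⟩

theorem cycleType_sumCongr (z : Perm X) :
    (Perm.sumCongr z (1 : Perm Y)).cycleType = z.cycleType := by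
  let f : X ≃ Subtype (fun p : X ⊕ Y => p.isLeft = true) := Equiv.ofBijective
    (fun x => ⟨Sum.inl x, rfl⟩) (by
      constructor
      · intro a b hab
        exact Sum.inl_injective (congrArg Subtype.val hab)
      · rintro ⟨p, hp⟩
        rcases p with x | y
        · exact ⟨x, rfl⟩
        · simp at hp)
  have h : Perm.sumCongr z (1 : Perm Y) = z.extendDomain f := by
    ext p
    rcases p with x | y
    · have h1 : (Sum.inl x : X ⊕ Y) = (f x : X ⊕ Y) := rfl
      rw [h1, extendDomain_apply_image]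
      rfl
    · rw [extendDomain_apply_not_subtype]
      · rfl
      · simp
  rw [h, cycleType_extendDomain]

theorem mem_cls'_iff (ht : ∀ x, t x ≠ x) (β : Multiset ℕ) (g : Perm (X ⊕ Y)) :
    g ∈ cls' (sOf t Y) β ↔ ∃ z : Perm X, z.cycleType = β ∧ Perm.sumCongr z 1 = g := by
  simp only [cls', Finset.mem_filter, Finset.mem_univ, true_and]
  constructor
  · rintro ⟨h1, h2⟩
    have h3 : ∀ y, g (Sum.inr y) = Sum.inr y := fun y => h1 _ rfl
    obtain ⟨w, π, rfl⟩ := exists_sumCongr (j := g) (by
      intro x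
      rcases hj : g (Sum.inl x) with x' | y
      · exact ⟨x', rfl⟩
      · exfalso
        rw [← h3 y] at hj
        exact absurd (g.injective hj) (by simp))
    have hπ : π = 1 := by
      ext y
      have := h3 y
      simpa using this
    subst hπ
    exact ⟨w, by rw [← h2, cycleType_sumCongr], rfl⟩
  · rintro ⟨z, hz, rfl⟩
    refine ⟨?_, by rw [cycleType_sumCongr, hz]⟩
    intro a ha
    obtain ⟨y, rfl⟩ := (sOf_fix_iff ht a).1 ha
    rfl

/-- The inclusion of group algebras. -/
noncomputable def incl (F X Y : Type*) [Field F] :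
    MonoidAlgebra F (Perm X) →ₐ[F] MonoidAlgebra F (Perm (X ⊕ Y)) :=
  MonoidAlgebra.mapDomainAlgHom F F ((Perm.sumCongrHom X Y).comp (MonoidHom.inl _ _))

variable {F : Type*} [Field F]

theorem incl_single (g : Perm X) (r : F) :
    incl F X Y (MonoidAlgebra.single g r) = MonoidAlgebra.single (Perm.sumCongr g 1) r := by
  simp [incl, MonoidAlgebra.mapDomainAlgHom]

theorem incl_csum (ht : ∀ x, t x ≠ x) (β : Multiset ℕ) :
    incl F X Y (csum F (cls β)) = csum F (cls' (sOf t Y) β) := by
  unfold csum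
  rw [map_sum]
  apply Finset.sum_bij (fun z _ => Perm.sumCongr z 1)
  · intro z hz
    simp only [cls, Finset.mem_filter, Finset.mem_univ, true_and] at hz
    exact (mem_cls'_iff ht β _).2 ⟨z, hz, rfl⟩
  · intro a _ b _ hab
    ext x
    have := congrArg (fun g => g (Sum.inl x)) hab
    simpa using this
  · intro g hg
    obtain ⟨z, hz, rfl⟩ := (mem_cls'_iff ht β _).1 hg
    exact ⟨z, by simp [cls, hz], rfl⟩
  · intro z _
    rw [incl_single]

theorem incl_comm_inr (x : MonoidAlgebra F (Perm X)) (π : Perm Y) :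
    incl F X Y x * MonoidAlgebra.single (Perm.sumCongr 1 π) 1 =
      MonoidAlgebra.single (Perm.sumCongr 1 π) 1 * incl F X Y x := by
  induction x using MonoidAlgebra.induction_linear with
  | zero => simp
  | add x y hx hy => rw [map_add, add_mul, mul_add, hx, hy]
  | single g r =>
      rw [incl_single, MonoidAlgebra.single_mul_single, MonoidAlgebra.single_mul_single,
        mul_comm r 1]
      congr 1
      ext p
      rcases p with x | y <;> simp

theorem incl_comm (ht : ∀ x, t x ≠ x) {b : MonoidAlgebra F (Perm X)}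
    (hb : ∀ x, b * x = x * b) (j : Perm (X ⊕ Y)) (hj : j * sOf t Y = sOf t Y * j) :
    incl F X Y b * MonoidAlgebra.single j 1 = MonoidAlgebra.single j 1 * incl F X Y b := by
  obtain ⟨w, π, hw, rfl⟩ := (centr_iff ht j).1 hj
  have h1 : (MonoidAlgebra.single (Perm.sumCongr w π) 1 : MonoidAlgebra F (Perm (X ⊕ Y))) =
      incl F X Y (MonoidAlgebra.single w 1) * MonoidAlgebra.single (Perm.sumCongr 1 π) 1 := by
    rw [incl_single, MonoidAlgebra.single_mul_single]
    congr 1
    · ext p
      rcases p with x | y <;> simp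
    · simp
  rw [h1, ← mul_assoc, ← map_mul, hb, map_mul, mul_assoc, incl_comm_inr, mul_assoc]

end Gen

section Pairs

/-- The pairing. -/
def pair (m : ℕ) : Perm (Fin m × Fin 2) := Equiv.prodCongr (Equiv.refl _) (Equiv.swap 0 1)

theorem pair_fst {m : ℕ} (x : Fin m × Fin 2) : (pair m x).1 = x.1 := rfl

theorem pair_ne {m : ℕ} (x : Fin m × Fin 2) : pair m x ≠ x := by
  obtain ⟨i, e⟩ := x
  intro h
  have h1 := congrArg Prod.snd h
  fin_cases e <;> simp [pair] at h1

theorem pair_pair {m : ℕ} : pair m * pair m = 1 := by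
  ext ⟨i, e⟩ : 1
  simp [pair, Perm.mul_apply]

theorem eq_or_pair {m : ℕ} {x y : Fin m × Fin 2} (h : x.1 = y.1) : y = x ∨ y = pair m x := by
  obtain ⟨i, e⟩ := x
  obtain ⟨i', e'⟩ := y
  simp only at h
  subst h
  fin_cases e <;> fin_cases e' <;> simp [pair]

theorem mem_wreath_iff {m : ℕ} (g : Perm (Fin m × Fin 2)) :
    g ∈ TwistedFoulkes.wreath m ↔ g * pair m = pair m * g := by
  constructor
  · intro hg
    have hg' : ∀ x y, (g x).1 = (g y).1 ↔ x.1 = y.1 := hg
    apply Equiv.ext
    intro x
    rw [Perm.mul_apply, Perm.mul_apply]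
    have h1 : (g x).1 = (g (pair m x)).1 := (hg' _ _).2 rfl
    rcases eq_or_pair h1 with h | h
    · exact absurd (g.injective h) (pair_ne x)
    · exact h
  · intro hg x y
    have h1 : ∀ z, g (pair m z) = pair m (g z) := fun z => by
      rw [← Perm.mul_apply, hg, Perm.mul_apply]
    constructor
    · intro h
      rcases eq_or_pair h with h | h
      · rw [g.injective h]
      · rw [← h1] at h
        rw [g.injective h, pair_fst]
    · intro h
      rcases eq_or_pair h with h | h
      · rw [h]
      · rw [h, h1, pair_fst]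

end Pairs

end Pool.Agent.Helper89.Foulkes
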