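import Pool.Agent.Helper89.Foulkes.Conj
import Pool.Agent.Helper89.Foulkes.Exist

/-!
Bi-semi-invariant functions are spanned by products of class sums.
-/

set_option autoImplicit false
set_option linter.unusedSectionVars false

namespace Pool.Agent.Helper89.Foulkes

open Equiv Equiv.Perm

variable {Ω : Type*} [Fintype Ω] [DecidableEq Ω] {s : Perm Ω}

theorem fix_iff {j : Perm Ω} (hj : j * s = s * j) (p : Ω) : s (j p) = j p ↔ s p = p := by
  have h1 : s (j p) = j (s p) := by
    rw [← Perm.mul_apply, ← hj, Perm.mul_apply]
  rw [h1, j.injective.eq_iff]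

/-- The sign of a permutation commuting with `s` on the fixed points of `s`. -/
def eps (s j : Perm Ω) : ℤˣ :=
  if h : ∀ p, s (j p) = j p ↔ s p = p then
    sign (j.subtypePerm (p := fun p => s p = p) h) else 1

theorem eps_eq {j : Perm Ω} (hj : j * s = s * j) :
    eps s j = sign (j.subtypePerm (p := fun p => s p = p) (fix_iff hj)) := by
  rw [eps, dif_pos]

theorem comm_mul {i j : Perm Ω} (hi : i * s = s * i) (hj : j * s = s * j) :
    (i * j) * s = s * (i * j) := by
  rw [mul_assoc, hj, ← mul_assoc, hi, mul_assoc]

theorem comm_inv {i : Perm Ω} (hi : i * s = s * i) : i⁻¹ * s = s * i⁻¹ := by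
  rw [inv_mul_eq_iff_eq_mul, ← mul_assoc, hi, mul_assoc, mul_inv_cancel, mul_one]

theorem eps_mul {i j : Perm Ω} (hi : i * s = s * i) (hj : j * s = s * j) :
    eps s (i * j) = eps s i * eps s j := by
  rw [eps_eq hi, eps_eq hj, eps_eq (comm_mul hi hj), ← Equiv.Perm.sign_mul]
  rfl

theorem eps_of_fix {j : Perm Ω} (hj : j * s = s * j) (h : ∀ c, s c = c → j c = c) :
    eps s j = 1 := by
  rw [eps_eq hj]
  have : j.subtypePerm (p := fun p => s p = p) (fix_iff hj) = 1 := by
    ext p
    simp [subtypePerm_apply, h p.1 p.2]
  rw [this, Equiv.Perm.sign_one]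

theorem eps_one : eps s 1 = 1 := eps_of_fix (by simp) (by simp)

theorem eps_inv {i : Perm Ω} (hi : i * s = s * i) : eps s i⁻¹ = eps s i := by
  have h1 := eps_mul (comm_inv hi) hi
  rw [inv_mul_cancel, eps_one] at h1
  have h2 : eps s i * eps s i = 1 := Int.units_mul_self _
  have h3 : eps s i⁻¹ * (eps s i * eps s i) = eps s i := by
    rw [← mul_assoc, ← h1, one_mul]
  rwa [h2, mul_one] at h3

theorem eps_of_swap {j : Perm Ω} (hj : j * s = s * j) {a b : Ω} (ha : s a = a) (hb : s b = b)
    (hab : a ≠ b) (h1 : j a = b) (h2 : j b = a)
    (h3 : ∀ c, s c = c → c ≠ a → c ≠ b → j c = c) : eps s j = -1 := by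
  rw [eps_eq hj]
  have : j.subtypePerm (p := fun p => s p = p) (fix_iff hj) = swap ⟨a, ha⟩ ⟨b, hb⟩ := by
    ext ⟨c, hc⟩
    rw [subtypePerm_apply]
    by_cases hca : c = a
    · subst hca; simp [h1]
    · by_cases hcb : c = b
      · subst hcb; simp [h2]
      · rw [swap_apply_of_ne_of_ne]
        · exact h3 c hc hca hcb
        · simpa using hca
        · simpa using hcb
  rw [this, sign_swap]
  simpa using hab

variable {F : Type*} [Field F]

/-- Scalar of a sign. -/
def sg (F : Type*) [Field F] (e : ℤˣ) : F := ((e : ℤ) : F)

theorem sg_one : sg F 1 = 1 := by simp [sg]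
theorem sg_mul (a b : ℤˣ) : sg F (a * b) = sg F a * sg F b := by simp [sg]
theorem sg_neg_one : sg F (-1) = -1 := by simp [sg]
theorem sg_sq (a : ℤˣ) : sg F a * sg F a = 1 := by rw [← sg_mul, Int.units_mul_self, sg_one]
theorem sg_ne_zero (a : ℤˣ) : sg F a ≠ 0 := by
  intro h
  have := sg_sq (F := F) a
  rw [h, zero_mul] at this
  exact zero_ne_one this

/-- Bi-semi-invariant functions. -/
def SemiInv (s : Perm Ω) (F : Type*) [Field F] : Submodule F (Perm Ω → F) where
  carrier := {u | (∀ j g, j * s = s * j → u (j * g) = sg F (eps s j) * u g) ∧
    (∀ j g, j * s = s * j → u (g * j) = sg F (eps s j) * u g)}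
  add_mem' := by
    rintro u v ⟨hu1, hu2⟩ ⟨hv1, hv2⟩
    refine ⟨fun j g hj => ?_, fun j g hj => ?_⟩
    · simp only [Pi.add_apply, hu1 j g hj, hv1 j g hj]; ring
    · simp only [Pi.add_apply, hu2 j g hj, hv2 j g hj]; ring
  zero_mem' := by
    refine ⟨fun j g hj => ?_, fun j g hj => ?_⟩ <;> simp
  smul_mem' := by
    rintro c u ⟨hu1, hu2⟩
    refine ⟨fun j g hj => ?_, fun j g hj => ?_⟩
    · simp only [Pi.smul_apply, smul_eq_mul, hu1 j g hj]; ring
    · simp only [Pi.smul_apply, smul_eq_mul, hu2 j g hj]; ring

theorem cj_eq_iff {g h : Perm Ω} : cj s g = cj s h ↔ (g⁻¹ * h) * s = s * (g⁻¹ * h) := by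
  unfold cj
  constructor
  · intro h1
    have : g⁻¹ * h * s = g⁻¹ * (h * s * h⁻¹) * h := by group
    rw [this, ← h1]; group
  · intro h1
    have : g * s * g⁻¹ = g * (s * (g⁻¹ * h)) * h⁻¹ := by group
    rw [this, ← h1]; group

open Classical in
/-- The function of the element `P`. -/
noncomputable def Pf (s : Perm Ω) (F : Type*) [Field F] (g : Perm Ω) : F :=
  if g * s = s * g then sg F (eps s g) else 0

theorem Pf_mul_right {j : Perm Ω} (hj : j * s = s * j) (g : Perm Ω) :
    Pf s F (g * j) = sg F (eps s j) * Pf s F g := by
  unfold Pf
  by_cases hg : g * s = s * g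
  · rw [if_pos hg, if_pos (comm_mul hg hj), eps_mul hg hj, sg_mul, mul_comm]
  · rw [if_neg hg, if_neg, mul_zero]
    intro h
    apply hg
    have := comm_mul h (comm_inv hj)
    simpa [mul_assoc] using this

theorem Pf_mul_left {j : Perm Ω} (hj : j * s = s * j) (g : Perm Ω) :
    Pf s F (j * g) = sg F (eps s j) * Pf s F g := by
  unfold Pf
  by_cases hg : g * s = s * g
  · rw [if_pos hg, if_pos (comm_mul hj hg), eps_mul hj hg, sg_mul]
  · rw [if_neg hg, if_neg, mul_zero]
    intro h
    apply hg
    have := comm_mul (comm_inv hj) h
    simpa [← mul_assoc] using this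

/-- The first class. -/
def cls (α : Multiset ℕ) : Finset (Perm Ω) := Finset.univ.filter (fun z => z.cycleType = α)

/-- The second class. -/
def cls' (s : Perm Ω) (β : Multiset ℕ) : Finset (Perm Ω) :=
  Finset.univ.filter (fun z => (∀ a, s a = a → z a = a) ∧ z.cycleType = β)

/-- The function of the product of class sums with `P`. -/
noncomputable def Tf (s : Perm Ω) (F : Type*) [Field F] (α β : Multiset ℕ) (h : Perm Ω) : F :=
  ∑ z ∈ cls α, ∑ z' ∈ cls' s β, Pf s F ((z * z')⁻¹ * h)

theorem Tf_mem (α β : Multiset ℕ) : Tf s F α β ∈ SemiInv s F := by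
  constructor
  · intro j g hj
    unfold Tf
    rw [Finset.mul_sum]
    symm
    apply Finset.sum_bij (fun z _ => j * z * j⁻¹)
    · intro z hz
      simp only [cls, Finset.mem_filter, Finset.mem_univ, true_and] at hz ⊢
      rw [cycleType_conj, hz]
    · intro a _ b _ hab
      simpa using hab
    · intro z hz
      refine ⟨j⁻¹ * z * j, ?_, by group⟩
      simp only [cls, Finset.mem_filter, Finset.mem_univ, true_and] at hz ⊢
      have := cycleType_conj (σ := z) (τ := j⁻¹)
      rw [inv_inv] at this
      rw [this, hz]
    · intro z _
      rw [Finset.mul_sum]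
      apply Finset.sum_bij (fun z' _ => j * z' * j⁻¹)
      · intro z' hz'
        simp only [cls', Finset.mem_filter, Finset.mem_univ, true_and] at hz' ⊢
        refine ⟨fun a ha => ?_, by rw [cycleType_conj, hz'.2]⟩
        have h1 : s (j⁻¹ a) = j⁻¹ a := (fix_iff (comm_inv hj) a).2 ha
        rw [Perm.mul_apply, Perm.mul_apply, hz'.1 _ h1]
        simp
      · intro a _ b _ hab
        simpa using hab
      · intro z' hz'
        refine ⟨j⁻¹ * z' * j, ?_, by group⟩
        simp only [cls', Finset.mem_filter, Finset.mem_univ, true_and] at hz' ⊢
        refine ⟨fun a ha => ?_, ?_⟩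
        · have h1 : s (j a) = j a := (fix_iff hj a).2 ha
          rw [Perm.mul_apply, Perm.mul_apply, hz'.1 _ h1]
          simp
        · have := cycleType_conj (σ := z') (τ := j⁻¹)
          rw [inv_inv] at this
          rw [this, hz'.2]
      · intro z' _
        rw [← Pf_mul_left hj]
        congr 1
        group
  · intro j g hj
    unfold Tf
    rw [Finset.mul_sum]
    apply Finset.sum_congr rfl
    intro z _
    rw [Finset.mul_sum]
    apply Finset.sum_congr rfl
    intro z' _
    rw [← mul_assoc, Pf_mul_right hj]

/-- The value at the good permutation itself. -/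
theorem Tf_good (hs : s * s = 1) {x x' : Perm Ω} (h : Good s x x') :
    Tf s F x.cycleType x'.cycleType (x * x') = 2 ^ x'.cycleType.card := by
  classical
  unfold Tf
  rw [Finset.sum_eq_single x]
  · have h1 : ∀ z' ∈ cls' s x'.cycleType, Pf s F ((x * z')⁻¹ * (x * x')) =
        if z' ∈ sndSet s x x' then 1 else 0 := by
      intro z' hz'
      simp only [cls', Finset.mem_filter, Finset.mem_univ, true_and] at hz'
      unfold Pf
      by_cases hc : cj s (x * z') = cj s (x * x')
      · have hJ := cj_eq_iff.1 hc
        have hmem : z' ∈ sndSet s x x' := by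
          simp only [sndSet, Finset.mem_filter, Finset.mem_univ, true_and]
          exact ⟨hz'.1, hz'.2, hc⟩
        rw [if_pos hJ, if_pos hmem, eps_of_fix hJ, sg_one]
        intro c hc'
        have h2 : z'⁻¹ c = c := by rw [Perm.inv_eq_iff_eq, hz'.1 c hc']
        have h3 : (x * z')⁻¹ * (x * x') = z'⁻¹ * x' := by group
        rw [h3, Perm.mul_apply, h.fix' c hc', h2]
      · have hJ := fun h' => hc (cj_eq_iff.2 h')
        have hmem : z' ∉ sndSet s x x' := by
          simp only [sndSet, Finset.mem_filter, Finset.mem_univ, true_and]
          exact fun h' => hc h'.2.2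
        rw [if_neg hJ, if_neg hmem]
    rw [Finset.sum_congr rfl h1, Finset.sum_ite_mem]
    have h2 : cls' s x'.cycleType ∩ sndSet s x x' = sndSet s x x' := by
      rw [Finset.inter_eq_right]
      intro z' hz'
      simp only [sndSet, cls', Finset.mem_filter, Finset.mem_univ, true_and] at hz' ⊢
      exact ⟨hz'.1, hz'.2.1⟩
    rw [h2, Finset.sum_const, card_sndSet hs h]
    simp
  · intro z hz hzx
    apply Finset.sum_eq_zero
    intro z' hz'
    simp only [cls, cls', Finset.mem_filter, Finset.mem_univ, true_and] at hz hz'
    unfold Pf
    rw [if_neg]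
    intro hJ
    have hc := cj_eq_iff.2 hJ
    obtain ⟨h1, h2, -⟩ := good_of_ct hs h hz'.1 hz hz'.2 hc.symm
    exact hzx (fst_eq hs h h1 hc.symm h2)
  · intro hx
    exfalso
    apply hx
    simp [cls]

/-- The code of a pair. -/
noncomputable def code (t t' : Perm Ω) : ℕ :=
  ((2 * Fintype.card Ω - (Module.finrank ℚ (inv t) + Module.finrank ℚ (inv t'))) *
    (2 * Fintype.card Ω + 1) + (t.support.card + t'.support.card)) * (2 * Fintype.card Ω + 1)
    + t.cycleType.card

theorem code_cmp (hs : s * s = 1) {x x' t t' z z' : Perm Ω} (h : Good s t t')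
    (hz' : ∀ a, s a = a → z' a = a) (hσ : cj s (t * t') = cj s (z * z'))
    (h1 : z.cycleType = x.cycleType) (h2 : z'.cycleType = x'.cycleType) :
    code t t' ≤ code x x' ∧ (code t t' = code x x' → Good s z z') := by
  obtain ⟨a1, a2⟩ := key2 hs h hz' hσ
  rw [finrank_inv_ct h1, finrank_inv_ct h2] at a1 a2
  rw [card_support_ct h1, card_support_ct h2, h1] at a2
  unfold code
  have b1 : Module.finrank ℚ (inv t) ≤ Fintype.card Ω := by
    have := Submodule.finrank_le (inv t)
    rwa [Module.finrank_fintype_fun_eq_card] at this
  have b2 : Module.finrank ℚ (inv t') ≤ Fintype.card Ω := by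
    have := Submodule.finrank_le (inv t')
    rwa [Module.finrank_fintype_fun_eq_card] at this
  have b3 : t.support.card ≤ Fintype.card Ω := Finset.card_le_univ _
  have b4 : t'.support.card ≤ Fintype.card Ω := Finset.card_le_univ _
  have b5 : t.cycleType.card ≤ Fintype.card Ω := by
    rw [← h.card_cycleType]; exact Finset.card_le_univ _
  set n := Fintype.card Ω
  set A := Module.finrank ℚ (inv t) + Module.finrank ℚ (inv t')
  set A' := Module.finrank ℚ (inv x) + Module.finrank ℚ (inv x')
  set B := t.support.card + t'.support.card
  set B' := x.support.card + x'.support.card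
  set C := t.cycleType.card
  set C' := x.cycleType.card
  rcases Nat.lt_or_ge A' A with hA | hA
  · -- strictly smaller first entry
    have e1 : 2 * n - A + 1 ≤ 2 * n - A' := by omega
    have e2 : ((2 * n - A + 1) * (2 * n + 1)) * (2 * n + 1) ≤
        ((2 * n - A') * (2 * n + 1) + B') * (2 * n + 1) := by
      apply Nat.mul_le_mul_right
      calc (2 * n - A + 1) * (2 * n + 1) ≤ (2 * n - A') * (2 * n + 1) :=
            Nat.mul_le_mul_right _ e1
        _ ≤ _ := Nat.le_add_right _ _
    have e3 : ((2 * n - A) * (2 * n + 1) + B) * (2 * n + 1) + C <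
        ((2 * n - A + 1) * (2 * n + 1)) * (2 * n + 1) := by
      have : (2 * n - A) * (2 * n + 1) + B + 1 ≤ (2 * n - A + 1) * (2 * n + 1) := by
        have : (2 * n - A + 1) * (2 * n + 1) = (2 * n - A) * (2 * n + 1) + (2 * n + 1) := by ring
        omega
      calc ((2 * n - A) * (2 * n + 1) + B) * (2 * n + 1) + C
          < ((2 * n - A) * (2 * n + 1) + B + 1) * (2 * n + 1) := by
            have : ((2 * n - A) * (2 * n + 1) + B + 1) * (2 * n + 1) =
              ((2 * n - A) * (2 * n + 1) + B) * (2 * n + 1) + (2 * n + 1) := by ring
            omega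
        _ ≤ _ := Nat.mul_le_mul_right _ this
    constructor
    · omega
    · intro h'; omega
  · have hAA : A' = A := le_antisymm (by omega) (by omega)
    obtain ⟨a3, -, a4⟩ := a2 hAA
    rw [hAA]
    rcases Nat.lt_or_ge B B' with hB | hB
    · have e1 : ((2 * n - A) * (2 * n + 1) + B + 1) * (2 * n + 1) ≤
          ((2 * n - A) * (2 * n + 1) + B') * (2 * n + 1) := by
        apply Nat.mul_le_mul_right
        omega
      have e2 : ((2 * n - A) * (2 * n + 1) + B + 1) * (2 * n + 1) =
              ((2 * n - A) * (2 * n + 1) + B) * (2 * n + 1) + (2 * n + 1) := by ring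
      constructor
      · omega
      · intro h'; omega
    · have hBB : B = B' := le_antisymm a3 hB
      obtain ⟨a5, -, -, a6⟩ := a4 hBB
      rw [hBB]
      constructor
      · omega
      · intro h'
        exact a6 (by omega)

theorem span_aux (hs : s * s = 1) (h2 : (2 : F) ≠ 0) (c : ℕ) :
    ∀ u ∈ SemiInv s F,
      (∀ h t t', u h ≠ 0 → Good s t t' → cj s (t * t') = cj s h → code t t' < c) →
      u ∈ Submodule.span F (Set.range (fun p : Multiset ℕ × Multiset ℕ => Tf s F p.1 p.2)) := by
  classical
  -- killed elements carry the value zero
  have hkill : ∀ u ∈ SemiInv s F, ∀ g, Killed s g → u g = 0 := by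
    rintro u ⟨hu1, hu2⟩ g ⟨j, hj, hj', ⟨a, b, ha, hb, hab, h3, h4, h5⟩, h6⟩
    have e1 := hu1 j g hj
    have e2 := hu2 _ g hj'
    have e3 : g * (g⁻¹ * j * g) = j * g := by group
    rw [e3, e1, eps_of_swap hj ha hb hab h3 h4 h5, eps_of_fix hj' h6, sg_neg_one, sg_one] at e2
    have e4 : (2 : F) * u g = 0 := by linear_combination -e2
    exact (mul_eq_zero.1 e4).resolve_left h2
  have hgood : ∀ u ∈ SemiInv s F, ∀ h, u h ≠ 0 →
      ∃ t t', Good s t t' ∧ cj s (t * t') = cj s h := by
    intro u hu h hh
    rcases killed_or_good hs h with h' | h'
    · exact absurd (hkill u hu h h') hh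
    · exact h'
  induction c with
  | zero =>
      intro u hu hc
      have : u = 0 := by
        ext h
        by_contra hh
        obtain ⟨t, t', ht, htt⟩ := hgood u hu h hh
        exact absurd (hc h t t' hh ht htt) (by omega)
      rw [this]
      exact Submodule.zero_mem _
  | succ c ih =>
      -- inner induction on the number of points of top code
      have inner : ∀ n : ℕ, ∀ u ∈ SemiInv s F,
          (∀ h t t', u h ≠ 0 → Good s t t' → cj s (t * t') = cj s h → code t t' < c + 1) →
          (Finset.univ.filter (fun h : Perm Ω => u h ≠ 0 ∧ ∃ t t', Good s t t' ∧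
            cj s (t * t') = cj s h ∧ code t t' = c)).card ≤ n →
          u ∈ Submodule.span F
            (Set.range (fun p : Multiset ℕ × Multiset ℕ => Tf s F p.1 p.2)) := by
        intro n
        induction n with
        | zero =>
            intro u hu hc hn
            apply ih u hu
            intro h t t' hh ht htt
            have h3 := hc h t t' hh ht htt
            have h4 : code t t' ≠ c := by
              intro h'
              have : h ∈ Finset.univ.filter (fun h : Perm Ω => u h ≠ 0 ∧ ∃ t t', Good s t t' ∧
                  cj s (t * t') = cj s h ∧ code t t' = c) := by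
                simp only [Finset.mem_filter, Finset.mem_univ, true_and]
                exact ⟨hh, t, t', ht, htt, h'⟩
              have := Finset.card_pos.2 ⟨h, this⟩
              omega
            omega
        | succ n ihn =>
            intro u hu hc hn
            by_cases hemp : ∃ h : Perm Ω, u h ≠ 0 ∧ ∃ t t', Good s t t' ∧
                cj s (t * t') = cj s h ∧ code t t' = c
            · obtain ⟨h, hh, x, x', hx, hxx, hcode⟩ := hemp
              -- `u` is nonzero at `x x'`
              have hJ := cj_eq_iff.1 hxx
              have huy : u h = sg F (eps s ((x * x')⁻¹ * h)) * u (x * x') := by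
                have := hu.2 _ (x * x') hJ
                rw [← this]; congr 1; group
              have hy0 : u (x * x') ≠ 0 := by
                intro h'
                rw [h', mul_zero] at huy
                exact hh huy
              set T := Tf s F x.cycleType x'.cycleType with hT
              have hTy : T (x * x') ≠ 0 := by
                rw [hT, Tf_good hs hx]
                exact pow_ne_zero _ h2
              set c0 := u (x * x') / T (x * x') with hc0
              have hTmem : T ∈ SemiInv s F := Tf_mem _ _
              have hu1 : u - c0 • T ∈ SemiInv s F :=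
                Submodule.sub_mem _ hu (Submodule.smul_mem _ _ hTmem)
              -- comparison for `T`
              have hTc : ∀ h' t t', T h' ≠ 0 → Good s t t' → cj s (t * t') = cj s h' →
                  code t t' ≤ c ∧ (code t t' = c → ∃ i j : Perm Ω, i * s = s * i ∧
                    j * s = s * j ∧ h' = i * (x * x') * j) := by
                intro h' t t' hTh ht htt
                have : ∃ z ∈ cls x.cycleType, ∃ z' ∈ cls' s x'.cycleType,
                    Pf s F ((z * z')⁻¹ * h') ≠ 0 := by
                  by_contra hcon
                  push Not at hcon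
                  apply hTh
                  rw [hT]
                  unfold Tf
                  exact Finset.sum_eq_zero (fun z hz =>
                    Finset.sum_eq_zero (fun z' hz' => hcon z hz z' hz'))
                obtain ⟨z, hz, z', hz', hP⟩ := this
                simp only [cls, cls', Finset.mem_filter, Finset.mem_univ, true_and] at hz hz'
                have hJ' : (z * z')⁻¹ * h' * s = s * ((z * z')⁻¹ * h') := by
                  by_contra hcon
                  apply hP
                  unfold Pf
                  rw [if_neg hcon]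
                have hzc := cj_eq_iff.2 hJ'
                obtain ⟨d1, d2⟩ := code_cmp hs ht hz'.1 (htt.trans hzc.symm) hz hz'.2
                rw [hcode] at d1 d2
                refine ⟨d1, fun hcc => ?_⟩
                have hzz := d2 hcc
                obtain ⟨i, hi, hi2⟩ := good_conj hs hx hzz hz.symm hz'.2.symm
                refine ⟨i, i⁻¹ * ((z * z')⁻¹ * h'), hi, comm_mul (comm_inv hi) hJ', ?_⟩
                rw [← hi2]; group
              have hmem : u - c0 • T ∈ Submodule.span F
                  (Set.range (fun p : Multiset ℕ × Multiset ℕ => Tf s F p.1 p.2)) := by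
                apply ihn _ hu1
                · intro h' t t' hh' ht htt
                  by_cases huh : u h' = 0
                  · have hTh : T h' ≠ 0 := by
                      intro h''
                      apply hh'
                      simp [huh, h'']
                    have := (hTc h' t t' hTh ht htt).1
                    omega
                  · exact hc h' t t' huh ht htt
                · -- strictly fewer points of top code
                  have hsub : (Finset.univ.filter (fun h : Perm Ω => (u - c0 • T) h ≠ 0 ∧
                      ∃ t t', Good s t t' ∧ cj s (t * t') = cj s h ∧ code t t' = c)) ⊂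
                      (Finset.univ.filter (fun h : Perm Ω => u h ≠ 0 ∧ ∃ t t', Good s t t' ∧
                      cj s (t * t') = cj s h ∧ code t t' = c)) := by
                    rw [Finset.ssubset_iff_of_subset]
                    · refine ⟨x * x', ?_, ?_⟩
                      · simp only [Finset.mem_filter, Finset.mem_univ, true_and]
                        exact ⟨hy0, x, x', hx, rfl, hcode⟩
                      · simp only [Finset.mem_filter, Finset.mem_univ, true_and, not_and]
                        intro h'
                        exfalso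
                        apply h'
                        simp only [Pi.sub_apply, Pi.smul_apply, smul_eq_mul, hc0]
                        field_simp
                        ring
                    · intro h' hh'
                      simp only [Finset.mem_filter, Finset.mem_univ, true_and] at hh' ⊢
                      obtain ⟨hh1, t, t', ht, htt, htc⟩ := hh'
                      refine ⟨?_, t, t', ht, htt, htc⟩
                      intro huh
                      have hTh : T h' ≠ 0 := by
                        intro h''
                        apply hh1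
                        simp [huh, h'']
                      obtain ⟨i, j, hi, hj, hij⟩ := (hTc h' t t' hTh ht htt).2 htc
                      rw [hij, hu.2 _ _ hj, hu.1 _ _ hi] at huh
                      have h3 := (mul_eq_zero.1 huh).resolve_left (sg_ne_zero _)
                      have h4 := (mul_eq_zero.1 h3).resolve_left (sg_ne_zero _)
                      exact hy0 h4
                  have := Finset.card_lt_card hsub
                  omega
              have : u = (u - c0 • T) + c0 • T := by abel
              rw [this]
              apply Submodule.add_mem _ hmem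
              apply Submodule.smul_mem
              exact Submodule.subset_span ⟨(x.cycleType, x'.cycleType), rfl⟩
            · apply ihn u hu hc
              have : (Finset.univ.filter (fun h : Perm Ω => u h ≠ 0 ∧ ∃ t t', Good s t t' ∧
                  cj s (t * t') = cj s h ∧ code t t' = c)) = ∅ := by
                rw [Finset.filter_eq_empty_iff]
                intro h _ hcon
                exact hemp ⟨h, hcon⟩
              rw [this]
              simp
      intro u hu hc
      exact inner _ u hu hc le_rfl

/-- Bi-semi-invariant functions are spanned by the class sum functions. -/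
theorem mem_span (hs : s * s = 1) (h2 : (2 : F) ≠ 0) {u : Perm Ω → F} (hu : u ∈ SemiInv s F) :
    u ∈ Submodule.span F (Set.range (fun p : Multiset ℕ × Multiset ℕ => Tf s F p.1 p.2)) := by
  classical
  -- a bound for all the codes
  have hbd : ∃ c : ℕ, ∀ t t' : Perm Ω, code t t' < c := by
    refine ⟨(Finset.univ.sup (fun p : Perm Ω × Perm Ω => code p.1 p.2)) + 1, fun t t' => ?_⟩
    have := Finset.le_sup (f := fun p : Perm Ω × Perm Ω => code p.1 p.2)
      (Finset.mem_univ (t, t'))
    simp only at this
    omega
  obtain ⟨c, hc⟩ := hbd
  exact span_aux hs h2 c u hu (fun _ t t' _ _ _ => hc t t')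

end Pool.Agent.Helper89.Foulkes
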